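import Pool.Agent.Helper80.Lat.Glue

set_option autoImplicit false
set_option linter.unusedSectionVars false

/-!
# Planar lattices whose unbalanced faces are long have a good colouring
-/

namespace Pool.Agent.Helper80.Lat

open Pool.Agent.Helper84

/-- Number of changes of a sequence before `n`. -/
def nch (s : ℕ → Bool) : ℕ → ℕ
  | 0 => 0
  | n + 1 => nch s n + (if s n = s (n + 1) then 0 else 1)

theorem nch_mono (s : ℕ → Bool) {m n : ℕ} (h : m ≤ n) : nch s m ≤ nch s n := by
  induction n, h using Nat.le_induction with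
  | base => exact le_rfl
  | succ n _ ih => simp only [nch]; omega

theorem good2_iff (p q : ℕ) : Good2 p q ↔ min p 2 = min q 2 := by
  unfold Good2; omega

/-- Colour at distance `n + 1` from colour `c`. -/
theorem pc_ne (c : Bool) (n : ℕ) : pc c (n + 1) ≠ pc c n := by
  rw [pc_succ]; cases pc c n <;> simp

section

variable {V : Type} [Fintype V] [PartialOrder V]

open Classical in
/-- Number of steps of `C` from `a` to `v`. -/
noncomputable def stp (C : Set V) (a v : V) : ℕ :=
  (Finset.univ.filter (fun x => x ∈ C ∧ a ≤ x ∧ x < v)).card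

theorem stp_self (C : Set V) (a : V) : stp C a a = 0 := by
  classical
  unfold stp
  rw [Finset.card_eq_zero, Finset.filter_eq_empty_iff]
  rintro x _ ⟨_, h1, h2⟩
  exact absurd h2 (not_lt_of_ge h1)

theorem stp_lt {C : Set V} {a x y : V} (hx : x ∈ C) (hax : a ≤ x) (hxy : x < y) :
    stp C a x < stp C a y := by
  classical
  unfold stp
  apply Finset.card_lt_card
  constructor
  · intro z hz
    simp only [Finset.mem_filter, Finset.mem_univ, true_and] at hz ⊢
    exact ⟨hz.1, hz.2.1, hz.2.2.trans hxy⟩
  · intro h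
    have h1 := h (by simpa using (⟨hx, hax, hxy⟩ : x ∈ C ∧ a ≤ x ∧ x < y) :
      x ∈ Finset.univ.filter (fun z => z ∈ C ∧ a ≤ z ∧ z < y))
    simp at h1

theorem stp_succ {C : Set V} (hC : IsMaxChain (· ≤ ·) C) {a x y : V} (hx : x ∈ C)
    (hax : a ≤ x) (hxy : x ⋖ y) : stp C a y = stp C a x + 1 := by
  classical
  unfold stp
  have : (Finset.univ.filter (fun z => z ∈ C ∧ a ≤ z ∧ z < y)) =
      insert x (Finset.univ.filter (fun z => z ∈ C ∧ a ≤ z ∧ z < x)) := by
    ext z
    simp only [Finset.mem_filter, Finset.mem_univ, true_and, Finset.mem_insert]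
    constructor
    · rintro ⟨h1, h2, h3⟩
      rcases chain_total hC h1 hx with h5 | h5
      · rcases eq_or_lt_of_le h5 with h6 | h6
        · exact Or.inl h6
        · exact Or.inr ⟨h1, h2, h6⟩
      · rcases eq_or_lt_of_le h5 with h6 | h6
        · exact Or.inl h6.symm
        · exact absurd h3 (hxy.2 h6)
    · rintro (h | ⟨h1, h2, h3⟩)
      · subst h; exact ⟨hx, hax, hxy.lt⟩
      · exact ⟨h1, h2, h3.trans hxy.lt⟩
  rw [this, Finset.card_insert_of_notMem]
  simp

variable {C : Set V}

theorem stp_le {a x y : V} (hx : x ∈ C) (hax : a ≤ x)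
    (h : x ≤ y) : stp C a x ≤ stp C a y := by
  rcases eq_or_lt_of_le h with h | h
  · rw [h]
  · exact (stp_lt hx hax h).le

theorem stp_inj (hC : IsMaxChain (· ≤ ·) C) {a x y : V} (hx : x ∈ C) (hy : y ∈ C) (hax : a ≤ x)
    (hay : a ≤ y) (h : stp C a x = stp C a y) : x = y := by
  rcases chain_total hC hx hy with h1 | h1
  · rcases eq_or_lt_of_le h1 with h2 | h2
    · exact h2
    · have := stp_lt hx hax h2; omega
  · rcases eq_or_lt_of_le h1 with h2 | h2
    · exact h2.symm
    · have := stp_lt hy hay h2; omega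

theorem stp_cov (hC : IsMaxChain (· ≤ ·) C) {a x y : V} (hx : x ∈ C) (hy : y ∈ C) (hax : a ≤ x)
    (hay : a ≤ y) (h : stp C a y = stp C a x + 1) : x ⋖ y := by
  have h1 : x < y := by
    rcases chain_total hC hx hy with h1 | h1
    · exact lt_of_le_of_ne h1 (fun e => by rw [e] at h; omega)
    · have := stp_le hy hay h1; omega
  apply chain_covBy hC hx hy h1
  rintro z hz ⟨h2, h3⟩
  have h4 := stp_lt hx hax h2
  have h5 := stp_lt hz (hax.trans h2.le) h3
  omega

theorem stp_ivt (hC : IsMaxChain (· ≤ ·) C) {a : V} (ha : a ∈ C) :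
    ∀ b ∈ C, a ≤ b → ∀ m ≤ stp C a b, ∃ c ∈ C, a ≤ c ∧ c ≤ b ∧ stp C a c = m := by
  apply chain_induct hC ha
  · intro m hm
    rw [stp_self] at hm
    exact ⟨a, ha, le_rfl, le_rfl, by rw [stp_self]; omega⟩
  · intro y hy z hz hay hyz ih m hm
    rcases Nat.lt_or_ge (stp C a y) m with h | h
    · refine ⟨z, hz, hay.trans hyz.le, le_rfl, ?_⟩
      have := stp_succ hC hy hay hyz
      omega
    · obtain ⟨c, hc, h1, h2, h3⟩ := ih m h
      exact ⟨c, hc, h1, h2.trans hyz.le, h3⟩

theorem cnt_nch (hC : IsMaxChain (· ≤ ·) C) {a b : V} (ha : a ∈ C) {χ : V → Bool} {s : ℕ → Bool}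
    (h : ∀ v ∈ C, a ≤ v → v ≤ b → χ v = s (stp C a v)) :
    ∀ v ∈ C, a ≤ v → v ≤ b → cnt χ C a v = nch s (stp C a v) := by
  apply chain_induct hC ha (P := fun v => v ≤ b → cnt χ C a v = nch s (stp C a v))
  · intro _
    rw [cnt_self, stp_self]; rfl
  · intro y hy z hz hay hyz ih hzb
    rw [cnt_succ hC hy hz hay hyz, ih (hyz.le.trans hzb), stp_succ hC hy hay hyz,
      h y hy hay (hyz.le.trans hzb), h z hz (hay.trans hyz.le) hzb, stp_succ hC hy hay hyz]
    rfl

open Classical in
/-- The colours along `C` above `a`. -/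
noncomputable def sq (C : Set V) (χ : V → Bool) (a : V) (n : ℕ) : Bool :=
  decide (∃ c ∈ C, a ≤ c ∧ stp C a c = n ∧ χ c = true)

theorem sq_eq (hC : IsMaxChain (· ≤ ·) C) {χ : V → Bool} {a c : V} (hc : c ∈ C) (hac : a ≤ c) :
    sq C χ a (stp C a c) = χ c := by
  classical
  unfold sq
  rcases h : χ c with _ | _
  · simp only [decide_eq_false_iff_not]
    rintro ⟨d, hd, h1, h2, h3⟩
    rw [stp_inj hC hd hc h1 hac h2, h] at h3
    simp at h3
  · simp only [decide_eq_true_eq]
    exact ⟨c, hc, hac, rfl, h⟩

/-- No three consecutive elements of one colour (not left of `C`). -/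
def NoRun (R : LR V) (C : Set V) (χ : V → Bool) : Prop :=
  ∀ x y z, wr R C x → wr R C y → wr R C z → x ⋖ y → y ⋖ z → ¬ (χ x = χ y ∧ χ y = χ z)

/-- Saturated chains inside `W` with a given number of changes. -/
inductive ChW (W : V → Prop) (χ : V → Bool) (u : V) : V → ℕ → Prop
  | refl : W u → ChW W χ u u 0
  | step (v w : V) (n : ℕ) : ChW W χ u v n → W w → v ⋖ w →
      ChW W χ u w (n + if χ v = χ w then 0 else 1)

/-- Two saturated chains inside `W` with the same ends have equivalent numbers of changes. -/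
def H2W (W : V → Prop) (χ : V → Bool) : Prop :=
  ∀ u v m n, ChW W χ u v m → ChW W χ u v n → Good2 m n

theorem ChW.right {W : V → Prop} {χ : V → Bool} {u v : V} {n : ℕ} (h : ChW W χ u v n) : W v := by
  cases h with
  | refl h => exact h
  | step _ _ _ _ h _ => exact h

theorem ChW.left {W : V → Prop} {χ : V → Bool} {u v : V} {n : ℕ} (h : ChW W χ u v n) : W u := by
  induction h with
  | refl h => exact h
  | step _ _ _ _ _ _ ih => exact ih

theorem ChW.le {W : V → Prop} {χ : V → Bool} {u v : V} {n : ℕ} (h : ChW W χ u v n) : u ≤ v := by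
  induction h with
  | refl h => exact le_rfl
  | step _ _ _ _ _ h ih => exact ih.trans h.le

theorem ChW.congr {W : V → Prop} {χ χ' : V → Bool} (hχ : ∀ v, W v → χ v = χ' v) {u v : V} {n : ℕ}
    (h : ChW W χ u v n) : ChW W χ' u v n := by
  induction h with
  | refl h => exact ChW.refl h
  | step v w n h1 h2 h3 ih =>
    rw [hχ v h1.right, hχ w h2]
    exact ChW.step v w n ih h2 h3

theorem H2W.congr {W : V → Prop} {χ χ' : V → Bool} (hχ : ∀ v, W v → χ v = χ' v)
    (h : H2W W χ) : H2W W χ' := fun u v m n h1 h2 =>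
  h u v m n (h1.congr (fun v hv => (hχ v hv).symm)) (h2.congr (fun v hv => (hχ v hv).symm))

theorem ChW.append {W : V → Prop} {χ : V → Bool} (hC : IsMaxChain (· ≤ ·) C)
    (hW : ∀ v ∈ C, W v) {u a : V} (ha : a ∈ C) {m : ℕ} (h : ChW W χ u a m) :
    ∀ v ∈ C, a ≤ v → ChW W χ u v (m + cnt χ C a v) := by
  apply chain_induct hC ha
  · rw [cnt_self]; exact h
  · intro y hy z hz hay hyz ih
    rw [cnt_succ hC hy hz hay hyz, ← add_assoc]
    exact ChW.step _ _ _ ih (hW z hz) hyz

theorem changes_two {W : V → Prop} {χ : V → Bool} (hC : IsMaxChain (· ≤ ·) C)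
    (hW : ∀ x y z, W x → W y → W z → x ⋖ y → y ⋖ z → ¬ (χ x = χ y ∧ χ y = χ z))
    (hCW : ∀ v ∈ C, W v) {a b : V} (ha : a ∈ C) (hb : b ∈ C) (hab : a ≤ b)
    (h : 4 ≤ stp C a b) : 2 ≤ cnt χ C a b := by
  obtain ⟨c1, m1, k1, _, n1⟩ := stp_ivt hC ha b hb hab 1 (by omega)
  obtain ⟨c2, m2, k2, _, n2⟩ := stp_ivt hC ha b hb hab 2 (by omega)
  obtain ⟨c3, m3, k3, _, n3⟩ := stp_ivt hC ha b hb hab 3 (by omega)
  obtain ⟨c4, m4, k4, l4, n4⟩ := stp_ivt hC ha b hb hab 4 (by omega)
  have v1 : a ⋖ c1 := stp_cov hC ha m1 le_rfl k1 (by rw [stp_self, n1])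
  have v2 : c1 ⋖ c2 := stp_cov hC m1 m2 k1 k2 (by rw [n1, n2])
  have v3 : c2 ⋖ c3 := stp_cov hC m2 m3 k2 k3 (by rw [n2, n3])
  have v4 : c3 ⋖ c4 := stp_cov hC m3 m4 k3 k4 (by rw [n3, n4])
  have e1 := cnt_succ (χ := χ) hC ha m1 le_rfl v1
  have e2 := cnt_succ (χ := χ) hC m1 m2 k1 v2
  have e3 := cnt_succ (χ := χ) hC m2 m3 k2 v3
  have e4 := cnt_succ (χ := χ) hC m3 m4 k3 v4
  have e5 := cnt_mono (χ := χ) (C := C) (a := a) l4
  have f1 := hW a c1 c2 (hCW a ha) (hCW c1 m1) (hCW c2 m2) v1 v2
  have f2 := hW c2 c3 c4 (hCW c2 m2) (hCW c3 m3) (hCW c4 m4) v3 v4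
  have g1 : 1 ≤ (if χ a = χ c1 then 0 else 1) + (if χ c1 = χ c2 then 0 else 1) := by
    by_cases q1 : χ a = χ c1
    · by_cases q2 : χ c1 = χ c2
      · exact absurd ⟨q1, q2⟩ f1
      · rw [if_neg q2]; omega
    · rw [if_neg q1]; omega
  have g2 : 1 ≤ (if χ c2 = χ c3 then 0 else 1) + (if χ c3 = χ c4 then 0 else 1) := by
    by_cases q1 : χ c2 = χ c3
    · by_cases q2 : χ c3 = χ c4
      · exact absurd ⟨q1, q2⟩ f2
      · rw [if_neg q2]; omega
    · rw [if_neg q1]; omega
  omega

variable [BoundedOrder V] {R : LR V} {a l r b : V} {χ : V → Bool}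

theorem mem_lside_or {v : V} (hv : v ∈ C) (h1 : a ≤ v) (h2 : v ≤ b) :
    v = a ∨ v = b ∨ v ∈ lside C a b := by
  rcases eq_or_lt_of_le h1 with h3 | h3
  · exact Or.inl h3.symm
  · rcases eq_or_lt_of_le h2 with h4 | h4
    · exact Or.inr (Or.inl h4)
    · exact Or.inr (Or.inr ⟨hv, h3, h4⟩)

theorem norun_step (F : Face R C a l r b) (hC : IsMaxChain (· ≤ ·) C) {χ' : V → Bool}
    {s : ℕ → Bool} (hag : ∀ v, v ∉ lside C a b → χ' v = χ v)
    (hs : ∀ v ∈ C, a ≤ v → v ≤ b → χ' v = s (stp C a v))
    (ih : NoRun R (flipC R C a r b) χ)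
    (h1 : ∀ n, n + 2 ≤ stp C a b → ¬ (s n = s (n + 1) ∧ s (n + 1) = s (n + 2)))
    (h2 : ∀ x, wr R (flipC R C a r b) x → x ⋖ a → ¬ (χ x = χ a ∧ χ a = s 1))
    (h3 : ∀ z, wr R (flipC R C a r b) z → b ⋖ z →
      ¬ (s (stp C a b - 1) = χ b ∧ χ b = χ z)) : NoRun R C χ' := by
  have hna : a ∉ lside C a b := fun h => absurd h.2.1 (lt_irrefl _)
  have hnb : b ∉ lside C a b := fun h => absurd h.2.2 (lt_irrefl _)
  intro x y z hx hy hz hxy hyz hc
  by_cases ly : y ∈ lside C a b
  · obtain ⟨c1, c2, c3, _⟩ := cov_lside F hC hxy hx hy (Or.inr ly)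
    obtain ⟨_, d2, _, d4⟩ := cov_lside F hC hyz hy hz (Or.inl ly)
    have e1 := stp_succ hC c1 c3 hxy
    have e2 := stp_succ hC c2 (c3.trans hxy.le) hyz
    rw [hs x c1 c3 (hxy.le.trans (hyz.le.trans d4)), hs y c2 (c3.trans hxy.le) (hyz.le.trans d4),
      hs z d2 (c3.trans (hxy.le.trans hyz.le)) d4, e2, e1] at hc
    refine h1 (stp C a x) ?_ hc
    have := stp_le d2 (c3.trans (hxy.le.trans hyz.le)) d4
    omega
  · by_cases lx : x ∈ lside C a b
    · obtain ⟨_, c2, _, c4⟩ := cov_lside F hC hxy hx hy (Or.inl lx)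
      have hyb : y = b := by
        rcases mem_lside_or c2 (lx.2.1.le.trans hxy.le) c4 with h | h | h
        · exact absurd (h ▸ hxy.lt) (not_lt_of_ge lx.2.1.le)
        · exact h
        · exact absurd h ly
      subst hyb
      have lz : z ∉ lside C a y := fun h => absurd h.2.2 (not_lt_of_ge hyz.le)
      have e1 := stp_succ hC lx.1 lx.2.1.le hxy
      rw [hs x lx.1 lx.2.1.le hxy.le, hag y hnb, hag z lz] at hc
      refine h3 z (wr_old F hC hz lz) hyz ?_
      rw [show stp C a y - 1 = stp C a x by omega]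
      exact hc
    · by_cases lz : z ∈ lside C a b
      · obtain ⟨c1, _, c3, _⟩ := cov_lside F hC hyz hy hz (Or.inr lz)
        have hya : y = a := by
          rcases mem_lside_or c1 c3 (hyz.le.trans lz.2.2.le) with h | h | h
          · exact h
          · exact absurd (h ▸ hyz.lt) (not_lt_of_ge lz.2.2.le)
          · exact absurd h ly
        subst hya
        have e1 := stp_succ hC F.ha le_rfl hyz
        rw [stp_self] at e1
        rw [hag x lx, hag y hna, hs z lz.1 hyz.le lz.2.2.le, e1] at hc
        exact h2 x (wr_old F hC hx lx) hxy hc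
      · rw [hag x lx, hag y ly, hag z lz] at hc
        exact ih x y z (wr_old F hC hx lx) (wr_old F hC hy ly) (wr_old F hC hz lz) hxy hyz hc

theorem h2_step (F : Face R C a l r b) (hC : IsMaxChain (· ≤ ·) C)
    (ih : H2W (wr R (flipC R C a r b)) χ)
    (hg : Good2 (cnt χ C a b) (cnt χ (flipC R C a r b) a b)) : H2W (wr R C) χ := by
  have hC' := flip_max F hC
  have hna : a ∉ lside C a b := fun h => absurd h.2.1 (lt_irrefl _)
  have hnb : b ∉ lside C a b := fun h => absurd h.2.2 (lt_irrefl _)
  have haC' : a ∈ flipC R C a r b := Or.inl ⟨F.ha, Or.inl le_rfl⟩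
  have hbC' : b ∈ flipC R C a r b := Or.inl ⟨F.hb, Or.inr le_rfl⟩
  rw [good2_iff] at hg
  have up : ∀ u v n, ChW (wr R C) χ u v n → u ∉ lside C a b →
      (v ∉ lside C a b → ∃ n', ChW (wr R (flipC R C a r b)) χ u v n' ∧ min n 2 = min n' 2) ∧
      (v ∈ lside C a b → ∃ m, ChW (wr R (flipC R C a r b)) χ u a m ∧
        min n 2 = min (m + cnt χ C a v) 2) := by
    intro u v n h
    induction h with
    | refl h =>
      intro hu
      exact ⟨fun _ => ⟨0, ChW.refl (wr_old F hC h hu), rfl⟩, fun h1 => absurd h1 hu⟩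
    | step v w n k1 k2 k3 ih1 =>
      intro hu
      obtain ⟨i1, i2⟩ := ih1 hu
      by_cases hv : v ∈ lside C a b
      · obtain ⟨m, j1, j2⟩ := i2 hv
        obtain ⟨_, c2, _, c4⟩ := cov_lside F hC k3 k1.right k2 (Or.inl hv)
        have e1 := cnt_succ (χ := χ) hC hv.1 c2 hv.2.1.le k3
        constructor
        · intro hw
          have hwb : w = b := by
            rcases mem_lside_or c2 (hv.2.1.le.trans k3.le) c4 with h | h | h
            · exact absurd (h ▸ k3.lt) (not_lt_of_ge hv.2.1.le)
            · exact h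
            · exact absurd h hw
          subst hwb
          refine ⟨_, ChW.append hC' (fun v hv => wr_of_mem R hC' hv) haC' j1 w hbC' F.ab.le, ?_⟩
          omega
        · intro _
          refine ⟨m, j1, ?_⟩
          omega
      · obtain ⟨n', j1, j2⟩ := i1 hv
        constructor
        · intro hw
          exact ⟨_, ChW.step _ _ _ j1 (wr_old F hC k2 hw) k3, by omega⟩
        · intro hw
          obtain ⟨c1, _, c3, _⟩ := cov_lside F hC k3 k1.right k2 (Or.inr hw)
          have hva : v = a := by
            rcases mem_lside_or c1 c3 (k3.le.trans hw.2.2.le) with h | h | h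
            · exact h
            · exact absurd (h ▸ k3.lt) (not_lt_of_ge hw.2.2.le)
            · exact absurd h hv
          subst hva
          have e1 := cnt_succ (χ := χ) hC F.ha hw.1 le_rfl k3
          rw [cnt_self] at e1
          exact ⟨n', j1, by omega⟩
  have mid : ∀ u v n, ChW (wr R C) χ u v n → u ∈ lside C a b →
      (v ∈ lside C a b → n = cnt χ C u v) ∧
      (v ∉ lside C a b → ∃ m, ChW (wr R (flipC R C a r b)) χ b v m ∧
        min n 2 = min (cnt χ C u b + m) 2) := by
    intro u v n h
    induction h with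
    | refl h =>
      intro hu
      exact ⟨fun _ => by rw [cnt_self], fun h1 => absurd hu h1⟩
    | step v w n k1 k2 k3 ih1 =>
      intro hu
      obtain ⟨i1, i2⟩ := ih1 hu
      by_cases hv : v ∈ lside C a b
      · have j1 := i1 hv
        obtain ⟨_, c2, _, c4⟩ := cov_lside F hC k3 k1.right k2 (Or.inl hv)
        have e1 := cnt_succ (χ := χ) hC hv.1 c2 k1.le k3
        constructor
        · intro _
          omega
        · intro hw
          have hwb : w = b := by
            rcases mem_lside_or c2 (hv.2.1.le.trans k3.le) c4 with h | h | h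
            · exact absurd (h ▸ k3.lt) (not_lt_of_ge hv.2.1.le)
            · exact h
            · exact absurd h hw
          subst hwb
          exact ⟨0, ChW.refl (wr_of_mem R hC' hbC'), by omega⟩
      · obtain ⟨m, j1, j2⟩ := i2 hv
        constructor
        · intro hw
          exfalso
          obtain ⟨c1, _, c3, _⟩ := cov_lside F hC k3 k1.right k2 (Or.inr hw)
          exact hv ⟨c1, hu.2.1.trans_le k1.le, k3.lt.trans hw.2.2⟩
        · intro hw
          exact ⟨_, ChW.step _ _ _ j1 (wr_old F hC k2 hw) k3, by omega⟩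
  intro u v m n h1 h2
  rw [good2_iff]
  by_cases hu : u ∈ lside C a b
  · obtain ⟨i1, i2⟩ := mid u v m h1 hu
    obtain ⟨j1, j2⟩ := mid u v n h2 hu
    by_cases hv : v ∈ lside C a b
    · rw [i1 hv, j1 hv]
    · obtain ⟨m', k1, k2⟩ := i2 hv
      obtain ⟨n', k3, k4⟩ := j2 hv
      have := ih _ _ _ _ k1 k3
      rw [good2_iff] at this
      omega
  · obtain ⟨i1, i2⟩ := up u v m h1 hu
    obtain ⟨j1, j2⟩ := up u v n h2 hu
    by_cases hv : v ∈ lside C a b
    · obtain ⟨m', k1, k2⟩ := i2 hv
      obtain ⟨n', k3, k4⟩ := j2 hv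
      have := ih _ _ _ _ k1 k3
      rw [good2_iff] at this
      omega
    · obtain ⟨m', k1, k2⟩ := i1 hv
      obtain ⟨n', k3, k4⟩ := j1 hv
      have := ih _ _ _ _ k1 k3
      rw [good2_iff] at this
      omega

/-- Every face is balanced or has at least three covers on the left and four on the right. -/
def BalF (R : LR V) : Prop := ∀ (C : Set V) (a l r b : V),
  IsMaxChain (· ≤ ·) C → Face R C a l r b →
    stp C a b = stp (flipC R C a r b) a b ∨
      (3 ≤ stp C a b ∧ 4 ≤ stp (flipC R C a r b) a b)

theorem col_ex (R : LR V) (hR : BalF R) : ∀ C : Set V, IsMaxChain (· ≤ ·) C →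
    ∃ χ : V → Bool, NoRun R C χ ∧ H2W (wr R C) χ := by
  classical
  have main : ∀ n : ℕ, ∀ C : Set V, IsMaxChain (· ≤ ·) C →
      (Finset.univ.filter (fun v => wr R C v)).card ≤ n →
      ∃ χ : V → Bool, NoRun R C χ ∧ H2W (wr R C) χ := by
    intro n
    induction n with
    | zero =>
      intro C hC hn
      rw [Nat.le_zero, Finset.card_eq_zero, Finset.filter_eq_empty_iff] at hn
      exact absurd (wr_of_mem R hC hC.bot_mem) (hn (Finset.mem_univ ⊥))
    | succ n ih =>
      intro C hC hn
      by_cases h : ∀ v, wr R C v → v ∈ C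
      · -- a chain: alternating colours
        refine ⟨fun v => pc true (stp C ⊥ v), ?_, ?_⟩
        · rintro x y z hx hy _ hxy _ ⟨hc, _⟩
          have h1 := stp_succ hC (h x hx) bot_le hxy
          simp only [h1] at hc
          exact pc_ne _ _ hc.symm
        · have key : ∀ u v m, ChW (wr R C) (fun v => pc true (stp C ⊥ v)) u v m →
              m = cnt (fun v => pc true (stp C ⊥ v)) C u v := by
            intro u v m hm
            induction hm with
            | refl _ => rw [cnt_self]
            | step v w n k1 k2 k3 ih1 =>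
              rw [cnt_succ hC (h v k1.right) (h w k2) k1.le k3, ← ih1]
          intro u v m n h1 h2
          rw [key u v m h1, key u v n h2, good2_iff]
      · push Not at h
        obtain ⟨v, hv, hv'⟩ := h
        obtain ⟨a, l, r, b, F⟩ := face_ex R hC hv hv'
        have hC' := flip_max F hC
        have haC' : a ∈ flipC R C a r b := Or.inl ⟨F.ha, Or.inl le_rfl⟩
        have hbC' : b ∈ flipC R C a r b := Or.inl ⟨F.hb, Or.inr le_rfl⟩
        have hlb : l < b := by
          have h3 := F.l_le hC F.hb F.ab
          rcases eq_or_lt_of_le h3 with h4 | h4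
          · exact (R.ne2 F.Llr (h4 ▸ F.rb)).elim
          · exact h4
        have hl : l ∈ lside C a b := ⟨F.hl, F.al.lt, hlb⟩
        have hcard : (Finset.univ.filter (fun v => wr R (flipC R C a r b) v)).card <
            (Finset.univ.filter (fun v => wr R C v)).card := by
          apply Finset.card_lt_card
          constructor
          · intro z hz
            simp only [Finset.mem_filter, Finset.mem_univ, true_and] at hz ⊢
            exact wr_flip F hC hz
          · intro h3
            have h4 := h3 (by simpa using wr_of_mem R hC F.hl :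
              l ∈ Finset.univ.filter (fun v => wr R C v))
            simp only [Finset.mem_filter, Finset.mem_univ, true_and] at h4
            exact lside_not F hC hl h4
        obtain ⟨χ, hχ, hχ2⟩ := ih _ hC' (by omega)
        have hna : a ∉ lside C a b := fun h => absurd h.2.1 (lt_irrefl _)
        have hnb : b ∉ lside C a b := fun h => absurd h.2.2 (lt_irrefl _)
        -- the colours of the new part are given by a sequence
        have fin : ∀ s : ℕ → Bool, s 0 = χ a → s (stp C a b) = χ b →
            (∀ n, n + 2 ≤ stp C a b → ¬ (s n = s (n + 1) ∧ s (n + 1) = s (n + 2))) →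
            (∀ x, wr R (flipC R C a r b) x → x ⋖ a → ¬ (χ x = χ a ∧ χ a = s 1)) →
            (∀ z, wr R (flipC R C a r b) z → b ⋖ z →
              ¬ (s (stp C a b - 1) = χ b ∧ χ b = χ z)) →
            Good2 (nch s (stp C a b)) (cnt χ (flipC R C a r b) a b) →
            ∃ χ : V → Bool, NoRun R C χ ∧ H2W (wr R C) χ := by
          intro s s0 sN g1 g2 g3 g4
          set χ' : V → Bool := fun v => if v ∈ lside C a b then s (stp C a v) else χ v with hχ'
          have hag : ∀ v, v ∉ lside C a b → χ' v = χ v := fun v hv => by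
            simp only [hχ', hv, if_false]
          have hs : ∀ v ∈ C, a ≤ v → v ≤ b → χ' v = s (stp C a v) := by
            intro v hv h1 h2
            rcases mem_lside_or hv h1 h2 with h3 | h3 | h3
            · subst h3; rw [hag v hna, stp_self, s0]
            · subst h3; rw [hag v hnb, sN]
            · simp only [hχ', h3, if_true]
          have hW : ∀ v, wr R (flipC R C a r b) v → χ v = χ' v := by
            intro v hv
            rw [hag v (fun h => lside_not F hC h hv)]
          refine ⟨χ', norun_step F hC hag hs hχ g1 g2 g3, h2_step F hC (hχ2.congr hW) ?_⟩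
          rw [cnt_nch hC F.ha hs b F.hb F.ab.le le_rfl]
          have e : cnt χ' (flipC R C a r b) a b = cnt χ (flipC R C a r b) a b := by
            rw [cnt_nch hC' haC' (s := sq (flipC R C a r b) χ a) (b := b)
                (fun v hv h1 _ => by rw [sq_eq hC' hv h1, hW v (wr_of_mem R hC' hv)])
                b hbC' F.ab.le le_rfl,
              cnt_nch hC' haC' (s := sq (flipC R C a r b) χ a) (b := b)
                (fun v hv h1 _ => by rw [sq_eq hC' hv h1]) b hbC' F.ab.le le_rfl]
          rw [e]; exact g4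
        rcases hR C a l r b hC F with hb | ⟨hb1, hb2⟩
        · -- balanced: copy the colours of the right side
          have hiv := stp_ivt hC' haC' b hbC' F.ab.le
          apply fin (sq (flipC R C a r b) χ a)
          · have := sq_eq hC' (χ := χ) haC' le_rfl
            rwa [stp_self] at this
          · rw [hb]; exact sq_eq hC' hbC' F.ab.le
          · intro n hn hc
            obtain ⟨c0, m0, k0, _, n0⟩ := hiv n (by omega)
            obtain ⟨c1, m1, k1, _, n1⟩ := hiv (n + 1) (by omega)
            obtain ⟨c2, m2, k2, _, n2⟩ := hiv (n + 2) (by omega)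
            have e0 := sq_eq hC' (χ := χ) m0 k0
            have e1 := sq_eq hC' (χ := χ) m1 k1
            have e2 := sq_eq hC' (χ := χ) m2 k2
            rw [n0] at e0; rw [n1] at e1; rw [n2] at e2
            rw [e0, e1, e2] at hc
            exact hχ c0 c1 c2 (wr_of_mem R hC' m0) (wr_of_mem R hC' m1) (wr_of_mem R hC' m2)
              (stp_cov hC' m0 m1 k0 k1 (by rw [n0, n1])) (stp_cov hC' m1 m2 k1 k2 (by rw [n1, n2]))
              hc
          · intro x hx hxa hc
            have hpos := stp_lt haC' le_rfl F.ab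
            rw [stp_self] at hpos
            obtain ⟨c1, m1, k1, _, n1⟩ := hiv 1 (by omega)
            have e1 := sq_eq hC' (χ := χ) m1 k1
            rw [n1] at e1; rw [e1] at hc
            exact hχ x a c1 hx (wr_of_mem R hC' haC') (wr_of_mem R hC' m1) hxa
              (stp_cov hC' haC' m1 le_rfl k1 (by rw [stp_self, n1])) hc
          · intro z hz hbz hc
            have hpos := stp_lt haC' le_rfl F.ab
            rw [stp_self] at hpos
            obtain ⟨c1, m1, k1, _, n1⟩ := hiv (stp C a b - 1) (by omega)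
            have e1 := sq_eq hC' (χ := χ) m1 k1
            rw [n1] at e1; rw [e1] at hc
            exact hχ c1 b z (wr_of_mem R hC' m1) (wr_of_mem R hC' hbC') hz
              (stp_cov hC' m1 hbC' k1 F.ab.le (by rw [n1]; omega)) hbz hc
          · rw [hb, ← cnt_nch hC' haC' (χ := χ) (b := b)
                (fun v hv h1 _ => by rw [sq_eq hC' hv h1]) b hbC' F.ab.le le_rfl, good2_iff]
        · -- long: alternating colours
          set N := stp C a b with hN
          apply fin (fun n => if n = 0 then χ a else if n = 1 then !(χ a) else pc (χ b) (N - n))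
          · simp
          · simp only [show N ≠ 0 by omega, show N ≠ 1 by omega, if_false, Nat.sub_self]
            exact pc_zero _
          · intro n hn hc
            rcases Nat.eq_zero_or_pos n with h0 | h0
            · subst h0
              have := hc.1
              simp at this
            · have h1 := hc.2
              simp only [show n + 1 ≠ 0 by omega, show n + 1 ≠ 1 by omega, show n + 2 ≠ 0 by omega,
                show n + 2 ≠ 1 by omega, if_false] at h1
              rw [show N - (n + 1) = (N - (n + 2)) + 1 by omega] at h1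
              exact pc_ne _ _ h1
          · intro x _ _ hc
            have := hc.2
            simp at this
          · intro z _ _ hc
            have h1 := hc.1
            simp only [show N - 1 ≠ 0 by omega, show N - 1 ≠ 1 by omega, if_false] at h1
            rw [show N - (N - 1) = 0 + 1 by omega] at h1
            have := pc_ne (χ b) 0
            rw [pc_zero] at this
            exact this h1
          · right; right
            constructor
            · refine le_trans ?_ (nch_mono _ (show 3 ≤ N by omega))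
              have h1 : pc (χ b) (N - 2) ≠ pc (χ b) (N - 3) := by
                rw [show N - 2 = (N - 3) + 1 by omega]; exact pc_ne _ _
              have h2 : χ a ≠ !(χ a) := by cases χ a <;> simp
              simp [nch, h1]
            · exact changes_two hC' hχ (fun v hv => wr_of_mem R hC' hv) haC' hbC' F.ab.le hb2
  intro C hC
  exact main _ C hC le_rfl

end

section

variable {V : Type} [Fintype V] [PartialOrder V]

/-- A part of a maximal chain as a list. -/
theorem list_of_max {C : Set V} (hC : IsMaxChain (· ≤ ·) C) {a : V} (ha : a ∈ C) :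
    ∀ b ∈ C, a ≤ b → ∃ l : List V, (l ++ [b]).IsChain (· ⋖ ·) ∧ (l ++ [b]).head? = some a ∧
      l.length = stp C a b ∧ ∀ x ∈ l ++ [b], x ∈ C ∧ a ≤ x ∧ x ≤ b := by
  apply chain_induct hC ha
  · exact ⟨[], by simp, by simp, by simp [stp_self], by simp [ha]⟩
  · intro y hy z hz hay hyz ⟨l, h1, h2, h3, h4⟩
    refine ⟨l ++ [y], ?_, ?_, ?_, ?_⟩
    · rw [List.isChain_append]
      refine ⟨h1, by simp, ?_⟩
      intro u hu v hv
      simp only [List.getLast?_append, List.getLast?_singleton, Option.mem_def,
        List.head?_cons] at hu hv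
      simp at hu hv
      subst hu; subst hv
      exact hyz
    · rw [List.head?_append, h2]; rfl
    · rw [List.length_append, h3, stp_succ hC hy hay hyz]; rfl
    · intro x hx
      rw [List.mem_append] at hx
      rcases hx with hx | hx
      · obtain ⟨k1, k2, k3⟩ := h4 x hx
        exact ⟨k1, k2, k3.trans hyz.le⟩
      · simp only [List.mem_singleton] at hx
        subst hx
        exact ⟨hz, hay.trans hyz.le, le_rfl⟩

/-- Two saturated chains with the same ends and no other common element have the same number of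
elements, or both have at least five. -/
def BalLong (V : Type) [PartialOrder V] : Prop :=
  ∀ l l' : List V, l.IsChain (· ⋖ ·) → l'.IsChain (· ⋖ ·) → l.head? = l'.head? →
    l.getLast? = l'.getLast? → (∀ x ∈ l, x ∈ l' → some x = l.head? ∨ some x = l.getLast?) →
    l.length = l'.length ∨ (5 ≤ l.length ∧ 5 ≤ l'.length)

theorem balF_of [BoundedOrder V] (h : BalLong V) (R : LR V) : BalF R := by
  intro C a l r b hC F
  have hC' := flip_max F hC
  have haC' : a ∈ flipC R C a r b := Or.inl ⟨F.ha, Or.inl le_rfl⟩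
  have hbC' : b ∈ flipC R C a r b := Or.inl ⟨F.hb, Or.inr le_rfl⟩
  obtain ⟨k, h1, h2, h3, h4⟩ := list_of_max hC F.ha b F.hb F.ab.le
  obtain ⟨k', h1', h2', h3', h4'⟩ := list_of_max hC' haC' b hbC' F.ab.le
  have h5 := h (k ++ [b]) (k' ++ [b]) h1 h1' (by rw [h2, h2']) (by simp) (by
    intro x hx hx'
    obtain ⟨i1, i2, i3⟩ := h4 x hx
    obtain ⟨j1, _, _⟩ := h4' x hx'
    rcases mem_lside_or i1 i2 i3 with h6 | h6 | h6
    · left; rw [h2, h6]
    · right; simp [h6]
    · exact absurd (wr_of_mem R hC' j1) (lside_not F hC h6))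
  simp only [List.length_append, List.length_singleton, h3, h3'] at h5
  omega

end

/-- A planar lattice whose unbalanced faces have at least four covers on both sides has a colouring
as in the general theorem, without three consecutive elements of one colour. -/
theorem bal (V : Type) [Fintype V] [Nonempty V] [Lattice V] (hV : PL.UpwardPlanar V)
    (h : BalLong V) : ∃ χ : V → Bool, PL.H2 χ ∧ ∀ (u v : V) (n : ℕ), PL.Mo χ u v n → n < 2 := by
  let _ : BoundedOrder V := Fintype.toBoundedOrder V
  obtain ⟨p, γ, h1, h2, h3⟩ := hV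
  obtain ⟨D⟩ := Pool.Agent.Helper45.Stk.pf_Curve V _ p γ h1 h2 h3
  obtain ⟨χ, hχ, hχ2⟩ := col_ex (lrOf D) (balF_of h (lrOf D)) (lbd (lrOf D)) (lbd_max _)
  have a := wr_lbd (lrOf D)
  refine ⟨χ, ?_, ?_⟩
  · have key : ∀ u v m, PL.Ch χ u v m → ChW (wr (lrOf D) (lbd (lrOf D))) χ u v m := by
      intro u v m hm
      induction hm with
      | refl => exact ChW.refl (a u)
      | same v w n _ h2 h3 ih =>
        have := ChW.step v w n ih (a w) h2
        rwa [if_pos h3] at this
      | diff v w n _ h2 h3 ih =>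
        have := ChW.step v w n ih (a w) h2
        rwa [if_neg h3] at this
    intro u v p q hp hq hp1
    have := hχ2 u v p q (key u v p hp) (key u v q hq)
    unfold Good2 at this
    omega
  · intro u v n hn
    cases hn with
    | refl => omega
    | step w v n h4 h5 h6 =>
      cases h4 with
      | refl => omega
      | step w' w n h7 h8 h9 => exact absurd ⟨h9, h6⟩ (hχ _ _ _ (a _) (a _) (a _) h8 h5)

end Pool.Agent.Helper80.Lat
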