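import Pool.Agent.Helper80.Lat.Ear

set_option autoImplicit false
set_option linter.unusedSectionVars false

/-!
# The block function of a good colouring

`χ v = true` is white, `χ v = false` is black.
-/

namespace Pool.Agent.Helper80.Lat

/-- Number of colour changes along a list. -/
def chg {V : Type} (χ : V → Bool) : List V → ℕ
  | [] => 0
  | [_] => 0
  | x :: y :: l => (if χ x = χ y then 0 else 1) + chg χ (y :: l)

theorem chg_append {V : Type} (χ : V → Bool) (l : List V) (x y : V) :
    chg χ (l ++ [x] ++ [y]) = chg χ (l ++ [x]) + (if χ x = χ y then 0 else 1) := by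
  induction l with
  | nil => simp [chg]
  | cons a l ih =>
    rcases l with _ | ⟨b, l⟩
    · simp only [List.cons_append, List.nil_append, chg] at ih ⊢
      omega
    · simp only [List.cons_append, chg] at ih ⊢
      omega

/-- Colour after `n` changes. -/
def pc (c : Bool) (n : ℕ) : Bool := if n % 2 = 0 then c else !c

theorem pc_zero (c : Bool) : pc c 0 = c := by simp [pc]

theorem pc_succ (c : Bool) (n : ℕ) : pc c (n + 1) = !(pc c n) := by
  unfold pc
  rcases Nat.mod_two_eq_zero_or_one n with h | h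
  · have : (n + 1) % 2 = 1 := by omega
    simp [h, this]
  · have : (n + 1) % 2 = 0 := by omega
    simp [h, this]

section

variable {V : Type} [Fintype V] [PartialOrder V]

open Classical in
/-- Number of colour changes of the chain `C` between `a` and `v`. -/
noncomputable def cnt (χ : V → Bool) (C : Set V) (a v : V) : ℕ :=
  (Finset.univ.filter (fun x => x ∈ C ∧ a ≤ x ∧ x < v ∧ ∃ x' ∈ C, x ⋖ x' ∧ χ x ≠ χ x')).card

variable {χ : V → Bool} {C : Set V}

theorem cnt_self (a : V) : cnt χ C a a = 0 := by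
  classical
  unfold cnt
  rw [Finset.card_eq_zero, Finset.filter_eq_empty_iff]
  rintro x _ ⟨_, h1, h2, _⟩
  exact absurd h2 (not_lt_of_ge h1)

theorem cnt_mono {a x y : V} (h : x ≤ y) : cnt χ C a x ≤ cnt χ C a y := by
  classical
  unfold cnt
  apply Finset.card_le_card
  intro z hz
  simp only [Finset.mem_filter, Finset.mem_univ, true_and] at hz ⊢
  exact ⟨hz.1, hz.2.1, hz.2.2.1.trans_le h, hz.2.2.2⟩

theorem cnt_succ (hC : IsMaxChain (· ≤ ·) C) {a x y : V} (hx : x ∈ C) (hy : y ∈ C)
    (hax : a ≤ x) (hxy : x ⋖ y) :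
    cnt χ C a y = cnt χ C a x + (if χ x = χ y then 0 else 1) := by
  classical
  have huniq : ∀ x' ∈ C, x ⋖ x' → x' = y := by
    intro x' hx' h
    by_contra hne
    rcases chain_total hC hx' hy with h1 | h1
    · exact cov_inc h hxy hne h1
    · exact cov_inc hxy h (Ne.symm hne) h1
  have hlt : ∀ z ∈ C, z < y ↔ z < x ∨ z = x := by
    intro z hz
    constructor
    · intro h
      rcases chain_total hC hz hx with h1 | h1
      · rcases eq_or_lt_of_le h1 with h2 | h2
        · exact Or.inr h2
        · exact Or.inl h2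
      · rcases eq_or_lt_of_le h1 with h2 | h2
        · exact Or.inr h2.symm
        · exact absurd h (hxy.2 h2)
    · rintro (h | h)
      · exact h.trans hxy.lt
      · exact h ▸ hxy.lt
  unfold cnt
  by_cases hc : χ x = χ y
  · rw [if_pos hc, Nat.add_zero]
    congr 1
    ext z
    simp only [Finset.mem_filter, Finset.mem_univ, true_and]
    constructor
    · rintro ⟨h1, h2, h3, h4⟩
      rcases (hlt z h1).mp h3 with h5 | h5
      · exact ⟨h1, h2, h5, h4⟩
      · subst h5
        obtain ⟨x', hx', h6, h7⟩ := h4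
        rw [huniq x' hx' h6] at h7
        exact absurd hc h7
    · rintro ⟨h1, h2, h3, h4⟩
      exact ⟨h1, h2, h3.trans hxy.lt, h4⟩
  · rw [if_neg hc]
    have : (Finset.univ.filter (fun z => z ∈ C ∧ a ≤ z ∧ z < y ∧ ∃ x' ∈ C, z ⋖ x' ∧ χ z ≠ χ x')) =
        insert x (Finset.univ.filter
          (fun z => z ∈ C ∧ a ≤ z ∧ z < x ∧ ∃ x' ∈ C, z ⋖ x' ∧ χ z ≠ χ x')) := by
      ext z
      simp only [Finset.mem_filter, Finset.mem_univ, true_and, Finset.mem_insert]
      constructor
      · rintro ⟨h1, h2, h3, h4⟩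
        rcases (hlt z h1).mp h3 with h5 | h5
        · exact Or.inr ⟨h1, h2, h5, h4⟩
        · exact Or.inl h5
      · rintro (h | ⟨h1, h2, h3, h4⟩)
        · subst h; exact ⟨hx, hax, hxy.lt, y, hy, hxy, hc⟩
        · exact ⟨h1, h2, h3.trans hxy.lt, h4⟩
    rw [this, Finset.card_insert_of_notMem]
    simp

theorem cnt_col (hC : IsMaxChain (· ≤ ·) C) {a : V} (ha : a ∈ C) :
    ∀ c ∈ C, a ≤ c → χ c = pc (χ a) (cnt χ C a c) := by
  apply chain_induct hC ha
  · rw [cnt_self, pc_zero]
  · intro y hy z hz hay hyz ih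
    rw [cnt_succ hC hy hz hay hyz]
    by_cases h : χ y = χ z
    · rw [if_pos h, Nat.add_zero, ← ih, h]
    · rw [if_neg h, pc_succ, ← ih]
      revert h
      cases χ y <;> cases χ z <;> simp

theorem cnt_ivt (hC : IsMaxChain (· ≤ ·) C) {a : V} (ha : a ∈ C) :
    ∀ b ∈ C, a ≤ b → ∀ m ≤ cnt χ C a b, ∃ c ∈ C, a ≤ c ∧ c ≤ b ∧ cnt χ C a c = m := by
  apply chain_induct hC ha
  · intro m hm
    rw [cnt_self] at hm
    exact ⟨a, ha, le_rfl, le_rfl, by rw [cnt_self]; omega⟩
  · intro y hy z hz hay hyz ih m hm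
    rcases Nat.lt_or_ge (cnt χ C a y) m with h | h
    · refine ⟨z, hz, hay.trans hyz.le, le_rfl, ?_⟩
      have := cnt_succ (χ := χ) hC hy hz hay hyz
      split_ifs at this <;> omega
    · obtain ⟨c, hc, h1, h2, h3⟩ := ih m h
      exact ⟨c, hc, h1, h2.trans hyz.le, h3⟩

theorem list_of_chain (hC : IsMaxChain (· ≤ ·) C) {a : V} (ha : a ∈ C) :
    ∀ b ∈ C, a ≤ b → ∃ l : List V, (l ++ [b]).IsChain (· ⋖ ·) ∧ (l ++ [b]).head? = some a ∧
      chg χ (l ++ [b]) = cnt χ C a b := by
  apply chain_induct hC ha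
  · exact ⟨[], by simp, by simp, by simp [chg, cnt_self]⟩
  · intro y hy z hz hay hyz ⟨l, h1, h2, h3⟩
    refine ⟨l ++ [y], ?_, ?_, ?_⟩
    · rw [List.isChain_append]
      refine ⟨h1, by simp, ?_⟩
      intro u hu v hv
      simp only [List.getLast?_append, List.getLast?_singleton, Option.mem_def,
        List.head?_cons] at hu hv
      simp at hu hv
      subst hu; subst hv
      exact hyz
    · rw [List.head?_append, h2]; rfl
    · rw [chg_append, h3, cnt_succ hC hy hz hay hyz]

/-- The condition (H2) for a pair of saturated chains with the same ends. -/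
def Good2 (p q : ℕ) : Prop := (p = 0 ∧ q = 0) ∨ (p = 1 ∧ q = 1) ∨ (2 ≤ p ∧ 2 ≤ q)

/-- A good colouring. -/
def H2 (χ : V → Bool) : Prop := ∀ l l' : List V, l.IsChain (· ⋖ ·) → l'.IsChain (· ⋖ ·) →
  l.head? = l'.head? → l.getLast? = l'.getLast? → Good2 (chg χ l) (chg χ l')

theorem H2.cnt (h : H2 χ) {C' : Set V} (hC : IsMaxChain (· ≤ ·) C) (hC' : IsMaxChain (· ≤ ·) C')
    {a b : V} (ha : a ∈ C) (hb : b ∈ C) (ha' : a ∈ C') (hb' : b ∈ C') (hab : a ≤ b) :
    Good2 (cnt χ C a b) (Lat.cnt χ C' a b) := by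
  obtain ⟨l, h1, h2, h3⟩ := list_of_chain (χ := χ) hC ha b hb hab
  obtain ⟨l', h1', h2', h3'⟩ := list_of_chain (χ := χ) hC' ha' b hb' hab
  have := h _ _ h1 h1' (by rw [h2, h2']) (by simp)
  rw [h3, h3'] at this
  exact this

/-- The induction invariant. -/
structure Inv (R : LR V) (χ : V → Bool) (C : Set V) (β : V → ℝ) : Prop where
  b0 : ∀ x y, wr R C x → wr R C y → x ⋖ y → χ x = χ y → β x = β y
  b2 : ∀ x y, wr R C x → wr R C y → x ⋖ y → χ x ≠ χ y → β x < β y
  b6 : ∀ x y, wr R C x → wr R C y → β x = β y → χ x = χ y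
  b5 : ∀ x y x' y', wr R C x → wr R C y → wr R C x' → wr R C y' → x ⋖ y → x' ⋖ y' →
    χ x ≠ χ y → χ x' ≠ χ y' → χ x = χ x' → ¬ (β x < β x' ∧ β x' < β y ∧ β y < β y')
  b3 : ∀ p ∈ C, ∀ p' ∈ C, p ⋖ p' → χ p = false → χ p' = true → ∀ v, wr R C v →
    ¬ (β p < β v ∧ β v < β p')
  b4 : ∀ p ∈ C, ∀ x y, wr R C x → wr R C y → x ⋖ y → χ x = true → χ y = false →
    ¬ (β x < β p ∧ β p < β y)
  oW : ∀ x y x' y', wr R C x → wr R C y → wr R C x' → wr R C y' → x ⋖ y → x' ⋖ y' →
    χ x = true → χ y = false → χ x' = true → χ y' = false → β x = β x' → R.L x x' → β y' ≤ β y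
  iB : ∀ x y x' y', wr R C x → wr R C y → wr R C x' → wr R C y' → x ⋖ y → x' ⋖ y' →
    χ x = true → χ y = false → χ x' = true → χ y' = false → β y = β y' → R.L y' y → β x' ≤ β x
  oB : ∀ x y x' y', wr R C x → wr R C y → wr R C x' → wr R C y' → x ⋖ y → x' ⋖ y' →
    χ x = false → χ y = true → χ x' = false → χ y' = true → β x = β x' → R.L x' x → β y' ≤ β y
  iW : ∀ x y x' y', wr R C x → wr R C y → wr R C x' → wr R C y' → x ⋖ y → x' ⋖ y' →
    χ x = false → χ y = true → χ x' = false → χ y' = true → β y = β y' → R.L y y' → β x' ≤ β x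

variable {R : LR V} {β : V → ℝ}

theorem Inv.mono (I : Inv R χ C β) (hC : IsMaxChain (· ≤ ·) C) {x : V} (hx : x ∈ C) :
    ∀ y ∈ C, x ≤ y → β x ≤ β y := by
  apply chain_induct hC hx
  · exact le_rfl
  · intro y hy z hz _ hyz ih
    by_cases h : χ y = χ z
    · rw [← I.b0 y z (wr_of_mem R hC hy) (wr_of_mem R hC hz) hyz h]; exact ih
    · exact ih.trans (I.b2 y z (wr_of_mem R hC hy) (wr_of_mem R hC hz) hyz h).le

theorem Inv.const (I : Inv R χ C β) (hC : IsMaxChain (· ≤ ·) C) {x : V} (hx : x ∈ C) :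
    ∀ y ∈ C, x ≤ y → (∀ z ∈ C, x ≤ z → z ≤ y → χ z = χ x) → β x = β y := by
  apply chain_induct hC hx
  · intro _; rfl
  · intro y hy z hz hxy hyz ih h
    rw [ih (fun u hu h1 h2 => h u hu h1 (h2.trans hyz.le))]
    apply I.b0 y z (wr_of_mem R hC hy) (wr_of_mem R hC hz) hyz
    rw [h y hy hxy hyz.le, h z hz (hxy.trans hyz.le) le_rfl]

/-- First change from black to white. -/
theorem gap_first (hC : IsMaxChain (· ≤ ·) C) {c d : V} (hc : c ∈ C) (hd : d ∈ C) (hcd : c ≤ d)
    (h1 : χ c = false) (h2 : χ d = true) : ∃ p ∈ C, ∃ p' ∈ C, c ≤ p ∧ p ⋖ p' ∧ p' ≤ d ∧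
      χ p = false ∧ χ p' = true ∧ (∀ z ∈ C, c ≤ z → z ≤ p → χ z = false) ∧
      (∀ z ∈ C, c ≤ z → χ z = true → p' ≤ z) := by
  obtain ⟨p', hp', h3, h4⟩ := min_ex hC (fun z => c ≤ z ∧ χ z = true) ⟨d, hd, hcd, h2⟩
  have h5 : c < p' := lt_of_le_of_ne h3.1 (fun e => by rw [e, h3.2] at h1; simp at h1)
  obtain ⟨p, hp, h6, h7⟩ := pred_ex hC hp' hc h5
  have h8 : ∀ z ∈ C, c ≤ z → z ≤ p → χ z = false := by
    intro z hz h9 h10
    by_contra h11
    exact absurd (h6.lt.trans_le (h4 z hz ⟨h9, by simpa using h11⟩)) (not_lt_of_ge h10)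
  refine ⟨p, hp, p', hp', h7 c hc h5, h6, h4 d hd ⟨hcd, h2⟩, h8 p hp (h7 c hc h5) le_rfl, h3.2,
    h8, fun z hz h9 h10 => h4 z hz ⟨h9, h10⟩⟩

/-- Last change from black to white. -/
theorem gap_last (hC : IsMaxChain (· ≤ ·) C) {c d : V} (hc : c ∈ C) (hd : d ∈ C) (hcd : c ≤ d)
    (h1 : χ c = false) (h2 : χ d = true) : ∃ p ∈ C, ∃ p' ∈ C, c ≤ p ∧ p ⋖ p' ∧ p' ≤ d ∧
      χ p = false ∧ χ p' = true ∧ (∀ z ∈ C, p' ≤ z → z ≤ d → χ z = true) ∧
      (∀ z ∈ C, z ≤ d → χ z = false → z ≤ p) := by
  obtain ⟨p, hp, h3, h4⟩ := max_ex hC (fun z => z ≤ d ∧ χ z = false) ⟨c, hc, hcd, h1⟩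
  have h5 : p < d := lt_of_le_of_ne h3.1 (fun e => by rw [← e, h3.2] at h2; simp at h2)
  obtain ⟨p', hp', h6, h7⟩ := succ_ex hC hp hd h5
  have h8 : ∀ z ∈ C, p' ≤ z → z ≤ d → χ z = true := by
    intro z hz h9 h10
    by_contra h11
    exact absurd (h6.lt.trans_le h9) (not_lt_of_ge (h4 z hz ⟨h10, by simpa using h11⟩))
  refine ⟨p, hp, p', hp', h4 c hc ⟨hcd, h1⟩, h6, h7 d hd h5, h3.2, h8 p' hp' le_rfl (h7 d hd h5),
    h8, fun z hz h9 h10 => h4 z hz ⟨h9, h10⟩⟩

/-- The new values on the left side of a face. -/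
structure Vals (R : LR V) (χ : V → Bool) (C : Set V) (β : V → ℝ) (a b : V) (N : ℕ)
    (w : ℕ → ℝ) : Prop where
  w0 : w 0 = β a
  wN : w N = β b
  step : ∀ n < N, w n < w (n + 1)
  gap : ∀ n, 0 < n → n < N → ∃ p ∈ C, ∃ p' ∈ C, p ⋖ p' ∧ χ p = false ∧ χ p' = true ∧
    β p < w n ∧ w n < β p'
  free : ∀ n < N, pc (χ a) n = false → ∀ v, wr R C v → ¬ (w n < β v ∧ β v < w (n + 1))

theorem vals_ex (I : Inv R χ C β) (hC : IsMaxChain (· ≤ ·) C) {a b : V} (ha : a ∈ C)
    (hb : b ∈ C) (hab : a ≤ b) (N : ℕ) (hN : Good2 N (cnt χ C a b)) (hcol : χ b = pc (χ a) N) :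
    ∃ w, Vals R χ C β a b N w := by
  rcases hN with ⟨h0, h0'⟩ | ⟨h1, h1'⟩ | ⟨h2, h2'⟩
  · -- no change
    subst h0
    refine ⟨fun _ => β a, rfl, ?_, by omega, by omega, by omega⟩
    apply I.const hC ha b hb hab
    intro z hz h3 h4
    rw [cnt_col (χ := χ) hC ha z hz h3]
    have := cnt_mono (χ := χ) (C := C) (a := a) h4
    rw [show cnt χ C a z = 0 by omega, pc_zero]
  · -- one change
    subst h1
    have hcol' : χ b = !(χ a) := by rw [hcol, show (1 : ℕ) = 0 + 1 from rfl, pc_succ, pc_zero]
    obtain ⟨p', hp', h3, h4⟩ := min_ex hC (fun z => a ≤ z ∧ χ z ≠ χ a)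
      ⟨b, hb, hab, by rw [hcol']; simp⟩
    have h5 : a < p' := lt_of_le_of_ne h3.1 (fun e => h3.2 (by rw [e]))
    obtain ⟨p, hp, h6, h7⟩ := pred_ex hC hp' ha h5
    have h8 : ∀ z ∈ C, a ≤ z → z ≤ p → χ z = χ a := by
      intro z hz h9 h10
      by_contra h11
      exact absurd (h6.lt.trans_le (h4 z hz ⟨h9, h11⟩)) (not_lt_of_ge h10)
    have hap := h7 a ha h5
    have hpb := h4 b hb ⟨hab, by rw [hcol']; simp⟩
    have e1 : β a = β p := I.const hC ha p hp hap h8
    have hcp : 1 ≤ cnt χ C a p' := by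
      by_contra h9
      have h10 := cnt_col (χ := χ) hC ha p' hp' h3.1
      rw [show cnt χ C a p' = 0 by omega, pc_zero] at h10
      exact h3.2 h10
    have e2 : β p' = β b := by
      apply I.const hC hp' b hb hpb
      intro z hz h9 h10
      have h11 := cnt_mono (χ := χ) (C := C) (a := a) h9
      have h12 := cnt_mono (χ := χ) (C := C) (a := a) h10
      have h13 := cnt_mono (χ := χ) (C := C) (a := a) hpb
      rw [cnt_col (χ := χ) hC ha z hz (h3.1.trans h9), cnt_col (χ := χ) hC ha p' hp' h3.1]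
      congr 1; omega
    have hne : χ p ≠ χ p' := by rw [h8 p hp hap le_rfl]; exact h3.2.symm
    have e3 : β p < β p' := I.b2 p p' (wr_of_mem R hC hp) (wr_of_mem R hC hp') h6 hne
    refine ⟨fun n => if n = 0 then β a else β b, by simp, by simp, ?_, by omega, ?_⟩
    · intro n hn
      have : n = 0 := by omega
      subst this
      simp only [if_true, Nat.zero_add, one_ne_zero, if_false]
      rw [e1, ← e2]; exact e3
    · intro n hn h9 v hv
      have : n = 0 := by omega
      subst this
      simp only [if_true, Nat.zero_add, one_ne_zero, if_false]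
      rw [pc_zero] at h9
      rw [e1, ← e2]
      apply I.b3 p hp p' hp' h6 _ _ v hv
      · rw [h8 p hp hap le_rfl, h9]
      · have := h3.2
        rw [h9] at this
        simpa using this
  · -- at least two changes on both sides
    obtain ⟨c1, hc1, a1, b1, k1⟩ := cnt_ivt (χ := χ) hC ha b hb hab 1 (by omega)
    obtain ⟨c2, hc2, a2, b2, k2⟩ := cnt_ivt (χ := χ) hC ha b hb hab 2 (by omega)
    have hc12 : c1 ≤ c2 := by
      rcases chain_total hC hc1 hc2 with h | h
      · exact h
      · have := cnt_mono (χ := χ) (C := C) (a := a) h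
        omega
    have col1 : χ c1 = !(χ a) := by
      rw [cnt_col (χ := χ) hC ha c1 hc1 a1, k1, show (1 : ℕ) = 0 + 1 from rfl, pc_succ, pc_zero]
    have col2 : χ c2 = χ a := by
      rw [cnt_col (χ := χ) hC ha c2 hc2 a2, k2, show (2 : ℕ) = 0 + 1 + 1 from rfl, pc_succ, pc_succ,
        pc_zero]
      simp
    have hNpos : (0 : ℝ) < N := by exact_mod_cast (by omega : 0 < N)
    have frac : ∀ n : ℕ, n < N → (n : ℝ) / N < 1 := by
      intro n hn
      rw [div_lt_one hNpos]; exact_mod_cast hn
    have frac0 : ∀ n : ℕ, 0 < n → (0 : ℝ) < (n : ℝ) / N := by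
      intro n hn
      apply div_pos _ hNpos
      exact_mod_cast hn
    have fracN : ((N : ℝ)) / N = 1 := div_self hNpos.ne'
    have fstep : ∀ n : ℕ, (n : ℝ) / N < ((n + 1 : ℕ) : ℝ) / N := by
      intro n
      apply div_lt_div_of_pos_right _ hNpos
      push_cast; linarith
    rcases hca : χ a with _ | _ <;> rcases hcb : χ b with _ | _
    · -- black, black
      rw [hca] at col1
      obtain ⟨p, hp, p', hp', g1, g2, g3, g4, g5, g6, g7⟩ := gap_first hC ha hc1 a1 hca
        (by rw [col1]; rfl)
      have e1 : β a = β p := I.const hC ha p hp g1 (fun z hz h3 h4 => by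
        rw [g6 z hz h3 h4, hca])
      have e2 : β p < β p' := I.b2 p p' (wr_of_mem R hC hp) (wr_of_mem R hC hp') g2
        (by rw [g4, g5]; simp)
      have e3 : β p' ≤ β b := I.mono hC hp' b hb (g3.trans b1)
      have hd : 0 < β p' - β a := by rw [e1]; linarith
      refine ⟨fun n => if n = N then β b else β a + (β p' - β a) * ((n : ℝ) / N), ?_, by simp,
        ?_, ?_, ?_⟩
      · simp [show (0 : ℕ) ≠ N by omega]
      · intro n hn
        have h3 : n ≠ N := by omega
        simp only [h3, if_false]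
        have h4 : (β p' - β a) * ((n : ℝ) / N) < (β p' - β a) * 1 :=
          mul_lt_mul_of_pos_left (frac n hn) hd
        split_ifs with h5
        · linarith
        · have := mul_lt_mul_of_pos_left (fstep n) hd
          linarith
      · intro n hn0 hn
        refine ⟨p, hp, p', hp', g2, g4, g5, ?_⟩
        have h3 : n ≠ N := by omega
        simp only [h3, if_false]
        have h4 : (β p' - β a) * ((n : ℝ) / N) < (β p' - β a) * 1 :=
          mul_lt_mul_of_pos_left (frac n hn) hd
        have h5 : 0 < (β p' - β a) * ((n : ℝ) / N) := mul_pos hd (frac0 n hn0)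
        constructor <;> linarith
      · intro n hn hpc v hv
        have h3 : n ≠ N := by omega
        have h4 : n + 1 ≠ N := by
          intro h5
          rw [← h5, pc_succ, hpc, hcb] at hcol
          simp at hcol
        simp only [h3, h4, if_false]
        rintro ⟨h5, h6⟩
        refine I.b3 p hp p' hp' g2 g4 g5 v hv ⟨?_, ?_⟩
        · have h7 : 0 ≤ (β p' - β a) * ((n : ℝ) / N) :=
            mul_nonneg hd.le (div_nonneg (Nat.cast_nonneg n) hNpos.le)
          linarith
        · have h7 : (β p' - β a) * (((n + 1 : ℕ) : ℝ) / N) < (β p' - β a) * 1 :=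
            mul_lt_mul_of_pos_left (frac (n + 1) (by omega)) hd
          linarith
    · -- black, white
      rw [hca] at col1 col2
      have hN3 : 3 ≤ N := by
        rcases Nat.lt_or_ge 2 N with h | h
        · exact h
        · have : N = 2 := by omega
          rw [this, show (2 : ℕ) = 0 + 1 + 1 from rfl, pc_succ, pc_succ, pc_zero, hca, hcb] at hcol
          simp at hcol
      obtain ⟨p, hp, p', hp', g1, g2, g3, g4, g5, g6, g7⟩ := gap_first hC ha hc1 a1 hca
        (by rw [col1]; rfl)
      obtain ⟨q, hq, q', hq', k1, k2, k3, k4, k5, k6, k7⟩ := gap_last hC hc2 hb b2 col2 hcb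
      have e1 : β a = β p := I.const hC ha p hp g1 (fun z hz h3 h4 => by
        rw [g6 z hz h3 h4, hca])
      have e2 : β p < β p' := I.b2 p p' (wr_of_mem R hC hp) (wr_of_mem R hC hp') g2
        (by rw [g4, g5]; simp)
      have e3 : β p' ≤ β q := I.mono hC hp' q hq ((g3.trans hc12).trans k1)
      have e4 : β q < β q' := I.b2 q q' (wr_of_mem R hC hq) (wr_of_mem R hC hq') k2
        (by rw [k4, k5]; simp)
      have e5 : β q' = β b := I.const hC hq' b hb k3 (fun z hz h3 h4 => by
        rw [k6 z hz h3 h4, k5])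
      have hd : 0 < β b - β q := by rw [← e5]; linarith
      refine ⟨fun n => if n = 0 then β a else if n = 1 then (β a + β p') / 2 else
        β q + (β b - β q) * ((n : ℝ) / N), by simp, ?_, ?_, ?_, ?_⟩
      · simp only [show N ≠ 0 by omega, show N ≠ 1 by omega, if_false]
        rw [fracN]; ring
      · intro n hn
        rcases Nat.lt_or_ge n 2 with h3 | h3
        · interval_cases n
          · simp only [if_true, Nat.zero_add, one_ne_zero, if_false]
            linarith
          · simp only [show ¬ (1 + 1 = 0) by omega, show ¬ (1 + 1 = 1) by omega,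
              one_ne_zero, if_true, if_false]
            have h5 : 0 < (β b - β q) * (((1 + 1 : ℕ) : ℝ) / N) := mul_pos hd (frac0 _ (by omega))
            linarith
        · simp only [show n ≠ 0 by omega, show n ≠ 1 by omega, show n + 1 ≠ 0 by omega,
            show n + 1 ≠ 1 by omega, if_false]
          have := mul_lt_mul_of_pos_left (fstep n) hd
          linarith
      · intro n hn0 hn
        by_cases h3 : n = 1
        · subst h3
          refine ⟨p, hp, p', hp', g2, g4, g5, ?_⟩
          simp only [one_ne_zero, if_true, if_false]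
          constructor <;> linarith
        · refine ⟨q, hq, q', hq', k2, k4, k5, ?_⟩
          simp only [show n ≠ 0 by omega, h3, if_false]
          have h4 : (β b - β q) * ((n : ℝ) / N) < (β b - β q) * 1 :=
            mul_lt_mul_of_pos_left (frac n hn) hd
          have h5 : 0 < (β b - β q) * ((n : ℝ) / N) := mul_pos hd (frac0 n hn0)
          constructor <;> linarith
      · intro n hn hpc v hv
        by_cases h3 : n = 0
        · subst h3
          simp only [if_true, Nat.zero_add, one_ne_zero, if_false]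
          rintro ⟨h5, h6⟩
          exact I.b3 p hp p' hp' g2 g4 g5 v hv ⟨by linarith, by linarith⟩
        · have h4 : n ≠ 1 := by
            intro h4
            rw [h4, show (1 : ℕ) = 0 + 1 from rfl, pc_succ, pc_zero, hca] at hpc
            simp at hpc
          simp only [h3, h4, show n + 1 ≠ 0 by omega, show n + 1 ≠ 1 by omega, if_false]
          rintro ⟨h5, h6⟩
          refine I.b3 q hq q' hq' k2 k4 k5 v hv ⟨?_, ?_⟩
          · have h5 : 0 < (β b - β q) * ((n : ℝ) / N) := mul_pos hd (frac0 n (by omega))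
            linarith
          · have h7 : (β b - β q) * (((n + 1 : ℕ) : ℝ) / N) ≤ (β b - β q) * 1 := by
              apply mul_le_mul_of_nonneg_left _ hd.le
              rw [div_le_one hNpos]; exact_mod_cast (by omega : n + 1 ≤ N)
            linarith
    · -- white, black
      rw [hca] at col1 col2
      obtain ⟨p, hp, p', hp', g1, g2, g3, g4, g5, g6, g7⟩ := gap_first hC hc1 hc2 hc12
        (by rw [col1]; rfl) col2
      have e1 : β a ≤ β p := I.mono hC ha p hp (a1.trans g1)
      have e2 : β p < β p' := I.b2 p p' (wr_of_mem R hC hp) (wr_of_mem R hC hp') g2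
        (by rw [g4, g5]; simp)
      have e3 : β p' ≤ β b := I.mono hC hp' b hb (g3.trans b2)
      have hd : 0 < β p' - β p := by linarith
      refine ⟨fun n => if n = 0 then β a else if n = N then β b else
        β p + (β p' - β p) * ((n : ℝ) / N), by simp, ?_, ?_, ?_, ?_⟩
      · simp [show N ≠ 0 by omega]
      · intro n hn
        have h3 : n ≠ N := by omega
        have h4 : (β p' - β p) * ((n : ℝ) / N) < (β p' - β p) * 1 :=
          mul_lt_mul_of_pos_left (frac n hn) hd
        by_cases h5 : n = 0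
        · subst h5
          simp only [if_true, Nat.zero_add, one_ne_zero, if_false,
            show (1 : ℕ) ≠ N by omega]
          have := mul_pos hd (frac0 1 (by omega))
          push_cast at this ⊢
          linarith
        · simp only [h3, h5, show n + 1 ≠ 0 by omega, if_false]
          split_ifs with h6
          · linarith
          · have := mul_lt_mul_of_pos_left (fstep n) hd
            linarith
      · intro n hn0 hn
        refine ⟨p, hp, p', hp', g2, g4, g5, ?_⟩
        simp only [show n ≠ N by omega, show n ≠ 0 by omega, if_false]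
        have h4 : (β p' - β p) * ((n : ℝ) / N) < (β p' - β p) * 1 :=
          mul_lt_mul_of_pos_left (frac n hn) hd
        have h5 : 0 < (β p' - β p) * ((n : ℝ) / N) := mul_pos hd (frac0 n hn0)
        constructor <;> linarith
      · intro n hn hpc v hv
        have h3 : n ≠ N := by omega
        have h4 : n + 1 ≠ N := by
          intro h5
          rw [← h5, pc_succ, hpc, hcb] at hcol
          simp at hcol
        have h5 : n ≠ 0 := by
          intro h5
          rw [h5, pc_zero, hca] at hpc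
          simp at hpc
        simp only [h3, h4, h5, show n + 1 ≠ 0 by omega, if_false]
        rintro ⟨h6, h7⟩
        refine I.b3 p hp p' hp' g2 g4 g5 v hv ⟨?_, ?_⟩
        · have : 0 < (β p' - β p) * ((n : ℝ) / N) := mul_pos hd (frac0 n (by omega))
          linarith
        · have : (β p' - β p) * (((n + 1 : ℕ) : ℝ) / N) < (β p' - β p) * 1 :=
            mul_lt_mul_of_pos_left (frac (n + 1) (by omega)) hd
          linarith
    · -- white, white
      rw [hca] at col1
      obtain ⟨q, hq, q', hq', k1, k2, k3, k4, k5, k6, k7⟩ := gap_last hC hc1 hb b1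
        (by rw [col1]; rfl) hcb
      have e3 : β a ≤ β q := I.mono hC ha q hq (a1.trans k1)
      have e4 : β q < β q' := I.b2 q q' (wr_of_mem R hC hq) (wr_of_mem R hC hq') k2
        (by rw [k4, k5]; simp)
      have e5 : β q' = β b := I.const hC hq' b hb k3 (fun z hz h3 h4 => by
        rw [k6 z hz h3 h4, k5])
      have hd : 0 < β b - β q := by rw [← e5]; linarith
      refine ⟨fun n => if n = 0 then β a else β q + (β b - β q) * ((n : ℝ) / N), by simp,
        ?_, ?_, ?_, ?_⟩
      · simp only [show N ≠ 0 by omega, if_false]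
        rw [fracN]; ring
      · intro n hn
        by_cases h3 : n = 0
        · subst h3
          simp only [if_true, Nat.zero_add, one_ne_zero, if_false]
          have := mul_pos hd (frac0 1 (by omega))
          linarith
        · simp only [h3, show n + 1 ≠ 0 by omega, if_false]
          have := mul_lt_mul_of_pos_left (fstep n) hd
          linarith
      · intro n hn0 hn
        refine ⟨q, hq, q', hq', k2, k4, k5, ?_⟩
        simp only [show n ≠ 0 by omega, if_false]
        have h4 : (β b - β q) * ((n : ℝ) / N) < (β b - β q) * 1 :=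
          mul_lt_mul_of_pos_left (frac n hn) hd
        have h5 : 0 < (β b - β q) * ((n : ℝ) / N) := mul_pos hd (frac0 n hn0)
        constructor <;> linarith
      · intro n hn hpc v hv
        have h5 : n ≠ 0 := by
          intro h5
          rw [h5, pc_zero, hca] at hpc
          simp at hpc
        simp only [h5, show n + 1 ≠ 0 by omega, if_false]
        rintro ⟨h6, h7⟩
        refine I.b3 q hq q' hq' k2 k4 k5 v hv ⟨?_, ?_⟩
        · have : 0 < (β b - β q) * ((n : ℝ) / N) := mul_pos hd (frac0 n (by omega))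
          linarith
        · have : (β b - β q) * (((n + 1 : ℕ) : ℝ) / N) ≤ (β b - β q) * 1 := by
            apply mul_le_mul_of_nonneg_left _ hd.le
            rw [div_le_one hNpos]; exact_mod_cast (by omega : n + 1 ≤ N)
          linarith

end

end Pool.Agent.Helper80.Lat
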