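import Pool.Agent.Helper80.Lat.Beta

set_option autoImplicit false
set_option linter.unusedSectionVars false

/-!
# The block function of a good colouring: induction step and theorem
-/

namespace Pool.Agent.Helper80.Lat

section

variable {V : Type} [Fintype V] [PartialOrder V] [BoundedOrder V]
variable {χ : V → Bool} {C : Set V} {R : LR V} {β : V → ℝ} {a l r b : V} {N : ℕ} {w : ℕ → ℝ}

theorem Vals.lt {C' : Set V} (W : Vals R χ C' β a b N w) {m n : ℕ} (h : m < n) (hn : n ≤ N) :
    w m < w n := by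
  induction n, h using Nat.le_induction with
  | base => exact W.step m (by omega)
  | succ n _ ih => exact (ih (by omega)).trans (W.step n (by omega))

theorem Vals.le {C' : Set V} (W : Vals R χ C' β a b N w) {m n : ℕ} (h : m ≤ n) (hn : n ≤ N) :
    w m ≤ w n := by
  rcases eq_or_lt_of_le h with h | h
  · rw [h]
  · exact (W.lt h hn).le

theorem Vals.lt_iff {C' : Set V} (W : Vals R χ C' β a b N w) {m n : ℕ} (hm : m ≤ N)
    (hn : n ≤ N) : w m < w n ↔ m < n := by
  constructor
  · intro h
    by_contra h1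
    exact absurd (W.le (not_lt.mp h1) hm) (not_le_of_gt h)
  · intro h; exact W.lt h hn

theorem step (F : Face R C a l r b) (hC : IsMaxChain (· ≤ ·) C)
    (I : Inv R χ (flipC R C a r b) β)
    (h2 : Good2 (cnt χ C a b) (cnt χ (flipC R C a r b) a b)) : ∃ β', Inv R χ C β' := by
  classical
  have hC' := flip_max F hC
  have haC' : a ∈ flipC R C a r b := Or.inl ⟨F.ha, Or.inl le_rfl⟩
  have hbC' : b ∈ flipC R C a r b := Or.inl ⟨F.hb, Or.inr le_rfl⟩
  have hab := F.ab
  obtain ⟨w, W⟩ := vals_ex I hC' haC' hbC' hab.le (cnt χ C a b) h2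
    (cnt_col hC F.ha b F.hb hab.le)
  have wr_new : ∀ v, wr R C v → v ∉ lside C a b → wr R (flipC R C a r b) v :=
    fun v h1 h2 => wr_old F hC h1 h2
  refine ⟨fun v => if v ∈ lside C a b then w (cnt χ C a v) else β v, ?_⟩
  set β' : V → ℝ := fun v => if v ∈ lside C a b then w (cnt χ C a v) else β v with hβ'
  have hold : ∀ v, v ∉ lside C a b → β' v = β v := fun v hv => by simp only [hβ', hv, if_false]
  have hseg : ∀ c ∈ C, a ≤ c → c ≤ b → β' c = w (cnt χ C a c) := by
    intro c hc h1 h2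
    by_cases h3 : c ∈ lside C a b
    · simp only [hβ', h3, if_true]
    · rw [hold c h3]
      rcases eq_or_lt_of_le h1 with h4 | h4
      · rw [← h4, cnt_self, W.w0]
      · rcases eq_or_lt_of_le h2 with h5 | h5
        · rw [h5, W.wN]
        · exact absurd ⟨hc, h4, h5⟩ h3
  have hcntN : ∀ c, c ≤ b → cnt χ C a c ≤ cnt χ C a b := fun c h => cnt_mono h
  -- positions in the gaps are free
  have G : ∀ n, 0 < n → n < cnt χ C a b → ∀ v, wr R (flipC R C a r b) v → β v ≠ w n := by
    intro n hn hn' v hv he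
    obtain ⟨p, hp, p', hp', g1, g2, g3, g4, g5⟩ := W.gap n hn hn'
    exact I.b3 p hp p' hp' g1 g2 g3 v hv ⟨by rw [he]; exact g4, by rw [he]; exact g5⟩
  have U : ∀ m ≤ cnt χ C a b, ∀ x y, wr R (flipC R C a r b) x → wr R (flipC R C a r b) y →
      x ⋖ y → χ x = true → χ y = false → ¬ (β x < w m ∧ w m < β y) := by
    intro m hm x y hx hy hxy hcx hcy
    rcases Nat.eq_zero_or_pos m with h0 | h0
    · rw [h0, W.w0]; exact I.b4 a haC' x y hx hy hxy hcx hcy
    rcases eq_or_lt_of_le hm with h1 | h1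
    · rw [h1, W.wN]; exact I.b4 b hbC' x y hx hy hxy hcx hcy
    rintro ⟨h3, h4⟩
    obtain ⟨p, hp, p', hp', g1, g2, g3, g4, g5⟩ := W.gap m h0 h1
    have h5 : β x ≤ β p := by
      by_contra h5
      exact I.b3 p hp p' hp' g1 g2 g3 x hx ⟨not_le.mp h5, h3.trans g5⟩
    have h7 : β p < β y := g4.trans h4
    rcases eq_or_lt_of_le h5 with h8 | h8
    · have h9 := I.b6 x p hx (wr_of_mem R hC' hp) h8
      rw [hcx, g2] at h9
      simp at h9
    · exact I.b4 p hp x y hx hy hxy hcx hcy ⟨h8, h7⟩
  -- covers touching the left side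
  have T : ∀ x y, x ⋖ y → wr R C x → wr R C y → (x ∈ lside C a b ∨ y ∈ lside C a b) →
      (x ∈ C ∧ y ∈ C ∧ a ≤ x ∧ y ≤ b) ∧ β' x = w (cnt χ C a x) ∧ β' y = w (cnt χ C a y) ∧
      cnt χ C a y = cnt χ C a x + (if χ x = χ y then 0 else 1) ∧
      χ x = pc (χ a) (cnt χ C a x) ∧ cnt χ C a y ≤ cnt χ C a b := by
    intro x y hxy hx hy h
    obtain ⟨h1, h2, h3, h4⟩ := cov_lside F hC hxy hx hy h
    exact ⟨⟨h1, h2, h3, h4⟩, hseg x h1 h3 (hxy.le.trans h4), hseg y h2 (h3.trans hxy.le) h4,
      cnt_succ hC h1 h2 h3 hxy, cnt_col hC F.ha x h1 h3, hcntN y h4⟩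
  refine ⟨?_, ?_, ?_, ?_, ?_, ?_, ?_, ?_, ?_, ?_⟩
  · -- b0
    intro x y hx hy hxy hc
    by_cases h : x ∈ lside C a b ∨ y ∈ lside C a b
    · obtain ⟨_, e1, e2, e3, _, _⟩ := T x y hxy hx hy h
      rw [e1, e2, e3, if_pos hc, Nat.add_zero]
    · push Not at h
      rw [hold x h.1, hold y h.2]
      exact I.b0 x y (wr_new x hx h.1) (wr_new y hy h.2) hxy hc
  · -- b2
    intro x y hx hy hxy hc
    by_cases h : x ∈ lside C a b ∨ y ∈ lside C a b
    · obtain ⟨_, e1, e2, e3, _, e5⟩ := T x y hxy hx hy h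
      rw [if_neg hc] at e3
      rw [e1, e2, W.lt_iff (by omega) e5]
      omega
    · push Not at h
      rw [hold x h.1, hold y h.2]
      exact I.b2 x y (wr_new x hx h.1) (wr_new y hy h.2) hxy hc
  · -- b6
    have key : ∀ x y, x ∈ lside C a b → wr R C y → y ∉ lside C a b → β' x = β' y →
        χ x = χ y := by
      intro x y hx hy hy' he
      rw [hseg x hx.1 hx.2.1.le hx.2.2.le, hold y hy'] at he
      have hcx := cnt_col (χ := χ) hC F.ha x hx.1 hx.2.1.le
      have hle := hcntN x hx.2.2.le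
      rcases Nat.eq_zero_or_pos (cnt χ C a x) with h0 | h0
      · rw [h0, W.w0] at he
        rw [hcx, h0, pc_zero]
        exact I.b6 a y (wr_of_mem R hC' haC') (wr_new y hy hy') he
      rcases eq_or_lt_of_le hle with h1 | h1
      · rw [h1, W.wN] at he
        rw [hcx, h1, ← cnt_col (χ := χ) hC F.ha b F.hb hab.le]
        exact I.b6 b y (wr_of_mem R hC' hbC') (wr_new y hy hy') he
      · exact absurd he.symm (G _ h0 h1 y (wr_new y hy hy'))
    intro x y hx hy he
    by_cases h1 : x ∈ lside C a b <;> by_cases h2 : y ∈ lside C a b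
    · rw [hseg x h1.1 h1.2.1.le h1.2.2.le, hseg y h2.1 h2.2.1.le h2.2.2.le] at he
      have e1 := hcntN x h1.2.2.le
      have e2 := hcntN y h2.2.2.le
      have h3 : cnt χ C a x = cnt χ C a y := by
        rcases lt_trichotomy (cnt χ C a x) (cnt χ C a y) with h | h | h
        · exact absurd he (W.lt h e2).ne
        · exact h
        · exact absurd he.symm (W.lt h e1).ne
      rw [cnt_col (χ := χ) hC F.ha x h1.1 h1.2.1.le, cnt_col (χ := χ) hC F.ha y h2.1 h2.2.1.le,
        h3]
    · exact key x y h1 hy h2 he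
    · exact (key y x h2 hx h1 he.symm).symm
    · rw [hold x h1, hold y h2] at he
      exact I.b6 x y (wr_new x hx h1) (wr_new y hy h2) he
  · -- b5
    intro x y x' y' hx hy hx' hy' hxy hxy' hc hc' hcc
    by_cases h : x ∈ lside C a b ∨ y ∈ lside C a b <;>
    by_cases h' : x' ∈ lside C a b ∨ y' ∈ lside C a b
    · obtain ⟨_, e1, e2, e3, _, e5⟩ := T x y hxy hx hy h
      obtain ⟨_, e1', e2', e3', _, e5'⟩ := T x' y' hxy' hx' hy' h'
      rw [if_neg hc] at e3
      rw [if_neg hc'] at e3'
      rw [e1, e2, e1', e2', W.lt_iff (by omega) (by omega), W.lt_iff (by omega) (by omega),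
        W.lt_iff (by omega) (by omega)]
      omega
    · obtain ⟨_, e1, e2, e3, e4, e5⟩ := T x y hxy hx hy h
      push Not at h'
      rw [if_neg hc] at e3
      rw [e1, e2, hold x' h'.1, hold y' h'.2]
      rintro ⟨k1, k2, k3⟩
      rcases hcx : χ x with _ | _
      · rw [hcx] at e4
        rw [e3] at k2
        exact W.free _ (by omega) e4.symm x' (wr_new x' hx' h'.1) ⟨k1, k2⟩
      · rw [hcx] at hcc hc
        refine U _ e5 x' y' (wr_new x' hx' h'.1) (wr_new y' hy' h'.2) hxy' hcc.symm ?_ ⟨k2, k3⟩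
        rw [← hcc] at hc'
        simpa using hc'.symm
    · obtain ⟨_, e1, e2, e3, e4, e5⟩ := T x' y' hxy' hx' hy' h'
      push Not at h
      rw [if_neg hc'] at e3
      rw [e1, e2, hold x h.1, hold y h.2]
      rintro ⟨k1, k2, k3⟩
      rcases hcx : χ x' with _ | _
      · rw [hcx] at e4
        rw [e3] at k3
        exact W.free _ (by omega) e4.symm y (wr_new y hy h.2) ⟨k2, k3⟩
      · rw [hcx] at hcc
        refine U _ (by omega) x y (wr_new x hx h.1) (wr_new y hy h.2) hxy hcc ?_ ⟨k1, k2⟩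
        rw [hcc] at hc
        simpa using hc.symm
    · push Not at h h'
      rw [hold x h.1, hold y h.2, hold x' h'.1, hold y' h'.2]
      exact I.b5 x y x' y' (wr_new x hx h.1) (wr_new y hy h.2) (wr_new x' hx' h'.1)
        (wr_new y' hy' h'.2) hxy hxy' hc hc' hcc
  · -- b3
    intro p hp p' hp' hpp hcp hcp' v hv
    have hpos : (a ≤ p ∧ p' ≤ b) ∨ p' ≤ a ∨ b ≤ p := by
      rcases chain_total hC F.ha hp with h1 | h1
      · rcases chain_total hC F.hb hp with h2 | h2
        · exact Or.inr (Or.inr h2)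
        · rcases eq_or_lt_of_le h2 with h3 | h3
          · exact Or.inr (Or.inr h3.ge)
          · rcases chain_total hC hp' F.hb with h4 | h4
            · exact Or.inl ⟨h1, h4⟩
            · rcases eq_or_lt_of_le h4 with h5 | h5
              · exact Or.inl ⟨h1, h5.ge⟩
              · exact absurd h5 (hpp.2 h3)
      · rcases eq_or_lt_of_le h1 with h2 | h2
        · subst h2
          left
          refine ⟨le_rfl, ?_⟩
          rcases chain_total hC hp' F.hb with h4 | h4
          · exact h4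
          · rcases eq_or_lt_of_le h4 with h5 | h5
            · exact h5.ge
            · exact absurd h5 (hpp.2 hab)
        · rcases chain_total hC hp' F.ha with h4 | h4
          · exact Or.inr (Or.inl h4)
          · rcases eq_or_lt_of_le h4 with h5 | h5
            · exact Or.inr (Or.inl h5.ge)
            · exact absurd h5 (hpp.2 h2)
    rcases hpos with ⟨h1, h2⟩ | h1 | h1
    · have e1 := hseg p hp h1 (hpp.le.trans h2)
      have e2 := hseg p' hp' (h1.trans hpp.le) h2
      have e3 := cnt_succ (χ := χ) hC hp hp' h1 hpp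
      rw [if_neg (by rw [hcp, hcp']; simp)] at e3
      have e4 := cnt_col (χ := χ) hC F.ha p hp h1
      have e5 := hcntN p' h2
      rw [e1, e2]
      by_cases h3 : v ∈ lside C a b
      · rw [hseg v h3.1 h3.2.1.le h3.2.2.le, W.lt_iff (by omega) (hcntN v h3.2.2.le),
          W.lt_iff (hcntN v h3.2.2.le) e5]
        omega
      · rw [hold v h3, e3]
        rw [hcp] at e4
        exact W.free _ (by omega) e4.symm v (wr_new v hv h3)
    · have n1 : p ∉ lside C a b := fun h => absurd h.2.1 (not_lt_of_ge (hpp.le.trans h1))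
      have n2 : p' ∉ lside C a b := fun h => absurd h.2.1 (not_lt_of_ge h1)
      have m1 : p ∈ flipC R C a r b := Or.inl ⟨hp, Or.inl (hpp.le.trans h1)⟩
      have m2 : p' ∈ flipC R C a r b := Or.inl ⟨hp', Or.inl h1⟩
      rw [hold p n1, hold p' n2]
      by_cases h3 : v ∈ lside C a b
      · rw [hseg v h3.1 h3.2.1.le h3.2.2.le]
        rintro ⟨_, k2⟩
        have k3 := I.mono hC' m2 a haC' h1
        have k4 := W.le (Nat.zero_le (cnt χ C a v)) (hcntN v h3.2.2.le)
        rw [W.w0] at k4
        linarith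
      · rw [hold v h3]
        exact I.b3 p m1 p' m2 hpp hcp hcp' v (wr_new v hv h3)
    · have n1 : p ∉ lside C a b := fun h => absurd h.2.2 (not_lt_of_ge h1)
      have n2 : p' ∉ lside C a b := fun h => absurd h.2.2 (not_lt_of_ge (h1.trans hpp.le))
      have m1 : p ∈ flipC R C a r b := Or.inl ⟨hp, Or.inr h1⟩
      have m2 : p' ∈ flipC R C a r b := Or.inl ⟨hp', Or.inr (h1.trans hpp.le)⟩
      rw [hold p n1, hold p' n2]
      by_cases h3 : v ∈ lside C a b
      · rw [hseg v h3.1 h3.2.1.le h3.2.2.le]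
        rintro ⟨k1, _⟩
        have k3 := I.mono hC' hbC' p m1 h1
        have k4 := W.le (hcntN v h3.2.2.le) le_rfl
        rw [W.wN] at k4
        linarith
      · rw [hold v h3]
        exact I.b3 p m1 p' m2 hpp hcp hcp' v (wr_new v hv h3)
  · -- b4
    intro p hp x y hx hy hxy hcx hcy
    by_cases h : x ∈ lside C a b ∨ y ∈ lside C a b
    · obtain ⟨_, e1, e2, e3, _, e5⟩ := T x y hxy hx hy h
      rw [if_neg (by rw [hcx, hcy]; simp)] at e3
      rw [e1, e2]
      rintro ⟨k1, k2⟩
      by_cases h1 : a ≤ p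
      · by_cases h2 : p ≤ b
        · rw [hseg p hp h1 h2] at k1 k2
          rw [W.lt_iff (by omega) (hcntN p h2)] at k1
          rw [W.lt_iff (hcntN p h2) e5] at k2
          omega
        · have h3 : b ≤ p := (chain_total hC hp F.hb).resolve_left h2
          have n1 : p ∉ lside C a b := fun h => absurd h.2.2 (not_lt_of_ge h3)
          have m1 : p ∈ flipC R C a r b := Or.inl ⟨hp, Or.inr h3⟩
          rw [hold p n1] at k2
          have k3 := I.mono hC' hbC' p m1 h3
          have k4 := W.le e5 le_rfl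
          rw [W.wN] at k4
          linarith
      · have h3 : p ≤ a := (chain_total hC hp F.ha).resolve_right h1
        have n1 : p ∉ lside C a b := fun h => absurd h.2.1 (not_lt_of_ge h3)
        have m1 : p ∈ flipC R C a r b := Or.inl ⟨hp, Or.inl h3⟩
        rw [hold p n1] at k1
        have k3 := I.mono hC' m1 a haC' h3
        have k4 := W.le (Nat.zero_le (cnt χ C a x)) (by omega : cnt χ C a x ≤ cnt χ C a b)
        rw [W.w0] at k4
        linarith
    · push Not at h
      rw [hold x h.1, hold y h.2]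
      by_cases h1 : p ∈ lside C a b
      · rw [hseg p h1.1 h1.2.1.le h1.2.2.le]
        exact U _ (hcntN p h1.2.2.le) x y (wr_new x hx h.1) (wr_new y hy h.2) hxy hcx hcy
      · rw [hold p h1]
        have m1 : p ∈ flipC R C a r b := by
          left
          refine ⟨hp, ?_⟩
          by_contra h2
          push Not at h2
          have h3 : a ≤ p := (chain_total hC hp F.ha).resolve_left h2.1
          have h4 : p ≤ b := (chain_total hC hp F.hb).resolve_right h2.2
          exact h1 ⟨hp, lt_of_le_of_ne h3 (fun e => h2.1 e.ge),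
            lt_of_le_of_ne h4 (fun e => h2.2 e.ge)⟩
        exact I.b4 p m1 x y (wr_new x hx h.1) (wr_new y hy h.2) hxy hcx hcy
  · -- oW
    intro x y x' y' hx hy hx' hy' hxy hxy' cx cy cx' cy' he hL
    by_cases h' : x' ∈ lside C a b ∨ y' ∈ lside C a b
    · exact absurd hL (hx x' (T x' y' hxy' hx' hy' h').1.1)
    have h'' := h'
    push Not at h'
    rw [hold x' h'.1] at he
    rw [hold y' h'.2]
    by_cases h : x ∈ lside C a b ∨ y ∈ lside C a b
    · obtain ⟨_, e1, e2, e3, e4, e5⟩ := T x y hxy hx hy h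
      rw [if_neg (by rw [cx, cy]; simp)] at e3
      rw [e2]
      by_contra h3
      refine U _ e5 x' y' (wr_new x' hx' h'.1) (wr_new y' hy' h'.2) hxy' cx' cy' ⟨?_, not_le.mp h3⟩
      rw [← he, e1, W.lt_iff (by omega) e5]
      omega
    · push Not at h
      rw [hold x h.1] at he
      rw [hold y h.2]
      exact I.oW x y x' y' (wr_new x hx h.1) (wr_new y hy h.2) (wr_new x' hx' h'.1)
        (wr_new y' hy' h'.2) hxy hxy' cx cy cx' cy' he hL
  · -- iB
    intro x y x' y' hx hy hx' hy' hxy hxy' cx cy cx' cy' he hL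
    by_cases h : x ∈ lside C a b ∨ y ∈ lside C a b
    · exact absurd hL (hy' y (T x y hxy hx hy h).1.2.1)
    have h'' := h
    push Not at h
    rw [hold y h.2] at he
    rw [hold x h.1]
    by_cases h' : x' ∈ lside C a b ∨ y' ∈ lside C a b
    · obtain ⟨_, e1, e2, e3, e4, e5⟩ := T x' y' hxy' hx' hy' h'
      rw [if_neg (by rw [cx', cy']; simp)] at e3
      rw [e1]
      by_contra h3
      refine U _ (by omega) x y (wr_new x hx h.1) (wr_new y hy h.2) hxy cx cy ⟨not_le.mp h3, ?_⟩
      rw [he, e2, W.lt_iff (by omega) e5]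
      omega
    · push Not at h'
      rw [hold y' h'.2] at he
      rw [hold x' h'.1]
      exact I.iB x y x' y' (wr_new x hx h.1) (wr_new y hy h.2) (wr_new x' hx' h'.1)
        (wr_new y' hy' h'.2) hxy hxy' cx cy cx' cy' he hL
  · -- oB
    intro x y x' y' hx hy hx' hy' hxy hxy' cx cy cx' cy' he hL
    by_cases h : x ∈ lside C a b ∨ y ∈ lside C a b
    · exact absurd hL (hx' x (T x y hxy hx hy h).1.1)
    have h'' := h
    push Not at h
    rw [hold x h.1] at he
    rw [hold y h.2]
    have hlt : β x < β y := I.b2 x y (wr_new x hx h.1) (wr_new y hy h.2) hxy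
      (by rw [cx, cy]; simp)
    by_cases h' : x' ∈ lside C a b ∨ y' ∈ lside C a b
    · obtain ⟨_, e1, e2, e3, e4, e5⟩ := T x' y' hxy' hx' hy' h'
      rw [if_neg (by rw [cx', cy']; simp)] at e3
      rw [e2]
      by_contra h3
      rw [e3] at h3
      rw [cx'] at e4
      refine W.free _ (by omega) e4.symm y (wr_new y hy h.2) ⟨?_, not_le.mp h3⟩
      rw [← e1, ← he]; exact hlt
    · push Not at h'
      rw [hold x' h'.1] at he
      rw [hold y' h'.2]
      exact I.oB x y x' y' (wr_new x hx h.1) (wr_new y hy h.2) (wr_new x' hx' h'.1)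
        (wr_new y' hy' h'.2) hxy hxy' cx cy cx' cy' he hL
  · -- iW
    intro x y x' y' hx hy hx' hy' hxy hxy' cx cy cx' cy' he hL
    by_cases h' : x' ∈ lside C a b ∨ y' ∈ lside C a b
    · exact absurd hL (hy y' (T x' y' hxy' hx' hy' h').1.2.1)
    have h'' := h'
    push Not at h'
    rw [hold y' h'.2] at he
    rw [hold x' h'.1]
    have hlt : β x' < β y' := I.b2 x' y' (wr_new x' hx' h'.1) (wr_new y' hy' h'.2) hxy'
      (by rw [cx', cy']; simp)
    by_cases h : x ∈ lside C a b ∨ y ∈ lside C a b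
    · obtain ⟨_, e1, e2, e3, e4, e5⟩ := T x y hxy hx hy h
      rw [if_neg (by rw [cx, cy]; simp)] at e3
      rw [e1]
      by_contra h3
      rw [cx] at e4
      refine W.free _ (by omega) e4.symm x' (wr_new x' hx' h'.1) ⟨not_le.mp h3, ?_⟩
      rw [← e3, ← e2, he]; exact hlt
    · push Not at h
      rw [hold y h.2] at he
      rw [hold x h.1]
      exact I.iW x y x' y' (wr_new x hx h.1) (wr_new y hy h.2) (wr_new x' hx' h'.1)
        (wr_new y' hy' h'.2) hxy hxy' cx cy cx' cy' he hL

theorem base (hC : IsMaxChain (· ≤ ·) C) (h : ∀ v, wr R C v → v ∈ C) :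
    Inv R χ C (fun v => (cnt χ C ⊥ v : ℝ)) := by
  have hb := hC.bot_mem
  have e0 : ∀ x y, wr R C x → wr R C y → x ⋖ y →
      cnt χ C ⊥ y = cnt χ C ⊥ x + (if χ x = χ y then 0 else 1) := fun x y hx hy hxy =>
    cnt_succ hC (h x hx) (h y hy) bot_le hxy
  have nL : ∀ x y, wr R C x → wr R C y → ¬ R.L x y := fun x y hx hy => hx y (h y hy)
  refine ⟨?_, ?_, ?_, ?_, ?_, ?_,
    fun x y x' y' hx _ hx' _ _ _ _ _ _ _ _ hL => absurd hL (nL x x' hx hx'),
    fun x y x' y' _ hy _ hy' _ _ _ _ _ _ _ hL => absurd hL (nL y' y hy' hy),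
    fun x y x' y' hx _ hx' _ _ _ _ _ _ _ _ hL => absurd hL (nL x' x hx' hx),
    fun x y x' y' _ hy _ hy' _ _ _ _ _ _ _ hL => absurd hL (nL y y' hy hy')⟩
  · intro x y hx hy hxy hc
    have := e0 x y hx hy hxy
    rw [if_pos hc] at this
    simp only [this, Nat.add_zero]
  · intro x y hx hy hxy hc
    have := e0 x y hx hy hxy
    rw [if_neg hc] at this
    simp only [this]
    push_cast; linarith
  · intro x y hx hy he
    have he' : cnt χ C ⊥ x = cnt χ C ⊥ y := by exact_mod_cast he
    rw [cnt_col (χ := χ) hC hb x (h x hx) bot_le, cnt_col (χ := χ) hC hb y (h y hy) bot_le, he']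
  · intro x y x' y' hx hy hx' hy' hxy hxy' hc hc' _
    have h1 := e0 x y hx hy hxy
    rw [if_neg hc] at h1
    simp only [h1, Nat.cast_lt]
    omega
  · intro p hp p' hp' hpp hcp hcp' v hv
    have h1 := e0 p p' (wr_of_mem R hC hp) (wr_of_mem R hC hp') hpp
    rw [if_neg (by rw [hcp, hcp']; simp)] at h1
    simp only [h1, Nat.cast_lt]
    omega
  · intro p hp x y hx hy hxy hcx hcy
    have h1 := e0 x y hx hy hxy
    rw [if_neg (by rw [hcx, hcy]; simp)] at h1
    simp only [h1, Nat.cast_lt]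
    omega

/-- The condition on the faces: the numbers of colour changes on the two sides. -/
def H2F (R : LR V) (χ : V → Bool) : Prop := ∀ (C : Set V) (a l r b : V),
  IsMaxChain (· ≤ ·) C → Face R C a l r b →
    Good2 (cnt χ C a b) (cnt χ (flipC R C a r b) a b)

theorem H2.face {R : LR V} {χ : V → Bool} (h : H2 χ) : H2F R χ := by
  intro C a l r b hC F
  exact h.cnt hC (flip_max F hC) F.ha F.hb (Or.inl ⟨F.ha, Or.inl le_rfl⟩)
    (Or.inl ⟨F.hb, Or.inr le_rfl⟩) F.ab.le

theorem inv_ex (R : LR V) (χ : V → Bool) (h2 : H2F R χ) : ∀ C : Set V, IsMaxChain (· ≤ ·) C →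
    ∃ β, Inv R χ C β := by
  classical
  have main : ∀ n : ℕ, ∀ C : Set V, IsMaxChain (· ≤ ·) C →
      (Finset.univ.filter (fun v => wr R C v)).card ≤ n → ∃ β, Inv R χ C β := by
    intro n
    induction n with
    | zero =>
      intro C hC hn
      rw [Nat.le_zero, Finset.card_eq_zero, Finset.filter_eq_empty_iff] at hn
      exact absurd (wr_of_mem R hC hC.bot_mem) (hn (Finset.mem_univ ⊥))
    | succ n ih =>
      intro C hC hn
      by_cases h : ∀ v, wr R C v → v ∈ C
      · exact ⟨_, base hC h⟩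
      · push Not at h
        obtain ⟨v, hv, hv'⟩ := h
        obtain ⟨a, l, r, b, F⟩ := face_ex R hC hv hv'
        have hC' := flip_max F hC
        have hlb : l < b := by
          have h3 := F.l_le hC F.hb F.ab
          rcases eq_or_lt_of_le h3 with h4 | h4
          · exact (R.ne2 F.Llr (h4 ▸ F.rb)).elim
          · exact h4
        have hl : l ∈ lside C a b := ⟨F.hl, F.al.lt, hlb⟩
        have hcard : (Finset.univ.filter (fun v => wr R (flipC R C a r b) v)).card <
            (Finset.univ.filter (fun v => wr R C v)).card := by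
          apply Finset.card_lt_card
          constructor
          · intro z hz
            simp only [Finset.mem_filter, Finset.mem_univ, true_and] at hz ⊢
            exact wr_flip F hC hz
          · intro h3
            have h4 := h3 (by simpa using wr_of_mem R hC F.hl :
              l ∈ Finset.univ.filter (fun v => wr R C v))
            simp only [Finset.mem_filter, Finset.mem_univ, true_and] at h4
            exact lside_not F hC hl h4
        obtain ⟨β, I⟩ := ih _ hC' (by omega)
        exact step F hC I (h2 C a l r b hC F)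
  intro C hC
  exact main _ C hC le_rfl

/-- The properties of the block function. -/
structure Block (R : LR V) (χ : V → Bool) (β : V → ℝ) : Prop where
  b0 : ∀ x y, x ⋖ y → χ x = χ y → β x = β y
  b2 : ∀ x y, x ⋖ y → χ x ≠ χ y → β x < β y
  b6 : ∀ x y, β x = β y → χ x = χ y
  b5 : ∀ x y x' y', x ⋖ y → x' ⋖ y' → χ x ≠ χ y → χ x' ≠ χ y' → χ x = χ x' →
    ¬ (β x < β x' ∧ β x' < β y ∧ β y < β y')
  oW : ∀ x y x' y', x ⋖ y → x' ⋖ y' → χ x = true → χ y = false → χ x' = true → χ y' = false →
    β x = β x' → R.L x x' → β y' ≤ β y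
  iB : ∀ x y x' y', x ⋖ y → x' ⋖ y' → χ x = true → χ y = false → χ x' = true → χ y' = false →
    β y = β y' → R.L y' y → β x' ≤ β x
  oB : ∀ x y x' y', x ⋖ y → x' ⋖ y' → χ x = false → χ y = true → χ x' = false → χ y' = true →
    β x = β x' → R.L x' x → β y' ≤ β y
  iW : ∀ x y x' y', x ⋖ y → x' ⋖ y' → χ x = false → χ y = true → χ x' = false → χ y' = true →
    β y = β y' → R.L y y' → β x' ≤ β x

/-- BETA with the nesting conditions. -/
theorem block_ex (R : LR V) (χ : V → Bool) (h2 : H2F R χ) : ∃ β : V → ℝ, Block R χ β := by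
  obtain ⟨β, I⟩ := inv_ex R χ h2 (lbd R) (lbd_max R)
  have a := wr_lbd R
  exact ⟨β, fun x y => I.b0 x y (a x) (a y), fun x y => I.b2 x y (a x) (a y),
    fun x y => I.b6 x y (a x) (a y),
    fun x y x' y' => I.b5 x y x' y' (a x) (a y) (a x') (a y'),
    fun x y x' y' => I.oW x y x' y' (a x) (a y) (a x') (a y'),
    fun x y x' y' => I.iB x y x' y' (a x) (a y) (a x') (a y'),
    fun x y x' y' => I.oB x y x' y' (a x) (a y) (a x') (a y'),
    fun x y x' y' => I.iW x y x' y' (a x) (a y) (a x') (a y')⟩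

/-- BETA: the block function of a good colouring. -/
theorem beta (R : LR V) (χ : V → Bool) (h2 : H2F R χ) : ∃ β : V → ℝ,
    (∀ x y, x ⋖ y → χ x = χ y → β x = β y) ∧
    (∀ x y, x ⋖ y → χ x ≠ χ y → β x < β y) ∧
    (∀ x y, β x = β y → χ x = χ y) ∧
    (∀ x y x' y', x ⋖ y → x' ⋖ y' → χ x ≠ χ y → χ x' ≠ χ y' → χ x = χ x' →
      ¬ (β x < β x' ∧ β x' < β y ∧ β y < β y')) := by
  obtain ⟨β, I⟩ := inv_ex R χ h2 (lbd R) (lbd_max R)
  exact ⟨β, fun x y => I.b0 x y (wr_lbd R x) (wr_lbd R y),
    fun x y => I.b2 x y (wr_lbd R x) (wr_lbd R y),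
    fun x y => I.b6 x y (wr_lbd R x) (wr_lbd R y),
    fun x y x' y' => I.b5 x y x' y' (wr_lbd R x) (wr_lbd R y) (wr_lbd R x') (wr_lbd R y')⟩

end

end Pool.Agent.Helper80.Lat
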