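import Pool.Agent.Helper80.Stack.Defs

set_option autoImplicit false
set_option linter.unusedSectionVars false

/-!
# From a level drawing of a bounded poset to the left-of relation
-/

namespace Pool.Agent.Helper80.Lat

open Pool.Agent.Helper80.Stk

/-- A left-of relation on a poset: a transitive orientation of the incomparable pairs such that
crossing intervals meet. -/
structure LR (V : Type) [PartialOrder V] where
  L : V → V → Prop
  inc : ∀ v w, L v w → ¬ v ≤ w ∧ ¬ w ≤ v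
  tot : ∀ v w, ¬ v ≤ w → ¬ w ≤ v → L v w ∨ L w v
  trans : ∀ u v w, L u v → L v w → L u w
  cross : ∀ x y c d, x ≤ y → c ≤ d → L x c → L d y → ∃ z, x ≤ z ∧ z ≤ y ∧ c ≤ z ∧ z ≤ d

section

variable {V : Type} [Fintype V] [PartialOrder V]

theorem lev_mono (D : LevDraw V (fun a b => a ⋖ b)) {a b : V} (h : a < b) :
    D.lev a < D.lev b := by
  classical
  let _ : LocallyFiniteOrder V := Fintype.toLocallyFiniteOrder
  have h4 := (lt_iff_transGen_covBy).mp h
  clear h
  induction h4 with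
  | single h => exact D.lev_lt _ _ h
  | tail _ h' ih => exact lt_trans ih (D.lev_lt _ _ h')

theorem lev_mono' (D : LevDraw V (fun a b => a ⋖ b)) {a b : V} (h : a ≤ b) :
    D.lev a ≤ D.lev b := by
  rcases eq_or_lt_of_le h with h | h
  · rw [h]
  · exact (lev_mono D h).le

/-- The maximal chain `S` passes the level `i` at the abscissa `r`. -/
def At (D : LevDraw V (fun a b => a ⋖ b)) (S : Set V) (i : ℕ) (r : ℝ) : Prop :=
  (∃ c ∈ S, D.lev c = i ∧ r = D.x c) ∨
    (∃ a ∈ S, ∃ b ∈ S, a ⋖ b ∧ D.lev a < i ∧ i < D.lev b ∧ r = D.X a b i)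

theorem chain_total {S : Set V} (hS : IsMaxChain (· ≤ ·) S) {a b : V} (ha : a ∈ S) (hb : b ∈ S) :
    a ≤ b ∨ b ≤ a := by
  rcases eq_or_ne a b with h | h
  · exact Or.inl h.le
  · exact hS.1 ha hb h

theorem chain_le_of_lev (D : LevDraw V (fun a b => a ⋖ b)) {S : Set V}
    (hS : IsMaxChain (· ≤ ·) S) {a b : V} (ha : a ∈ S) (hb : b ∈ S) (h : D.lev a ≤ D.lev b) :
    a ≤ b := by
  rcases chain_total hS ha hb with h1 | h1
  · exact h1
  · rcases eq_or_lt_of_le h1 with h2 | h2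
    · exact h2.ge
    · exact absurd (lev_mono D h2) (by omega)

theorem chain_covBy {S : Set V} (hS : IsMaxChain (· ≤ ·) S) {a b : V} (ha : a ∈ S) (hb : b ∈ S)
    (hab : a < b) (h : ∀ c ∈ S, ¬ (a < c ∧ c < b)) : a ⋖ b := by
  refine ⟨hab, fun c hac hcb => ?_⟩
  have hc : c ∉ S := fun hc => h c hc ⟨hac, hcb⟩
  have h1 : IsChain (· ≤ ·) (insert c S) := by
    refine hS.1.insert ?_
    intro s hs _
    rcases chain_total hS hs ha with h2 | h2
    · exact Or.inr (h2.trans hac.le)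
    · rcases chain_total hS hs hb with h3 | h3
      · rcases eq_or_lt_of_le h2 with h4 | h4
        · rw [← h4]; exact Or.inr hac.le
        · rcases eq_or_lt_of_le h3 with h5 | h5
          · rw [h5]; exact Or.inl hcb.le
          · exact absurd ⟨h4, h5⟩ (h s hs)
      · exact Or.inl (hcb.le.trans h3)
  have h2 := hS.2 h1 (Set.subset_insert _ _)
  exact hc (h2 ▸ Set.mem_insert _ _)

variable [BoundedOrder V]

theorem strip (D : LevDraw V (fun a b => a ⋖ b)) {S : Set V} (hS : IsMaxChain (· ≤ ·) S) {i : ℕ}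
    (h0 : D.lev ⊥ ≤ i) (h1 : i < D.lev ⊤) :
    ∃ a ∈ S, ∃ b ∈ S, a ⋖ b ∧ D.lev a ≤ i ∧ i < D.lev b := by
  classical
  obtain ⟨a, ha, ha'⟩ := Finset.exists_max_image
    (Finset.univ.filter (fun c => c ∈ S ∧ D.lev c ≤ i)) D.lev
    ⟨⊥, by simp [hS.bot_mem, h0]⟩
  obtain ⟨b, hb, hb'⟩ := Finset.exists_min_image
    (Finset.univ.filter (fun c => c ∈ S ∧ i < D.lev c)) D.lev
    ⟨⊤, by simp [hS.top_mem, h1]⟩
  simp only [Finset.mem_filter, Finset.mem_univ, true_and] at ha hb ha' hb'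
  have hab : a < b := by
    rcases chain_total hS ha.1 hb.1 with h | h
    · rcases eq_or_lt_of_le h with h' | h'
      · subst h'; omega
      · exact h'
    · have := lev_mono' D h; omega
  refine ⟨a, ha.1, b, hb.1, chain_covBy hS ha.1 hb.1 hab ?_, ha.2, hb.2⟩
  rintro c hc ⟨h2, h3⟩
  have h4 := lev_mono D h2
  have h5 := lev_mono D h3
  by_cases h6 : D.lev c ≤ i
  · exact absurd (ha' c ⟨hc, h6⟩) (by omega)
  · exact absurd (hb' c ⟨hc, by omega⟩) (by omega)

theorem at_lo (D : LevDraw V (fun a b => a ⋖ b)) {S : Set V} {a b : V} {i : ℕ} (ha : a ∈ S)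
    (hb : b ∈ S) (hab : a ⋖ b) (h1 : D.lev a ≤ i) (h2 : i < D.lev b) : At D S i (D.X a b i) := by
  rcases eq_or_lt_of_le h1 with h | h
  · left; exact ⟨a, ha, h, by rw [← h]; exact D.X_bot a b hab⟩
  · right; exact ⟨a, ha, b, hb, hab, h, h2, rfl⟩

theorem at_hi (D : LevDraw V (fun a b => a ⋖ b)) {S : Set V} {a b : V} {i : ℕ} (ha : a ∈ S)
    (hb : b ∈ S) (hab : a ⋖ b) (h1 : D.lev a ≤ i) (h2 : i < D.lev b) :
    At D S (i + 1) (D.X a b (i + 1)) := by
  rcases Nat.lt_or_ge (i + 1) (D.lev b) with h | h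
  · right; exact ⟨a, ha, b, hb, hab, by omega, h, rfl⟩
  · have h3 : D.lev b = i + 1 := by omega
    left; exact ⟨b, hb, h3, by rw [← h3]; exact D.X_top a b hab⟩

theorem at_uniq (D : LevDraw V (fun a b => a ⋖ b)) {S : Set V} (hS : IsMaxChain (· ≤ ·) S)
    {i : ℕ} {r s : ℝ} (h1 : At D S i r) (h2 : At D S i s) : r = s := by
  have key : ∀ c ∈ S, ∀ a ∈ S, ∀ b ∈ S, a ⋖ b → D.lev a < D.lev c → D.lev c < D.lev b → False := by
    intro c hc a ha b hb hab h3 h4
    have h5 : a < c := by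
      rcases eq_or_lt_of_le (chain_le_of_lev D hS ha hc h3.le) with h | h
      · subst h; omega
      · exact h
    have h6 : c < b := by
      rcases eq_or_lt_of_le (chain_le_of_lev D hS hc hb h4.le) with h | h
      · subst h; omega
      · exact h
    exact hab.2 h5 h6
  rcases h1 with ⟨c, hc, hc1, hc2⟩ | ⟨a, ha, b, hb, hab, h3, h4, h5⟩ <;>
  rcases h2 with ⟨c', hc', hc1', hc2'⟩ | ⟨a', ha', b', hb', hab', h3', h4', h5'⟩
  · have : c = c' := le_antisymm (chain_le_of_lev D hS hc hc' (by omega))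
      (chain_le_of_lev D hS hc' hc (by omega))
    rw [hc2, hc2', this]
  · exact (key c hc a' ha' b' hb' hab' (by omega) (by omega)).elim
  · exact (key c' hc' a ha b hb hab (by omega) (by omega)).elim
  · have h6 : a = a' := by
      rcases chain_total hS ha ha' with h | h
      · rcases eq_or_lt_of_le h with h' | h'
        · exact h'
        · exact (key a' ha' a ha b hb hab (lev_mono D h') (by omega)).elim
      · rcases eq_or_lt_of_le h with h' | h'
        · exact h'.symm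
        · exact (key a ha a' ha' b' hb' hab' (lev_mono D h') (by omega)).elim
    have h7 : b = b' := by
      rcases chain_total hS hb hb' with h | h
      · rcases eq_or_lt_of_le h with h' | h'
        · exact h'
        · exact (key b hb a' ha' b' hb' hab' (by omega) (lev_mono D h')).elim
      · rcases eq_or_lt_of_le h with h' | h'
        · exact h'.symm
        · exact (key b' hb' a ha b hb hab (by omega) (lev_mono D h')).elim
    rw [h5, h5', h6, h7]

theorem at_ex (D : LevDraw V (fun a b => a ⋖ b)) {S : Set V} (hS : IsMaxChain (· ≤ ·) S) {i : ℕ}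
    (h0 : D.lev ⊥ ≤ i) (h1 : i ≤ D.lev ⊤) : ∃ r, At D S i r := by
  rcases eq_or_lt_of_le h1 with h | h
  · exact ⟨_, Or.inl ⟨⊤, hS.top_mem, h.symm, rfl⟩⟩
  · obtain ⟨a, ha, b, hb, hab, h2, h3⟩ := strip D hS h0 h
    exact ⟨_, at_lo D ha hb hab h2 h3⟩

theorem at_range (D : LevDraw V (fun a b => a ⋖ b)) {S : Set V} {i : ℕ} {r : ℝ}
    (h : At D S i r) : D.lev ⊥ ≤ i ∧ i ≤ D.lev ⊤ := by
  rcases h with ⟨c, _, hc1, _⟩ | ⟨a, _, b, _, _, h3, h4, _⟩
  · exact ⟨by rw [← hc1]; exact lev_mono' D bot_le, by rw [← hc1]; exact lev_mono' D le_top⟩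
  · exact ⟨(lev_mono' D bot_le).trans h3.le, h4.le.trans (lev_mono' D le_top)⟩

/-- Crossing lemma for maximal chains. -/
theorem cl (D : LevDraw V (fun a b => a ⋖ b)) {S T : Set V} (hS : IsMaxChain (· ≤ ·) S)
    (hT : IsMaxChain (· ≤ ·) T) {i j : ℕ} (hij : i ≤ j) {r r' s s' : ℝ} (h1 : At D S i r)
    (h2 : At D T i r') (h3 : r < r') (h4 : At D S j s) (h5 : At D T j s') (h6 : s' ≤ s) :
    ∃ u ∈ S, u ∈ T ∧ i ≤ D.lev u ∧ D.lev u ≤ j := by
  have main : ∀ j, i ≤ j → (∀ s s', At D S j s → At D T j s' → s < s') ∨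
      ∃ u ∈ S, u ∈ T ∧ i ≤ D.lev u ∧ D.lev u ≤ j := by
    intro j hj
    induction j, hj using Nat.le_induction with
    | base =>
      left
      intro s s' hs hs'
      rw [at_uniq D hS hs h1, at_uniq D hT hs' h2]
      exact h3
    | succ j hj ih =>
      rcases ih with ih | ⟨u, hu, hu', h7, h8⟩
      swap
      · right; exact ⟨u, hu, hu', h7, by omega⟩
      by_cases hex : (∃ s, At D S (j + 1) s)
      swap
      · left; intro s s' hs; exact absurd ⟨s, hs⟩ hex
      obtain ⟨s0, hs0⟩ := hex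
      have hr := at_range D hs0
      have hr' := at_range D h1
      obtain ⟨a, ha, b, hb, hab, h7, h8⟩ := strip D hS (i := j) (by omega) (by omega)
      obtain ⟨a', ha', b', hb', hab', h7', h8'⟩ := strip D hT (i := j) (by omega) (by omega)
      have h9 := ih _ _ (at_lo D ha hb hab h7 h8) (at_lo D ha' hb' hab' h7' h8')
      have h10 := D.mono a b a' b' j hab hab' h7 h8 h7' h8' h9
      have e1 := at_hi D ha hb hab h7 h8
      have e2 := at_hi D ha' hb' hab' h7' h8'
      rcases eq_or_lt_of_le h10 with h11 | h11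
      swap
      · left
        intro s s' hs hs'
        rw [at_uniq D hS hs e1, at_uniq D hT hs' e2]
        exact h11
      rcases Nat.lt_or_ge (j + 1) (D.lev b) with hb1 | hb1 <;>
      rcases Nat.lt_or_ge (j + 1) (D.lev b') with hb2 | hb2
      · obtain ⟨h12, h13⟩ := D.X_edge a b a' b' (j + 1) hab hab' (by omega) hb1 (by omega) hb2 h11
        subst h12; subst h13
        exact absurd h9 (lt_irrefl _)
      · have h12 : D.lev b' = j + 1 := by omega
        have h13 := D.X_top a' b' hab'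
        rw [h12, ← h11] at h13
        exact absurd (by rw [h12]; exact h13)
          (D.X_vert a b b' hab (by omega) (by omega))
      · have h12 : D.lev b = j + 1 := by omega
        have h13 := D.X_top a b hab
        rw [h12, h11] at h13
        exact absurd (by rw [h12]; exact h13)
          (D.X_vert a' b' b hab' (by omega) (by omega))
      · have h12 : D.lev b = j + 1 := by omega
        have h12' : D.lev b' = j + 1 := by omega
        have h13 := D.X_top a b hab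
        have h14 := D.X_top a' b' hab'
        rw [h12] at h13
        rw [h12'] at h14
        have h15 : b = b' := D.x_inj b b' (by omega) (by rw [← h13, ← h14, h11])
        right
        exact ⟨b, hb, h15 ▸ hb', by omega, by omega⟩
  rcases main j hij with h | h
  · exact absurd (h s s' h4 h5) (not_lt.mpr h6)
  · exact h

/-- A vertex on the position of a maximal chain belongs to it. -/
theorem at_mem (D : LevDraw V (fun a b => a ⋖ b)) {S : Set V} {v : V}
    (h : At D S (D.lev v) (D.x v)) : v ∈ S := by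
  rcases h with ⟨c, hc, hc1, hc2⟩ | ⟨a, ha, b, hb, hab, h3, h4, h5⟩
  · rw [D.x_inj v c hc1.symm hc2]; exact hc
  · exact absurd h5.symm (D.X_vert a b v hab h3 h4)

theorem at_self (D : LevDraw V (fun a b => a ⋖ b)) {S : Set V} {v : V} (h : v ∈ S) :
    At D S (D.lev v) (D.x v) := Or.inl ⟨v, h, rfl, rfl⟩

theorem at_v (D : LevDraw V (fun a b => a ⋖ b)) {S : Set V} (hS : IsMaxChain (· ≤ ·) S) (v : V) :
    ∃ r, At D S (D.lev v) r := at_ex D hS (lev_mono' D bot_le) (lev_mono' D le_top)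

/-- `v` is drawn to the left of the maximal chain `S`. -/
def Lf (D : LevDraw V (fun a b => a ⋖ b)) (v : V) (S : Set V) : Prop :=
  ∃ r, At D S (D.lev v) r ∧ D.x v < r

/-- `v` is drawn to the right of the maximal chain `S`. -/
def Rg (D : LevDraw V (fun a b => a ⋖ b)) (v : V) (S : Set V) : Prop :=
  ∃ r, At D S (D.lev v) r ∧ r < D.x v

theorem lf_or_rg (D : LevDraw V (fun a b => a ⋖ b)) {S : Set V} (hS : IsMaxChain (· ≤ ·) S)
    {v : V} (h : v ∉ S) : Lf D v S ∨ Rg D v S := by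
  obtain ⟨r, hr⟩ := at_v D hS v
  rcases lt_trichotomy (D.x v) r with h1 | h1 | h1
  · exact Or.inl ⟨r, hr, h1⟩
  · subst h1; exact absurd (at_mem D hr) h
  · exact Or.inr ⟨r, hr, h1⟩

theorem not_mem_of_inc {S : Set V} (hS : IsMaxChain (· ≤ ·) S) {v w : V} (hw : w ∈ S)
    (h1 : ¬ v ≤ w) (h2 : ¬ w ≤ v) : v ∉ S := by
  intro hv
  rcases chain_total hS hv hw with h | h
  · exact h1 h
  · exact h2 h

theorem sym1 (D : LevDraw V (fun a b => a ⋖ b)) {S T : Set V} (hS : IsMaxChain (· ≤ ·) S)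
    (hT : IsMaxChain (· ≤ ·) T) {v w : V} (hv : v ∈ S) (hw : w ∈ T) (h1 : ¬ v ≤ w)
    (h2 : ¬ w ≤ v) (h3 : Lf D v T) (h4 : Lf D w S) : False := by
  obtain ⟨r, hr, hr'⟩ := h3
  obtain ⟨t, ht, ht'⟩ := h4
  rcases le_total (D.lev v) (D.lev w) with h | h
  · obtain ⟨u, hu, hu', h5, h6⟩ := cl D hS hT h (at_self D hv) hr hr' ht (at_self D hw) ht'.le
    exact h1 ((chain_le_of_lev D hS hv hu h5).trans (chain_le_of_lev D hT hu' hw h6))
  · obtain ⟨u, hu, hu', h5, h6⟩ := cl D hT hS h (at_self D hw) ht ht' hr (at_self D hv) hr'.le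
    exact h2 ((chain_le_of_lev D hT hw hu h5).trans (chain_le_of_lev D hS hu' hv h6))

theorem sym2 (D : LevDraw V (fun a b => a ⋖ b)) {S T : Set V} (hS : IsMaxChain (· ≤ ·) S)
    (hT : IsMaxChain (· ≤ ·) T) {v w : V} (hv : v ∈ S) (hw : w ∈ T) (h1 : ¬ v ≤ w)
    (h2 : ¬ w ≤ v) (h3 : Rg D v T) (h4 : Rg D w S) : False := by
  obtain ⟨r, hr, hr'⟩ := h3
  obtain ⟨t, ht, ht'⟩ := h4
  rcases le_total (D.lev v) (D.lev w) with h | h
  · obtain ⟨u, hu, hu', h5, h6⟩ := cl D hT hS h hr (at_self D hv) hr' (at_self D hw) ht ht'.le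
    exact h1 ((chain_le_of_lev D hS hv hu' h5).trans (chain_le_of_lev D hT hu hw h6))
  · obtain ⟨u, hu, hu', h5, h6⟩ := cl D hS hT h ht (at_self D hw) ht' (at_self D hv) hr hr'.le
    exact h2 ((chain_le_of_lev D hT hw hu' h5).trans (chain_le_of_lev D hS hu hv h6))

theorem ex_max1 (v : V) : ∃ S : Set V, IsMaxChain (· ≤ ·) S ∧ v ∈ S := by
  obtain ⟨M, hM, h⟩ := (IsChain.singleton (r := fun a b : V => a ≤ b) (a := v)).exists_maxChain
  exact ⟨M, hM, h rfl⟩

theorem ex_max2 {v w : V} (hvw : v ≤ w) :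
    ∃ S : Set V, IsMaxChain (· ≤ ·) S ∧ v ∈ S ∧ w ∈ S := by
  have h1 : IsChain (fun a b : V => a ≤ b) {v, w} := by
    intro a ha b hb _
    simp only [Set.mem_insert_iff, Set.mem_singleton_iff] at ha hb
    rcases ha with rfl | rfl <;> rcases hb with rfl | rfl
    · exact Or.inl le_rfl
    · exact Or.inl hvw
    · exact Or.inr hvw
    · exact Or.inl le_rfl
  obtain ⟨M, hM, h⟩ := h1.exists_maxChain
  exact ⟨M, hM, h (by simp), h (by simp)⟩

/-- `v` is to the left of `w`. -/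
def LL (D : LevDraw V (fun a b => a ⋖ b)) (v w : V) : Prop :=
  ¬ v ≤ w ∧ ¬ w ≤ v ∧ ∃ S : Set V, IsMaxChain (· ≤ ·) S ∧ w ∈ S ∧ Lf D v S

theorem LL_lf (D : LevDraw V (fun a b => a ⋖ b)) {v w : V} (h : LL D v w) {S : Set V}
    (hS : IsMaxChain (· ≤ ·) S) (hw : w ∈ S) : Lf D v S := by
  obtain ⟨h1, h2, T, hT, hwT, hvT⟩ := h
  rcases lf_or_rg D hS (not_mem_of_inc hS hw h1 h2) with h3 | h3
  · exact h3
  · exfalso
    obtain ⟨A, hA, hvA⟩ := ex_max1 v
    rcases lf_or_rg D hA (not_mem_of_inc hA hvA h2 h1) with h4 | h4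
    · exact sym1 D hA hT hvA hwT h1 h2 hvT h4
    · exact sym2 D hA hS hvA hw h1 h2 h3 h4

theorem LL_rg (D : LevDraw V (fun a b => a ⋖ b)) {v w : V} (h : LL D v w) {S : Set V}
    (hS : IsMaxChain (· ≤ ·) S) (hv : v ∈ S) : Rg D w S := by
  obtain ⟨h1, h2, T, hT, hwT, hvT⟩ := h
  rcases lf_or_rg D hS (not_mem_of_inc hS hv h2 h1) with h3 | h3
  · exact (sym1 D hS hT hv hwT h1 h2 hvT h3).elim
  · exact h3

theorem LL_tot (D : LevDraw V (fun a b => a ⋖ b)) {v w : V} (h1 : ¬ v ≤ w) (h2 : ¬ w ≤ v) :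
    LL D v w ∨ LL D w v := by
  obtain ⟨S, hS, hw⟩ := ex_max1 w
  obtain ⟨A, hA, hv⟩ := ex_max1 v
  rcases lf_or_rg D hS (not_mem_of_inc hS hw h1 h2) with h3 | h3
  · exact Or.inl ⟨h1, h2, S, hS, hw, h3⟩
  · rcases lf_or_rg D hA (not_mem_of_inc hA hv h2 h1) with h4 | h4
    · exact Or.inr ⟨h2, h1, A, hA, hv, h4⟩
    · exact (sym2 D hA hS hv hw h1 h2 h3 h4).elim

theorem LL_trans (D : LevDraw V (fun a b => a ⋖ b)) {a b c : V} (hab : LL D a b)
    (hbc : LL D b c) : LL D a c := by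
  obtain ⟨S, hS, hb⟩ := ex_max1 b
  obtain ⟨r, hr, hr'⟩ := LL_lf D hab hS hb
  obtain ⟨t, ht, ht'⟩ := LL_rg D hbc hS hb
  have hac : ¬ a ≤ c := by
    intro h
    obtain ⟨T, hT, ha, hc⟩ := ex_max2 h
    obtain ⟨u, hu, hu', h5, h6⟩ := cl D hT hS (lev_mono' D h) (at_self D ha) hr hr'
      (at_self D hc) ht ht'.le
    have h7 := chain_le_of_lev D hT ha hu h5
    have h8 := chain_le_of_lev D hT hu hc h6
    rcases chain_total hS hu' hb with h9 | h9
    · exact hab.1 (h7.trans h9)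
    · exact hbc.1 (h9.trans h8)
  have hca : ¬ c ≤ a := by
    intro h
    obtain ⟨T, hT, hc, ha⟩ := ex_max2 h
    obtain ⟨u, hu, hu', h5, h6⟩ := cl D hS hT (lev_mono' D h) ht (at_self D hc) ht'
      hr (at_self D ha) hr'.le
    have h7 := chain_le_of_lev D hT hc hu' h5
    have h8 := chain_le_of_lev D hT hu' ha h6
    rcases chain_total hS hu hb with h9 | h9
    · exact hbc.2.1 (h7.trans h9)
    · exact hab.2.1 (h9.trans h8)
  refine ⟨hac, hca, ?_⟩
  obtain ⟨C, hC, hc⟩ := ex_max1 c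
  refine ⟨C, hC, hc, ?_⟩
  rcases lf_or_rg D hC (not_mem_of_inc hC hc hac hca) with h | h
  · exact h
  exfalso
  obtain ⟨p, hp, hp'⟩ := h
  obtain ⟨A, hA, ha⟩ := ex_max1 a
  rcases le_total (D.lev a) (D.lev c) with hl | hl
  · obtain ⟨u, hu, hu', h5, h6⟩ := cl D hC hS hl hp hr (hp'.trans hr') (at_self D hc) ht ht'.le
    have h7 := chain_le_of_lev D hC hu hc h6
    obtain ⟨q, hq⟩ := at_v D hA u
    rcases le_total q (D.x u) with h8 | h8
    · obtain ⟨z, hz, hz', h9, h10⟩ := cl D hC hA h5 hp (at_self D ha) hp' (at_self D hu) hq h8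
      exact hac (((chain_le_of_lev D hA ha hz' h9).trans (chain_le_of_lev D hC hz hu h10)).trans h7)
    · obtain ⟨z, hz, hz', h9, h10⟩ := cl D hA hS h5 (at_self D ha) hr hr' hq (at_self D hu') h8
      exact hac (((chain_le_of_lev D hA ha hz h9).trans (chain_le_of_lev D hS hz' hu' h10)).trans h7)
  · obtain ⟨u, hu, hu', h5, h6⟩ := cl D hS hC hl ht (at_self D hc) ht' hr hp (hp'.trans hr').le
    have h7 := chain_le_of_lev D hC hc hu' h5
    obtain ⟨q, hq⟩ := at_v D hA u
    rcases lt_trichotomy q (D.x u) with h8 | h8 | h8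
    · obtain ⟨z, hz, hz', h9, h10⟩ := cl D hA hC h6 hq (at_self D hu') h8 (at_self D ha) hp hp'.le
      exact hca ((h7.trans (chain_le_of_lev D hC hu' hz' h9)).trans (chain_le_of_lev D hA hz ha h10))
    · subst h8
      exact hca (h7.trans (chain_le_of_lev D hA (at_mem D hq) ha h6))
    · obtain ⟨z, hz, hz', h9, h10⟩ := cl D hS hA h6 (at_self D hu) hq h8 hr (at_self D ha) hr'.le
      exact hca ((h7.trans (chain_le_of_lev D hS hu hz h9)).trans (chain_le_of_lev D hA hz' ha h10))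

theorem LL_cross (D : LevDraw V (fun a b => a ⋖ b)) {x y c d : V} (hxy : x ≤ y) (hcd : c ≤ d)
    (h1 : LL D x c) (h2 : LL D d y) : ∃ z, x ≤ z ∧ z ≤ y ∧ c ≤ z ∧ z ≤ d := by
  obtain ⟨S, hS, hx, hy⟩ := ex_max2 hxy
  obtain ⟨T, hT, hc, hd⟩ := ex_max2 hcd
  obtain ⟨r, hr, hr'⟩ := LL_lf D h1 hT hc
  obtain ⟨t, ht, ht'⟩ := LL_rg D h2 hT hd
  obtain ⟨u, hu, hu', h5, h6⟩ := cl D hS hT (lev_mono' D hxy) (at_self D hx) hr hr'
    (at_self D hy) ht ht'.le
  have h7 := chain_le_of_lev D hS hx hu h5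
  have h8 := chain_le_of_lev D hS hu hy h6
  refine ⟨u, h7, h8, ?_, ?_⟩
  · rcases chain_total hT hc hu' with h | h
    · exact h
    · exact absurd (h7.trans h) h1.1
  · rcases chain_total hT hu' hd with h | h
    · exact h
    · exact absurd (h.trans h8) h2.1

/-- A bounded poset with a level drawing has a left-of relation. -/
def lrOf (D : LevDraw V (fun a b => a ⋖ b)) : LR V where
  L := LL D
  inc := fun _ _ h => ⟨h.1, h.2.1⟩
  tot := fun _ _ h1 h2 => LL_tot D h1 h2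
  trans := fun _ _ _ h1 h2 => LL_trans D h1 h2
  cross := fun _ _ _ _ h1 h2 h3 h4 => LL_cross D h1 h2 h3 h4

end

end Pool.Agent.Helper80.Lat
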