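import Pool.Agent.Helper80.Lat.Bridge

set_option autoImplicit false
set_option linter.unusedSectionVars false

/-!
# Maximal chains of a bounded poset with a left-of relation; one face at a time
-/

namespace Pool.Agent.Helper80.Lat

section Chain

variable {V : Type} [Fintype V] [PartialOrder V]

/-- Number of smaller elements. -/
noncomputable def ht (v : V) : ℕ := by
  classical exact (Finset.univ.filter (fun w => w < v)).card

theorem ht_lt {x y : V} (h : x < y) : ht x < ht y := by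
  classical
  unfold ht
  apply Finset.card_lt_card
  constructor
  · intro w hw
    simp only [Finset.mem_filter, Finset.mem_univ, true_and] at hw ⊢
    exact hw.trans h
  · intro h2
    have h3 := h2 (by simpa using h : x ∈ Finset.univ.filter (fun w => w < y))
    simp at h3

theorem max_ex {C : Set V} (hC : IsMaxChain (· ≤ ·) C) (P : V → Prop) (h : ∃ x ∈ C, P x) :
    ∃ m ∈ C, P m ∧ ∀ x ∈ C, P x → x ≤ m := by
  classical
  obtain ⟨x, hx, hx'⟩ := h
  obtain ⟨m, hm, hm'⟩ := Finset.exists_max_image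
    (Finset.univ.filter (fun c => c ∈ C ∧ P c)) ht ⟨x, by simp [hx, hx']⟩
  simp only [Finset.mem_filter, Finset.mem_univ, true_and] at hm hm'
  refine ⟨m, hm.1, hm.2, fun y hy hy' => ?_⟩
  rcases chain_total hC hy hm.1 with h1 | h1
  · exact h1
  · rcases eq_or_lt_of_le h1 with h2 | h2
    · exact h2.ge
    · exact absurd (ht_lt h2) (not_lt.mpr (hm' y ⟨hy, hy'⟩))

theorem min_ex {C : Set V} (hC : IsMaxChain (· ≤ ·) C) (P : V → Prop) (h : ∃ x ∈ C, P x) :
    ∃ m ∈ C, P m ∧ ∀ x ∈ C, P x → m ≤ x := by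
  classical
  obtain ⟨x, hx, hx'⟩ := h
  obtain ⟨m, hm, hm'⟩ := Finset.exists_min_image
    (Finset.univ.filter (fun c => c ∈ C ∧ P c)) ht ⟨x, by simp [hx, hx']⟩
  simp only [Finset.mem_filter, Finset.mem_univ, true_and] at hm hm'
  refine ⟨m, hm.1, hm.2, fun y hy hy' => ?_⟩
  rcases chain_total hC hm.1 hy with h1 | h1
  · exact h1
  · rcases eq_or_lt_of_le h1 with h2 | h2
    · exact h2.ge
    · exact absurd (ht_lt h2) (not_lt.mpr (hm' y ⟨hy, hy'⟩))

theorem succ_ex {C : Set V} (hC : IsMaxChain (· ≤ ·) C) {c y : V} (hc : c ∈ C) (hy : y ∈ C)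
    (h : c < y) : ∃ c' ∈ C, c ⋖ c' ∧ ∀ z ∈ C, c < z → c' ≤ z := by
  obtain ⟨m, hm, hm1, hm2⟩ := min_ex hC (fun z => c < z) ⟨y, hy, h⟩
  refine ⟨m, hm, chain_covBy hC hc hm hm1 ?_, hm2⟩
  rintro z hz ⟨h1, h2⟩
  exact absurd h2 (not_lt_of_ge (hm2 z hz h1))

theorem pred_ex {C : Set V} (hC : IsMaxChain (· ≤ ·) C) {c y : V} (hc : c ∈ C) (hy : y ∈ C)
    (h : y < c) : ∃ c' ∈ C, c' ⋖ c ∧ ∀ z ∈ C, z < c → z ≤ c' := by
  obtain ⟨m, hm, hm1, hm2⟩ := max_ex hC (fun z => z < c) ⟨y, hy, h⟩
  refine ⟨m, hm, chain_covBy hC hm hc hm1 ?_, hm2⟩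
  rintro z hz ⟨h1, h2⟩
  exact absurd h1 (not_lt_of_ge (hm2 z hz h2))

theorem chain_induct {C : Set V} (hC : IsMaxChain (· ≤ ·) C) {x : V} (hx : x ∈ C)
    (P : V → Prop) (h0 : P x) (h1 : ∀ y ∈ C, ∀ z ∈ C, x ≤ y → y ⋖ z → P y → P z) :
    ∀ y ∈ C, x ≤ y → P y := by
  have main : ∀ n : ℕ, ∀ y ∈ C, ht y ≤ n → x ≤ y → P y := by
    intro n
    induction n with
    | zero =>
      intro y _ hn hxy
      rcases eq_or_lt_of_le hxy with h | h
      · exact h ▸ h0
      · exact absurd (ht_lt h) (by omega)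
    | succ n ih =>
      intro y hy hn hxy
      rcases eq_or_lt_of_le hxy with h | h
      · exact h ▸ h0
      · obtain ⟨y', hy', h2, h3⟩ := pred_ex hC hy hx h
        exact h1 y' hy' y hy (h3 x hx h) h2
          (ih y' hy' (by have := ht_lt h2.lt; omega) (h3 x hx h))
  intro y hy hxy
  exact main (ht y) y hy le_rfl hxy

/-- An element comparable to every element of a maximal chain belongs to it. -/
theorem mem_of_comp {C : Set V} (hC : IsMaxChain (· ≤ ·) C) {v : V}
    (h : ∀ c ∈ C, v ≤ c ∨ c ≤ v) : v ∈ C := by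
  have h1 : IsChain (· ≤ ·) (insert v C) := hC.1.insert (fun s hs _ => h s hs)
  have h2 := hC.2 h1 (Set.subset_insert _ _)
  exact h2 ▸ Set.mem_insert _ _

theorem maxChain_of {C : Set V} (h1 : ∀ x ∈ C, ∀ y ∈ C, x ≤ y ∨ y ≤ x)
    (h2 : ∀ v, (∀ c ∈ C, v ≤ c ∨ c ≤ v) → v ∈ C) : IsMaxChain (· ≤ ·) C := by
  refine ⟨fun x hx y hy _ => h1 x hx y hy, fun t ht hst => ?_⟩
  apply Set.Subset.antisymm hst
  intro v hv
  apply h2
  intro c hc
  rcases eq_or_ne v c with h | h
  · exact Or.inl h.le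
  · exact ht hv (hst hc) h

/-- Between comparable elements there is a cover of the lower one. -/
theorem cover_below {x y : V} (h : x < y) : ∃ w, x ⋖ w ∧ w ≤ y := by
  classical
  obtain ⟨m, hm, hm'⟩ := Finset.exists_min_image
    (Finset.univ.filter (fun c => x < c ∧ c ≤ y)) ht ⟨y, by simp [h]⟩
  simp only [Finset.mem_filter, Finset.mem_univ, true_and] at hm hm'
  refine ⟨m, ⟨hm.1, fun c hc hcm => ?_⟩, hm.2⟩
  exact absurd (ht_lt hcm) (not_lt.mpr (hm' c ⟨hc, hcm.le.trans hm.2⟩))

end Chain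

section LR

variable {V : Type} [Fintype V] [PartialOrder V] (R : LR V)

theorem LR.ne1 {x y : V} (h : R.L x y) (h' : x ≤ y) : False := (R.inc _ _ h).1 h'
theorem LR.ne2 {x y : V} (h : R.L x y) (h' : y ≤ x) : False := (R.inc _ _ h).2 h'

/-- `x` left of `y` and `y ≤ z`... one of three. -/
theorem LR.up (x y z : V) (h : R.L x y) (h' : y ≤ z) (h'' : ¬ x ≤ z) : R.L x z := by
  have h1 : ¬ z ≤ x := fun h3 => R.ne2 h (h'.trans h3)
  rcases R.tot _ _ h'' h1 with h2 | h2
  · exact h2
  · exact (R.ne2 (R.trans _ _ _ h2 h) h').elim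

/-- Two covers of one element are incomparable. -/
theorem cov_inc {a x y : V} (h1 : a ⋖ x) (h2 : a ⋖ y) (hne : x ≠ y) : ¬ x ≤ y := by
  intro h
  rcases eq_or_lt_of_le h with h | h
  · exact hne h
  · exact h2.2 h1.lt h

theorem cov_inc' {a x y : V} (h1 : x ⋖ a) (h2 : y ⋖ a) (hne : x ≠ y) : ¬ x ≤ y := by
  intro h
  rcases eq_or_lt_of_le h with h | h
  · exact hne h
  · exact h1.2 h h2.lt

/-- Elements not to the left of the chain `C`. -/
def wr (C : Set V) (v : V) : Prop := ∀ c ∈ C, ¬ R.L v c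

theorem wr_of_mem {C : Set V} (hC : IsMaxChain (· ≤ ·) C) {v : V} (h : v ∈ C) : wr R C v := by
  intro c hc h1
  rcases chain_total hC h hc with h2 | h2
  · exact R.ne1 h1 h2
  · exact R.ne2 h1 h2

/-- The successor of `a` in `C` is not its rightmost cover. -/
def Turn (C : Set V) (a : V) : Prop := a ∈ C ∧ ∃ a' ∈ C, a ⋖ a' ∧ ∃ w, a ⋖ w ∧ R.L a' w

variable [BoundedOrder V]

theorem turn_below {C : Set V} (hC : IsMaxChain (· ≤ ·) C) {v : V} (h1 : wr R C v)
    (h2 : v ∉ C) : ∃ c, Turn R C c ∧ c ≤ v ∧ ∀ c' ∈ C, c' ≤ v → c' ≤ c := by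
  obtain ⟨c, hc, hcv, hc'⟩ := max_ex hC (fun z => z ≤ v) ⟨⊥, hC.bot_mem, bot_le⟩
  have hcv' : c < v := lt_of_le_of_ne hcv (fun h => h2 (h ▸ hc))
  have hct : c < ⊤ := lt_of_lt_of_le hcv' le_top
  obtain ⟨s, hs, hcs, hs'⟩ := succ_ex hC hc hC.top_mem hct
  have hsv : ¬ s ≤ v := fun h => absurd hcs.lt (not_lt_of_ge (hc' s hs h))
  obtain ⟨w, hcw, hwv⟩ := cover_below hcv'
  have hws : w ≠ s := fun h => hsv (h ▸ hwv)
  have hvs : ¬ v ≤ s := by
    intro h
    rcases eq_or_lt_of_le h with h | h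
    · exact h2 (h ▸ hs)
    · exact hcs.2 hcv' h
  have h3 : R.L s v := by
    rcases R.tot _ _ hsv hvs with h | h
    · exact h
    · exact absurd h (h1 s hs)
  have h4 : R.L s w := by
    rcases R.tot _ _ (cov_inc hcs hcw hws.symm) (cov_inc hcw hcs hws) with h | h
    · exact h
    · exact (R.ne1 (R.trans _ _ _ h h3) hwv).elim
  exact ⟨c, ⟨hc, s, hs, hcs, w, hcw, h4⟩, hcv, hc'⟩

/-- The data of the face to the right of a maximal chain. -/
structure Face (C : Set V) (a l r b : V) : Prop where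
  ha : a ∈ C
  hb : b ∈ C
  hl : l ∈ C
  al : a ⋖ l
  ar : a ⋖ r
  Llr : R.L l r
  adj : ∀ w, a ⋖ w → R.L l w → ¬ R.L w r
  rb : r ≤ b
  bmin : ∀ c ∈ C, r ≤ c → b ≤ c
  top : ∀ c, Turn R C c → c ≤ a

theorem face_ex {C : Set V} (hC : IsMaxChain (· ≤ ·) C) {v : V} (h1 : wr R C v) (h2 : v ∉ C) :
    ∃ a l r b, Face R C a l r b := by
  classical
  obtain ⟨c, hc, _, _⟩ := turn_below R hC h1 h2
  obtain ⟨a, ha, hat, ha'⟩ := max_ex hC (fun z => Turn R C z) ⟨c, hc.1, hc⟩
  obtain ⟨_, l, hl, hal, w, haw, hlw⟩ := hat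
  -- leftmost cover to the right of `l`
  obtain ⟨r, hr, hr'⟩ := Finset.exists_min_image
    (Finset.univ.filter (fun z => a ⋖ z ∧ R.L l z))
    (fun z => (Finset.univ.filter (fun y => R.L y z)).card) ⟨w, by simp [haw, hlw]⟩
  simp only [Finset.mem_filter, Finset.mem_univ, true_and] at hr hr'
  obtain ⟨b, hb, hrb, hb'⟩ := min_ex hC (fun z => r ≤ z) ⟨⊤, hC.top_mem, le_top⟩
  refine ⟨a, l, r, b, ha, hb, hl, hal, hr.1, hr.2, ?_, hrb, hb', fun c hc => ha' c hc.1 hc⟩
  intro z hz hlz hzr
  have h3 := hr' z ⟨hz, hlz⟩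
  have h4 : (Finset.univ.filter (fun y => R.L y z)).card <
      (Finset.univ.filter (fun y => R.L y r)).card := by
    apply Finset.card_lt_card
    constructor
    · intro y hy
      simp only [Finset.mem_filter, Finset.mem_univ, true_and] at hy ⊢
      exact R.trans _ _ _ hy hzr
    · intro h5
      have h6 := h5 (by simpa using hzr : z ∈ Finset.univ.filter (fun y => R.L y r))
      simp only [Finset.mem_filter, Finset.mem_univ, true_and] at h6
      exact R.ne1 h6 le_rfl
  omega

/-- The right side of the face. -/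
def side (r b : V) : Set V := {d | r ≤ d ∧ d < b ∧ ∀ w, r ≤ w → w ≤ b → ¬ R.L w d}

/-- The chain on the other side of the face. -/
def flipC (C : Set V) (a r b : V) : Set V := {c | (c ∈ C ∧ (c ≤ a ∨ b ≤ c)) ∨ c ∈ side R r b}

/-- The left side of the face. -/
def lside (C : Set V) (a b : V) : Set V := {c | c ∈ C ∧ a < c ∧ c < b}

variable {R} {C : Set V} {a l r b : V}

theorem Face.r_not (F : Face R C a l r b) (hC : IsMaxChain (· ≤ ·) C) : r ∉ C := by
  intro h
  rcases chain_total hC F.hl h with h1 | h1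
  · exact R.ne1 F.Llr h1
  · exact R.ne2 F.Llr h1

theorem Face.rb' (F : Face R C a l r b) (hC : IsMaxChain (· ≤ ·) C) : r < b :=
  lt_of_le_of_ne F.rb (fun h => F.r_not hC (h ▸ F.hb))

theorem Face.ab (F : Face R C a l r b) : a < b := F.ar.lt.trans_le F.rb

theorem Face.l_le (F : Face R C a l r b) (hC : IsMaxChain (· ≤ ·) C) {c : V} (hc : c ∈ C)
    (h : a < c) : l ≤ c := by
  rcases chain_total hC F.hl hc with h1 | h1
  · exact h1
  · rcases eq_or_lt_of_le h1 with h2 | h2
    · exact h2.ge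
    · exact absurd h2 (F.al.2 h)

theorem Face.left_r (F : Face R C a l r b) (hC : IsMaxChain (· ≤ ·) C) {c : V} (hc : c ∈ C)
    (h1 : a < c) (h2 : c < b) : R.L c r := by
  have h3 : ¬ r ≤ c := fun h => absurd h2 (not_lt_of_ge (F.bmin c hc h))
  have h4 : ¬ c ≤ r := by
    intro h
    rcases eq_or_lt_of_le h with h | h
    · exact h3 h.ge
    · exact F.ar.2 h1 h
  rcases R.tot _ _ h4 h3 with h5 | h5
  · exact h5
  · exact (R.ne1 (R.trans _ _ _ F.Llr h5) (F.l_le hC hc h1)).elim

theorem r_mem_side (F : Face R C a l r b) (hC : IsMaxChain (· ≤ ·) C) : r ∈ side R r b :=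
  ⟨le_rfl, F.rb' hC, fun _ hw _ h => R.ne2 h hw⟩

theorem side_total {x y : V} (hx : x ∈ side R r b) (hy : y ∈ side R r b) : x ≤ y ∨ y ≤ x := by
  by_contra h
  push Not at h
  rcases R.tot _ _ h.1 h.2 with h1 | h1
  · exact hy.2.2 x hx.1 hx.2.1.le h1
  · exact hx.2.2 y hy.1 hy.2.1.le h1

theorem flip_max (F : Face R C a l r b) (hC : IsMaxChain (· ≤ ·) C) :
    IsMaxChain (· ≤ ·) (flipC R C a r b) := by
  classical
  apply maxChain_of
  · rintro x (⟨hx, hx'⟩ | hx) y (⟨hy, hy'⟩ | hy)
    · exact chain_total hC hx hy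
    · rcases hx' with h | h
      · exact Or.inl (h.trans (F.ar.le.trans hy.1))
      · exact Or.inr (hy.2.1.le.trans h)
    · rcases hy' with h | h
      · exact Or.inr (h.trans (F.ar.le.trans hx.1))
      · exact Or.inl (hx.2.1.le.trans h)
    · exact side_total hx hy
  · intro v hv
    have hva := hv a (Or.inl ⟨F.ha, Or.inl le_rfl⟩)
    have hvb := hv b (Or.inl ⟨F.hb, Or.inr le_rfl⟩)
    have hvr := hv r (Or.inr (r_mem_side F hC))
    rcases hva with h1 | h1
    · left
      refine ⟨mem_of_comp hC (fun c hc => ?_), Or.inl h1⟩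
      rcases chain_total hC hc F.ha with h2 | h2
      · exact hv c (Or.inl ⟨hc, Or.inl h2⟩)
      · exact Or.inl (h1.trans h2)
    rcases hvb.symm with h2 | h2
    · left
      refine ⟨mem_of_comp hC (fun c hc => ?_), Or.inr h2⟩
      rcases chain_total hC hc F.hb with h3 | h3
      · exact Or.inr (h3.trans h2)
      · exact hv c (Or.inl ⟨hc, Or.inr h3⟩)
    rcases eq_or_lt_of_le h2 with h2 | h2
    · left; exact ⟨h2 ▸ F.hb, Or.inr h2.ge⟩
    rcases hvr with h3 | h3
    · rcases eq_or_lt_of_le h1 with h4 | h4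
      · left; exact ⟨h4 ▸ F.ha, Or.inl h4.ge⟩
      · rcases eq_or_lt_of_le h3 with h5 | h5
        · right; rw [h5]; exact r_mem_side F hC
        · exact absurd h5 (F.ar.2 h4)
    · right
      refine ⟨h3, h2, ?_⟩
      intro w hw hwb hwv
      -- the leftmost element of the interval to the left of `v`
      obtain ⟨m, hm, hm'⟩ := Finset.exists_min_image
        (Finset.univ.filter (fun z => r ≤ z ∧ z ≤ b ∧ R.L z v))
        (fun z => (Finset.univ.filter (fun y => R.L y z)).card) ⟨w, by simp [hw, hwb, hwv]⟩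
      simp only [Finset.mem_filter, Finset.mem_univ, true_and] at hm hm'
      have hms : m ∈ side R r b := by
        refine ⟨hm.1, lt_of_le_of_ne hm.2.1 ?_, ?_⟩
        · intro h; exact R.ne2 hm.2.2 (h ▸ h2.le)
        · intro z hz hzb hzm
          have h3 := hm' z ⟨hz, hzb, R.trans _ _ _ hzm hm.2.2⟩
          have h4 : (Finset.univ.filter (fun y => R.L y z)).card <
              (Finset.univ.filter (fun y => R.L y m)).card := by
            apply Finset.card_lt_card
            constructor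
            · intro y hy
              simp only [Finset.mem_filter, Finset.mem_univ, true_and] at hy ⊢
              exact R.trans _ _ _ hy hzm
            · intro h5
              have h6 := h5 (by simpa using hzm : z ∈ Finset.univ.filter (fun y => R.L y m))
              simp only [Finset.mem_filter, Finset.mem_univ, true_and] at h6
              exact R.ne1 h6 le_rfl
          omega
      rcases hv m (Or.inr hms) with h3 | h3
      · exact R.ne2 hm.2.2 h3
      · exact R.ne1 hm.2.2 h3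

/-- Elements above the first element of the left side and not to the left of `C`. -/
theorem above_l (F : Face R C a l r b) (hC : IsMaxChain (· ≤ ·) C) {v : V} (h1 : wr R C v)
    (h2 : l ≤ v) : v ∈ C := by
  by_contra h
  obtain ⟨c, hc, _, hc''⟩ := turn_below R hC h1 h
  exact absurd F.al.lt (not_lt_of_ge ((hc'' l F.hl h2).trans (F.top c hc)))

theorem wr_flip (F : Face R C a l r b) (hC : IsMaxChain (· ≤ ·) C) {v : V}
    (h : wr R (flipC R C a r b) v) : wr R C v := by
  intro c hc hvc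
  by_cases h1 : c ≤ a ∨ b ≤ c
  · exact h c (Or.inl ⟨hc, h1⟩) hvc
  · push Not at h1
    have h2 : a < c := by
      rcases chain_total hC hc F.ha with h | h
      · exact absurd h h1.1
      · exact lt_of_le_of_ne h (fun e => h1.1 e.ge)
    have h3 : c < b := by
      rcases chain_total hC hc F.hb with h | h
      · exact lt_of_le_of_ne h (fun e => h1.2 e.ge)
      · exact absurd h h1.2
    exact h r (Or.inr (r_mem_side F hC)) (R.trans _ _ _ hvc (F.left_r hC hc h2 h3))

theorem lside_not (F : Face R C a l r b) (hC : IsMaxChain (· ≤ ·) C) {v : V}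
    (h : v ∈ lside C a b) : ¬ wr R (flipC R C a r b) v := fun h1 =>
  h1 r (Or.inr (r_mem_side F hC)) (F.left_r hC h.1 h.2.1 h.2.2)

theorem wr_old (F : Face R C a l r b) (hC : IsMaxChain (· ≤ ·) C) {v : V}
    (h : wr R C v) (hv : v ∉ lside C a b) : wr R (flipC R C a r b) v := by
  rintro d (⟨hd, _⟩ | hd) hvd
  · exact h d hd hvd
  -- `v` left of an element of the right side
  have hrb := F.rb' hC
  have hav : a < v := by
    have h1 : ¬ v ≤ a := fun h1 => R.ne1 hvd (h1.trans (F.ar.le.trans hd.1))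
    by_contra h2
    have h2' : ¬ a ≤ v := fun h3 => h2 (lt_of_le_of_ne h3 (fun e => h1 e.ge))
    rcases R.tot _ _ h1 h2' with h3 | h3
    · exact h a F.ha h3
    · exact R.ne1 (R.trans _ _ _ h3 hvd) (F.ar.le.trans hd.1)
  have hvb : v < b := by
    have h1 : ¬ b ≤ v := fun h1 => R.ne2 hvd (hd.2.1.le.trans h1)
    by_contra h2
    have h2' : ¬ v ≤ b := fun h3 => h2 (lt_of_le_of_ne h3 (fun e => h1 e.ge))
    rcases R.tot _ _ h2' h1 with h3 | h3
    · exact h b F.hb h3
    · exact R.ne2 (R.trans _ _ _ h3 hvd) hd.2.1.le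
  have hvr : ¬ r ≤ v := fun h1 => hd.2.2 v h1 hvb.le hvd
  have hvC : v ∉ C := fun h1 => hv ⟨h1, hav, hvb⟩
  have hlv : ¬ l ≤ v := fun h1 => hvC (above_l F hC h h1)
  have hvl : ¬ v ≤ l := by
    intro h1
    rcases eq_or_lt_of_le h1 with h2 | h2
    · exact hvC (h2 ▸ F.hl)
    · exact F.al.2 hav h2
  have hLlv : R.L l v := by
    rcases R.tot _ _ hlv hvl with h1 | h1
    · exact h1
    · exact absurd h1 (h l F.hl)
  have hvr' : ¬ v ≤ r := by
    intro h1
    rcases eq_or_lt_of_le h1 with h2 | h2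
    · exact hvr h2.ge
    · exact F.ar.2 hav h2
  have hLvr : R.L v r := by
    rcases R.tot _ _ hvr' hvr with h1 | h1
    · exact h1
    · exact (R.ne1 (R.trans _ _ _ h1 hvd) hd.1).elim
  obtain ⟨w, haw, hwv⟩ := cover_below hav
  have hwl : w ≠ l := fun e => hlv (e ▸ hwv)
  have hwr : w ≠ r := fun e => hvr (e ▸ hwv)
  have h1 : R.L l w := by
    rcases R.tot _ _ (cov_inc F.al haw hwl.symm) (cov_inc haw F.al hwl) with h1 | h1
    · exact h1
    · exact (R.ne1 (R.trans _ _ _ h1 hLlv) hwv).elim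
  have h2 : R.L w r := by
    rcases R.tot _ _ (cov_inc haw F.ar hwr) (cov_inc F.ar haw hwr.symm) with h1 | h1
    · exact h1
    · exact (R.ne2 (R.trans _ _ _ hLvr h1) hwv).elim
  exact F.adj w haw h1 h2

/-- Covers above an element of the left side stay in the chain. -/
theorem cov_up (F : Face R C a l r b) (hC : IsMaxChain (· ≤ ·) C) {x y : V}
    (hx : x ∈ lside C a b) (hxy : x ⋖ y) (hy : wr R C y) : y ∈ C :=
  above_l F hC hy ((F.l_le hC hx.1 hx.2.1).trans hxy.le)

/-- Covers below an element of the left side stay in the chain. -/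
theorem cov_down (F : Face R C a l r b) (hC : IsMaxChain (· ≤ ·) C) {x y : V}
    (hy : y ∈ lside C a b) (hxy : x ⋖ y) (hx : wr R C x) : x ∈ C := by
  by_contra hxC
  have hry : ¬ r ≤ y := fun h => absurd hy.2.2 (not_lt_of_ge (F.bmin y hy.1 h))
  have hly := F.l_le hC hy.1 hy.2.1
  have hLyr := F.left_r hC hy.1 hy.2.1 hy.2.2
  have hax : ¬ x ≤ a := by
    intro h
    rcases eq_or_lt_of_le h with h | h
    · exact hxC (h ▸ F.ha)
    · exact hxy.2 h hy.2.1
  by_cases hxa : a ≤ x
  · have hxa' : a < x := lt_of_le_of_ne hxa (fun e => hxC (e ▸ F.ha))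
    have hlx : ¬ l ≤ x := fun h => hxC (above_l F hC hx h)
    have hxl : ¬ x ≤ l := by
      intro h1
      rcases eq_or_lt_of_le h1 with h2 | h2
      · exact hxC (h2 ▸ F.hl)
      · exact F.al.2 hxa' h2
    have hLlx : R.L l x := by
      rcases R.tot _ _ hlx hxl with h1 | h1
      · exact h1
      · exact absurd h1 (hx l F.hl)
    obtain ⟨w, haw, hwx⟩ := cover_below hxa'
    have hwl : w ≠ l := fun e => hlx (e ▸ hwx)
    have hwr : w ≠ r := fun e => hry (e ▸ (hwx.trans hxy.le))
    have h1 : R.L l w := by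
      rcases R.tot _ _ (cov_inc F.al haw hwl.symm) (cov_inc haw F.al hwl) with h1 | h1
      · exact h1
      · exact (R.ne1 (R.trans _ _ _ h1 hLlx) hwx).elim
    have h2 : R.L r w := by
      rcases R.tot _ _ (cov_inc F.ar haw hwr.symm) (cov_inc haw F.ar hwr) with h2 | h2
      · exact h2
      · exact absurd h2 (F.adj w haw h1)
    exact R.ne2 (R.trans _ _ _ hLyr h2) (hwx.trans hxy.le)
  · have h1 : R.L a x := by
      rcases R.tot _ _ hxa hax with h1 | h1
      · exact h1
      · exact absurd h1 (hx a F.ha)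
    obtain ⟨t, h2, h3, h4, h5⟩ := R.cross a r x y F.ar.le hxy.le h1 hLyr
    rcases eq_or_lt_of_le h2 with h6 | h6
    · exact hax (h6 ▸ h4)
    · rcases eq_or_lt_of_le h3 with h7 | h7
      · exact hry (h7 ▸ h5)
      · exact F.ar.2 h6 h7

/-- Covers touching the left side are covers of the chain. -/
theorem cov_lside (F : Face R C a l r b) (hC : IsMaxChain (· ≤ ·) C) {x y : V} (hxy : x ⋖ y)
    (hx : wr R C x) (hy : wr R C y) (h : x ∈ lside C a b ∨ y ∈ lside C a b) :
    x ∈ C ∧ y ∈ C ∧ a ≤ x ∧ y ≤ b := by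
  rcases h with h | h
  · have h1 := cov_up F hC h hxy hy
    refine ⟨h.1, h1, h.2.1.le, ?_⟩
    rcases chain_total hC h1 F.hb with h2 | h2
    · exact h2
    · rcases eq_or_lt_of_le h2 with h3 | h3
      · exact h3.ge
      · exact absurd h3 (hxy.2 h.2.2)
  · have h1 := cov_down F hC h hxy hx
    refine ⟨h1, h.1, ?_, h.2.2.le⟩
    rcases chain_total hC F.ha h1 with h2 | h2
    · exact h2
    · rcases eq_or_lt_of_le h2 with h3 | h3
      · exact h3.ge
      · exact absurd h.2.1 (hxy.2 h3)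

/-- The left boundary. -/
def lbd (R : LR V) : Set V := {v | ∀ w, ¬ R.L w v}

theorem lbd_max (R : LR V) : IsMaxChain (· ≤ ·) (lbd R) := by
  classical
  apply maxChain_of
  · intro x hx y hy
    by_contra h
    push Not at h
    rcases R.tot _ _ h.1 h.2 with h1 | h1
    · exact hy x h1
    · exact hx y h1
  · intro v hv w hwv
    obtain ⟨m, hm, hm'⟩ := Finset.exists_min_image
      (Finset.univ.filter (fun z => R.L z v))
      (fun z => (Finset.univ.filter (fun y => R.L y z)).card) ⟨w, by simp [hwv]⟩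
    simp only [Finset.mem_filter, Finset.mem_univ, true_and] at hm hm'
    have hms : m ∈ lbd R := by
      intro z hzm
      have h3 := hm' z (R.trans _ _ _ hzm hm)
      have h4 : (Finset.univ.filter (fun y => R.L y z)).card <
          (Finset.univ.filter (fun y => R.L y m)).card := by
        apply Finset.card_lt_card
        constructor
        · intro y hy
          simp only [Finset.mem_filter, Finset.mem_univ, true_and] at hy ⊢
          exact R.trans _ _ _ hy hzm
        · intro h5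
          have h6 := h5 (by simpa using hzm : z ∈ Finset.univ.filter (fun y => R.L y m))
          simp only [Finset.mem_filter, Finset.mem_univ, true_and] at h6
          exact R.ne1 h6 le_rfl
      omega
    rcases hv m hms with h3 | h3
    · exact R.ne2 hm h3
    · exact R.ne1 hm h3

theorem wr_lbd (R : LR V) (v : V) : wr R (lbd R) v := fun _ hc => hc v

end LR

end Pool.Agent.Helper80.Lat
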