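import Pool.Agent.Helper80.Lat.Bridge
import Pool.Agent.Helper45.Stk.Curve

set_option autoImplicit false
set_option linter.unusedSectionVars false

/-!
# From a drawing of a bounded poset (or lattice) to a realizer by two linear extensions
-/

namespace Pool.Agent.Helper80.Lat

open Pool.Agent.Helper80.Stk

section

variable {V : Type} [PartialOrder V]

/-- The mirrored left-of relation. -/
def LR.mir (R : LR V) : LR V where
  L := fun v w => R.L w v
  inc := fun v w h => ⟨(R.inc w v h).2, (R.inc w v h).1⟩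
  tot := fun v w h1 h2 => (R.tot v w h1 h2).symm
  trans := fun u v w h1 h2 => R.trans w v u h2 h1
  cross := fun x y c d h1 h2 h3 h4 => by
    obtain ⟨z, a1, a2, a3, a4⟩ := R.cross c d x y h2 h1 h3 h4
    exact ⟨z, a3, a4, a1, a2⟩

/-- The left-first order. -/
def LR.lt (R : LR V) (x y : V) : Prop := x < y ∨ R.L x y

theorem LR.lt_trans (R : LR V) {x y z : V} (h1 : R.lt x y) (h2 : R.lt y z) : R.lt x z := by
  rcases h1 with h1 | h1 <;> rcases h2 with h2 | h2
  · exact Or.inl (h1.trans h2)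
  · by_cases h3 : x ≤ z
    · rcases eq_or_lt_of_le h3 with h4 | h4
      · subst h4; exact absurd h1.le (R.inc _ _ h2).2
      · exact Or.inl h4
    · by_cases h4 : z ≤ x
      · exact absurd (h4.trans h1.le) (R.inc _ _ h2).2
      · rcases R.tot _ _ h3 h4 with h5 | h5
        · exact Or.inr h5
        · exact absurd h1.le (R.inc _ _ (R.trans _ _ _ h2 h5)).2
  · by_cases h3 : x ≤ z
    · rcases eq_or_lt_of_le h3 with h4 | h4
      · subst h4; exact absurd h2.le (R.inc _ _ h1).2
      · exact Or.inl h4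
    · by_cases h4 : z ≤ x
      · exact absurd (h2.le.trans h4) (R.inc _ _ h1).2
      · rcases R.tot _ _ h3 h4 with h5 | h5
        · exact Or.inr h5
        · exact absurd h2.le (R.inc _ _ (R.trans _ _ _ h5 h1)).2
  · exact Or.inr (R.trans _ _ _ h1 h2)

theorem LR.lt_irrefl (R : LR V) (x : V) : ¬ R.lt x x := by
  rintro (h | h)
  · exact _root_.lt_irrefl _ h
  · exact (R.inc _ _ h).1 le_rfl

theorem LR.lt_total (R : LR V) {x y : V} (h : x ≠ y) : R.lt x y ∨ R.lt y x := by
  by_cases h3 : x ≤ y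
  · exact Or.inl (Or.inl (lt_of_le_of_ne h3 h))
  · by_cases h4 : y ≤ x
    · exact Or.inr (Or.inl (lt_of_le_of_ne h4 h.symm))
    · rcases R.tot _ _ h3 h4 with h5 | h5
      · exact Or.inl (Or.inr h5)
      · exact Or.inr (Or.inr h5)

/-- Numbering of the elements in the left-first order. -/
noncomputable def LR.lam (R : LR V) [Fintype V] (v : V) : ℕ := by
  classical exact (Finset.univ.filter (fun w => R.lt w v)).card

theorem LR.lam_lt (R : LR V) [Fintype V] {x y : V} (h : R.lt x y) : R.lam x < R.lam y := by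
  classical
  unfold LR.lam
  apply Finset.card_lt_card
  constructor
  · intro w hw
    simp only [Finset.mem_filter, Finset.mem_univ, true_and] at hw ⊢
    exact R.lt_trans hw h
  · intro h2
    have h3 := h2 (by simpa using h : x ∈ Finset.univ.filter (fun w => R.lt w y))
    simp only [Finset.mem_filter, Finset.mem_univ, true_and] at h3
    exact R.lt_irrefl _ h3

theorem LR.lam_lt_iff (R : LR V) [Fintype V] {x y : V} : R.lam x < R.lam y ↔ R.lt x y := by
  constructor
  · intro h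
    have hne : x ≠ y := by rintro rfl; exact _root_.lt_irrefl _ h
    rcases R.lt_total hne with h1 | h1
    · exact h1
    · exact absurd (R.lam_lt h1) (by omega)
  · exact R.lam_lt

theorem LR.lam_inj (R : LR V) [Fintype V] : Function.Injective R.lam := by
  intro x y h
  by_contra hne
  rcases R.lt_total hne with h1 | h1
  · exact absurd (R.lam_lt h1) (by omega)
  · exact absurd (R.lam_lt h1) (by omega)

theorem LR.mir_lt (R : LR V) {x y : V} : R.mir.lt x y ↔ x < y ∨ R.L y x := Iff.rfl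

/-- The two numberings realize the order, and `L` is the left-of relation. -/
theorem LR.real (R : LR V) [Fintype V] (x y : V) :
    (x < y ↔ R.lam x < R.lam y ∧ R.mir.lam x < R.mir.lam y) ∧
    (R.L x y ↔ R.lam x < R.lam y ∧ R.mir.lam y < R.mir.lam x) := by
  rw [R.lam_lt_iff, R.mir.lam_lt_iff, R.mir.lam_lt_iff, R.mir_lt, R.mir_lt]
  unfold LR.lt
  constructor
  · constructor
    · intro h; exact ⟨Or.inl h, Or.inl h⟩
    · rintro ⟨h1 | h1, h2 | h2⟩
      · exact h1
      · exact h1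
      · exact h2
      · exact absurd (R.trans _ _ _ h1 h2) (fun h => (R.inc _ _ h).1 le_rfl)
  · constructor
    · intro h; exact ⟨Or.inr h, Or.inr h⟩
    · rintro ⟨h1 | h1, h2 | h2⟩
      · exact absurd (h1.trans h2) (_root_.lt_irrefl _)
      · exact absurd h1.le (R.inc _ _ h2).1
      · exact absurd h2.le (R.inc _ _ h1).2
      · exact h1

end

/-- REALIZER for bounded posets: a finite poset with least and greatest element whose cover
diagram has a level drawing is the intersection of two linear orders, and crossing intervals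
meet. -/
theorem realizer_bounded (V : Type) [Fintype V] [PartialOrder V] [BoundedOrder V]
    (D : LevDraw V (fun a b => a ⋖ b)) :
    ∃ lam rho : V → ℕ, Function.Injective lam ∧ Function.Injective rho ∧
      (∀ x y, x < y ↔ lam x < lam y ∧ rho x < rho y) ∧
      ∀ x y c d : V, x ≤ y → c ≤ d → lam x < lam c → rho c < rho x → lam d < lam y →
        rho y < rho d → ∃ z, x ≤ z ∧ z ≤ y ∧ c ≤ z ∧ z ≤ d := by
  refine ⟨(lrOf D).lam, (lrOf D).mir.lam, (lrOf D).lam_inj, (lrOf D).mir.lam_inj,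
    fun x y => ((lrOf D).real x y).1, ?_⟩
  intro x y c d h1 h2 h3 h4 h5 h6
  exact (lrOf D).cross x y c d h1 h2 (((lrOf D).real x c).2.mpr ⟨h3, h4⟩)
    (((lrOf D).real d y).2.mpr ⟨h5, h6⟩)

/-- The statement of the drawing hypothesis, as in the frozen statement. -/
def UpwardPlanar (V : Type) [PartialOrder V] : Prop :=
  ∃ (p : V → ℝ × ℝ) (γ : V → V → ℝ → ℝ × ℝ),
    Function.Injective p ∧
    (∀ a b : V, a ⋖ b →
      ContinuousOn (γ a b) (Set.Icc 0 1) ∧ γ a b 0 = p a ∧ γ a b 1 = p b ∧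
      (∀ s ∈ Set.Icc (0:ℝ) 1, ∀ t ∈ Set.Icc (0:ℝ) 1, s < t → (γ a b s).2 < (γ a b t).2) ∧
      (∀ v : V, ∀ s ∈ Set.Icc (0:ℝ) 1, γ a b s = p v → v = a ∨ v = b)) ∧
    (∀ a b c d : V, a ⋖ b → c ⋖ d → (a ≠ c ∨ b ≠ d) →
      ∀ s ∈ Set.Icc (0:ℝ) 1, ∀ t ∈ Set.Icc (0:ℝ) 1,
        γ a b s = γ c d t → ∃ v : V, γ a b s = p v)

/-- REALIZER for drawings by curves. -/
theorem realizer_of_drawing (V : Type) [Fintype V] [PartialOrder V] [BoundedOrder V]
    (h : UpwardPlanar V) :
    ∃ lam rho : V → ℕ, Function.Injective lam ∧ Function.Injective rho ∧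
      (∀ x y, x < y ↔ lam x < lam y ∧ rho x < rho y) ∧
      ∀ x y c d : V, x ≤ y → c ≤ d → lam x < lam c → rho c < rho x → lam d < lam y →
        rho y < rho d → ∃ z, x ≤ z ∧ z ≤ y ∧ c ≤ z ∧ z ≤ d := by
  obtain ⟨p, γ, h1, h2, h3⟩ := h
  obtain ⟨D⟩ := Pool.Agent.Helper45.Stk.pf_Curve V _ p γ h1 h2 h3
  exact realizer_bounded V D

/-- REALIZER for lattices. -/
theorem realizer_lattice (V : Type) [Fintype V] [Lattice V] (h : UpwardPlanar V) :
    ∃ lam rho : V → ℕ, Function.Injective lam ∧ Function.Injective rho ∧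
      (∀ x y, x < y ↔ lam x < lam y ∧ rho x < rho y) := by
  rcases isEmpty_or_nonempty V with hV | hV
  · exact ⟨fun v => hV.elim v, fun v => hV.elim v, fun v => hV.elim v, fun v => hV.elim v,
      fun v => hV.elim v⟩
  · let _ : BoundedOrder V := Fintype.toBoundedOrder V
    obtain ⟨lam, rho, h1, h2, h3, _⟩ := realizer_of_drawing V h
    exact ⟨lam, rho, h1, h2, h3⟩

/-- Sups and infs in a bounded planar poset: planar posets with least and greatest element are
lattices. -/
theorem exists_sup (V : Type) [Fintype V] [PartialOrder V] [BoundedOrder V]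
    (lam rho : V → ℕ) (hl : Function.Injective lam) (hr : Function.Injective rho)
    (h : ∀ x y, x < y ↔ lam x < lam y ∧ rho x < rho y)
    (hc : ∀ x y c d : V, x ≤ y → c ≤ d → lam x < lam c → rho c < rho x → lam d < lam y →
        rho y < rho d → ∃ z, x ≤ z ∧ z ≤ y ∧ c ≤ z ∧ z ≤ d) (x y : V) :
    ∃ s, x ≤ s ∧ y ≤ s ∧ ∀ t, x ≤ t → y ≤ t → s ≤ t := by
  classical
  have htot : ∀ a b : V, ¬ a ≤ b → ¬ b ≤ a → (lam a < lam b ∧ rho b < rho a) ∨
      (lam b < lam a ∧ rho a < rho b) := by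
    intro a b h1 h2
    have hab : a ≠ b := fun e => h1 e.le
    have e1 : lam a ≠ lam b := fun e => hab (hl e)
    have e2 : rho a ≠ rho b := fun e => hab (hr e)
    have h3 : ¬ (lam a < lam b ∧ rho a < rho b) := fun e => h1 ((h a b).mpr e).le
    have h4 : ¬ (lam b < lam a ∧ rho b < rho a) := fun e => h2 ((h b a).mpr e).le
    omega
  by_cases hxy : x ≤ y
  · exact ⟨y, hxy, le_rfl, fun t _ ht => ht⟩
  by_cases hyx : y ≤ x
  · exact ⟨x, le_rfl, hyx, fun t ht _ => ht⟩
  -- a common upper bound with the smallest value of `lam`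
  obtain ⟨s, hs, hs'⟩ := Finset.exists_min_image
    (Finset.univ.filter (fun t => x ≤ t ∧ y ≤ t)) lam ⟨⊤, by simp⟩
  simp only [Finset.mem_filter, Finset.mem_univ, true_and] at hs hs'
  refine ⟨s, hs.1, hs.2, fun t h1 h2 => ?_⟩
  by_contra hst
  have hts : ¬ t ≤ s := by
    intro h3
    rcases eq_or_lt_of_le h3 with h4 | h4
    · exact hst h4.ge
    · have := ((h t s).mp h4).1
      have := hs' t ⟨h1, h2⟩
      omega
  have key : ∃ z, x ≤ z ∧ y ≤ z ∧ z ≤ s ∧ z ≤ t := by
    rcases htot x y hxy hyx with h3 | h3 <;> rcases htot s t hst hts with h4 | h4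
    · obtain ⟨z, a1, a2, a3, a4⟩ := hc x t y s h1 hs.2 h3.1 h3.2 h4.1 h4.2
      exact ⟨z, a1, a3, a4, a2⟩
    · obtain ⟨z, a1, a2, a3, a4⟩ := hc x s y t hs.1 h2 h3.1 h3.2 h4.1 h4.2
      exact ⟨z, a1, a3, a2, a4⟩
    · obtain ⟨z, a1, a2, a3, a4⟩ := hc y t x s h2 hs.1 h3.1 h3.2 h4.1 h4.2
      exact ⟨z, a3, a1, a4, a2⟩
    · obtain ⟨z, a1, a2, a3, a4⟩ := hc y s x t hs.2 h1 h3.1 h3.2 h4.1 h4.2
      exact ⟨z, a3, a1, a2, a4⟩
  obtain ⟨z, b1, b2, b3, b4⟩ := key
  rcases eq_or_lt_of_le b3 with h5 | h5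
  · exact hst (h5 ▸ b4)
  · have h6 := ((h z s).mp h5).1
    have h7 := hs' z ⟨b1, b2⟩
    omega

end Pool.Agent.Helper80.Lat
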