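import Pool.Agent.Helper84.PL.Goals
import Pool.Agent.Helper80.Lat.Realizer
import Pool.Agent.Helper80.Lat.Beta2

set_option autoImplicit false
set_option linter.unusedSectionVars false

/-!
# From a planar lattice with a good colouring to the block order of project PL
-/

namespace Pool.Agent.Helper80.Lat

open Pool.Agent.Helper84

/-- RNK: from real to natural block numbers. -/
theorem pf_RNK : PL.G_RNK := by
  intro V _ β
  classical
  refine ⟨fun v => (Finset.univ.filter (fun w => β w < β v)).card, fun u v => ?_⟩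
  constructor
  · intro h
    by_contra h1
    have h2 : (Finset.univ.filter (fun w => β w < β v)) ⊆
        (Finset.univ.filter (fun w => β w < β u)) := by
      intro w hw
      simp only [Finset.mem_filter, Finset.mem_univ, true_and] at hw ⊢
      exact hw.trans_le (not_lt.mp h1)
    exact absurd h (not_lt_of_ge (Finset.card_le_card h2))
  · intro h
    apply Finset.card_lt_card
    constructor
    · intro w hw
      simp only [Finset.mem_filter, Finset.mem_univ, true_and] at hw ⊢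
      exact hw.trans h
    · intro h1
      have h2 := h1 (by simpa using h : u ∈ Finset.univ.filter (fun w => β w < β v))
      simp at h2

section

variable {V : Type} [PartialOrder V]

/-- The realizer of a left-of relation. -/
noncomputable def rzOf [Fintype V] (R : LR V) : PL.Rz V where
  lam := R.lam
  rho := R.mir.lam
  lam_inj := R.lam_inj
  rho_inj := R.mir.lam_inj
  lt_iff := fun x y => (R.real x y).1

theorem lf_iff [Fintype V] (R : LR V) (x y : V) : PL.Lf (rzOf R) x y ↔ R.L x y :=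
  (R.real x y).2.symm

variable [Fintype V] [BoundedOrder V]

theorem blk_of (R : LR V) (χ : V → Bool) (h2 : H2F R χ) :
    ∃ τ : V → ℕ, PL.Blk (rzOf R) χ τ := by
  obtain ⟨β, B⟩ := block_ex R χ h2
  obtain ⟨τ, hτ⟩ := pf_RNK V β
  have heq : ∀ u v, τ u = τ v ↔ β u = β v := by
    intro u v
    constructor
    · intro h
      rcases lt_trichotomy (β u) (β v) with h1 | h1 | h1
      · exact absurd ((hτ u v).mpr h1) (by omega)
      · exact h1
      · exact absurd ((hτ v u).mpr h1) (by omega)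
    · intro h
      have h1 : ¬ τ u < τ v := fun h2 => absurd ((hτ u v).mp h2) (by rw [h]; exact lt_irrefl _)
      have h2 : ¬ τ v < τ u := fun h2 => absurd ((hτ v u).mp h2) (by rw [h]; exact lt_irrefl _)
      omega
  have hle : ∀ u v, τ u ≤ τ v ↔ β u ≤ β v := by
    intro u v
    rw [← not_lt, ← not_lt, hτ]
  refine ⟨τ, ?_, ?_, ?_, ?_, ?_, ?_, ?_, ?_⟩
  · intro u w h1 h2; exact (heq u w).mpr (B.b0 u w h1 h2)
  · intro u w h1 h2; exact (hτ u w).mpr (B.b2 u w h1 h2)
  · intro u v h; exact B.b6 u v ((heq u v).mp h)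
  · rintro b u w u' w' ⟨h1, h2, h3⟩ ⟨h1', h2', h3'⟩
    rw [hτ, hτ, hτ]
    exact B.b5 u w u' w' h1 h1' (by rw [h2, h3]; cases b <;> simp)
      (by rw [h2', h3']; cases b <;> simp) (by rw [h2, h2'])
  · rintro u w u' w' ⟨h1, h2, h3⟩ ⟨h1', h2', h3'⟩ he hL
    exact (hle _ _).mpr (B.oW u w u' w' h1 h1' h2 h3 h2' h3' ((heq _ _).mp he)
      ((lf_iff R _ _).mp hL))
  · rintro u w u' w' ⟨h1, h2, h3⟩ ⟨h1', h2', h3'⟩ he hL
    exact (hle _ _).mpr (B.oB u w u' w' h1 h1' h2 h3 h2' h3' ((heq _ _).mp he)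
      ((lf_iff R _ _).mp hL))
  · rintro u w u' w' ⟨h1, h2, h3⟩ ⟨h1', h2', h3'⟩ he hL
    exact (hle _ _).mpr (B.iB u w u' w' h1 h1' h2 h3 h2' h3' ((heq _ _).mp he)
      ((lf_iff R _ _).mp hL))
  · rintro u w u' w' ⟨h1, h2, h3⟩ ⟨h1', h2', h3'⟩ he hL
    exact (hle _ _).mpr (B.iW u w u' w' h1 h1' h2 h3 h2' h3' ((heq _ _).mp he)
      ((lf_iff R _ _).mp hL))

theorem ch_of_chain {χ : V → Bool} {C : Set V} (hC : IsMaxChain (· ≤ ·) C) {a : V} (ha : a ∈ C) :
    ∀ b ∈ C, a ≤ b → PL.Ch χ a b (cnt χ C a b) := by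
  apply chain_induct hC ha
  · rw [cnt_self]; exact PL.Ch.refl a
  · intro y hy z hz hay hyz ih
    rw [cnt_succ hC hy hz hay hyz]
    by_cases h : χ y = χ z
    · rw [if_pos h, Nat.add_zero]; exact PL.Ch.same a y z _ ih hyz h
    · rw [if_neg h]; exact PL.Ch.diff a y z _ ih hyz h

theorem h2f_of (R : LR V) {χ : V → Bool} (h : PL.H2 χ) : H2F R χ := by
  intro C a l r b hC F
  have hC' := flip_max F hC
  have h1 := ch_of_chain (χ := χ) hC F.ha b F.hb F.ab.le
  have h2 := ch_of_chain (χ := χ) hC' (Or.inl ⟨F.ha, Or.inl le_rfl⟩ : a ∈ flipC R C a r b) b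
    (Or.inl ⟨F.hb, Or.inr le_rfl⟩) F.ab.le
  have h3 := h a b _ _ h1 h2
  have h4 := h a b _ _ h2 h1
  unfold Good2
  omega

end

/-- GLUE: a planar lattice with a good colouring has a realizer with a block order. -/
theorem glue (V : Type) [Fintype V] [Nonempty V] [Lattice V] (hV : PL.UpwardPlanar V)
    (χ : V → Bool) (h : PL.H2 χ) : ∃ (R : PL.Rz V) (τ : V → ℕ), PL.Blk R χ τ := by
  let _ : BoundedOrder V := Fintype.toBoundedOrder V
  obtain ⟨p, γ, h1, h2, h3⟩ := hV
  obtain ⟨D⟩ := Pool.Agent.Helper45.Stk.pf_Curve V _ p γ h1 h2 h3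
  obtain ⟨τ, hτ⟩ := blk_of (lrOf D) χ (h2f_of (lrOf D) h)
  exact ⟨rzOf (lrOf D), τ, hτ⟩

end Pool.Agent.Helper80.Lat
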