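import Pool.Agent.Helper80.Lat.Bal

set_option autoImplicit false
set_option linter.unusedSectionVars false

/-!
# Three stacks

`χ v = true` is white, `χ v = false` is black. The lattice is built from right to left, one face at
a time. Invariant: no white-black cover passes strictly over an element of the left boundary.
-/

namespace Pool.Agent.Helper80.Lat

/-- A cover of type white-black. -/
def WB {V : Type} (χ : V → Bool) (x y : V) : Prop := χ x = true ∧ χ y = false

/-- Covers on the same page. -/
def Same {V : Type} (χ : V → Bool) (x y x' y' : V) : Prop :=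
  (χ x = χ y ∧ χ x' = χ y') ∨ (χ x ≠ χ y ∧ χ x = χ x' ∧ χ y = χ y')

theorem Same.wb {V : Type} {χ : V → Bool} {x y x' y' : V} (h : Same χ x y x' y') :
    WB χ x y ↔ WB χ x' y' := by
  unfold Same WB at *
  revert h
  cases χ x <;> cases χ y <;> cases χ x' <;> cases χ y' <;> simp

theorem page_same (p q r s : Bool) (h : (if p = q then (2 : Fin 3) else if p = true then 0 else 1) =
    (if r = s then (2 : Fin 3) else if r = true then 0 else 1)) :
    (p = q ∧ r = s) ∨ (p ≠ q ∧ p = r ∧ q = s) := by
  revert h
  cases p <;> cases q <;> cases r <;> cases s <;> simp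

section

variable {V : Type} [Fintype V] [PartialOrder V] [BoundedOrder V]

/-- The layout of the part which is not left of `C`. -/
structure Lay (R : LR V) (χ : V → Bool) (C : Set V) (β : V → ℝ) : Prop where
  inj : ∀ x y, wr R C x → wr R C y → β x = β y → x = y
  mono : ∀ x y, wr R C x → wr R C y → x ⋖ y → β x < β y
  page : ∀ x y x' y', wr R C x → wr R C y → wr R C x' → wr R C y' → x ⋖ y → x' ⋖ y' →
    Same χ x y x' y' → ¬ (β x < β x' ∧ β x' < β y ∧ β y < β y')
  free : ∀ p ∈ C, ∀ x y, wr R C x → wr R C y → x ⋖ y → WB χ x y → ¬ (β x < β p ∧ β p < β y)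

/-- The new values on the left side of a face. -/
structure New (R : LR V) (χ : V → Bool) (C : Set V) (β : V → ℝ) (a b : V) (N : ℕ)
    (s : ℕ → Bool) (w : ℕ → ℝ) : Prop where
  w0 : w 0 = β a
  wN : w N = β b
  step : ∀ n < N, w n < w (n + 1)
  new : ∀ n, 0 < n → n < N → ∀ v, wr R C v → w n ≠ β v
  free : ∀ n, 0 < n → n < N → ∀ x y, wr R C x → wr R C y → x ⋖ y → WB χ x y →
    ¬ (β x < w n ∧ w n < β y)
  tiny : ∀ n < N, ¬ (s n = true ∧ s (n + 1) = false) → ∀ v, wr R C v →
    ¬ (w n < β v ∧ β v < w (n + 1))

variable {R : LR V} {χ : V → Bool} {C : Set V} {β : V → ℝ} {a l r b : V} {N : ℕ} {s : ℕ → Bool}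
  {w : ℕ → ℝ}

theorem Lay.chain (I : Lay R χ C β) (hC : IsMaxChain (· ≤ ·) C) {x : V} (hx : x ∈ C) :
    ∀ y ∈ C, x ≤ y → β x ≤ β y := by
  apply chain_induct hC hx
  · exact le_rfl
  · intro y hy z hz _ hyz ih
    exact ih.trans (I.mono y z (wr_of_mem R hC hy) (wr_of_mem R hC hz) hyz).le

theorem Lay.chain_lt (I : Lay R χ C β) (hC : IsMaxChain (· ≤ ·) C) {x y : V} (hx : x ∈ C)
    (hy : y ∈ C) (h : x < y) : β x < β y := by
  rcases eq_or_lt_of_le (I.chain hC hx y hy h.le) with h1 | h1
  · exact absurd (I.inj x y (wr_of_mem R hC hx) (wr_of_mem R hC hy) h1) h.ne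
  · exact h1

theorem New.lt (W : New R χ C β a b N s w) {m n : ℕ} (h : m < n) (hn : n ≤ N) : w m < w n := by
  induction n, h using Nat.le_induction with
  | base => exact W.step m (by omega)
  | succ n _ ih => exact (ih (by omega)).trans (W.step n (by omega))

theorem New.le (W : New R χ C β a b N s w) {m n : ℕ} (h : m ≤ n) (hn : n ≤ N) : w m ≤ w n := by
  rcases eq_or_lt_of_le h with h | h
  · rw [h]
  · exact (W.lt h hn).le

theorem New.lt_iff (W : New R χ C β a b N s w) {m n : ℕ} (hm : m ≤ N) (hn : n ≤ N) :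
    w m < w n ↔ m < n := by
  constructor
  · intro h
    by_contra h1
    exact absurd h (not_lt_of_ge (W.le (by omega) hm))
  · intro h; exact W.lt h hn

theorem out_of (F : Face R C a l r b) (hC : IsMaxChain (· ≤ ·) C) {p : V} (hp : p ∈ C)
    (h : p ∉ lside C a b) : p ≤ a ∨ b ≤ p := by
  rcases chain_total hC hp F.ha with h1 | h1
  · exact Or.inl h1
  rcases chain_total hC F.hb hp with h2 | h2
  · exact Or.inr h2
  rcases eq_or_lt_of_le h1 with h3 | h3
  · exact Or.inl h3.ge
  rcases eq_or_lt_of_le h2 with h4 | h4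
  · exact Or.inr h4.ge
  · exact absurd ⟨hp, h3, h4⟩ h

theorem lay_step (F : Face R C a l r b) (hC : IsMaxChain (· ≤ ·) C)
    (I : Lay R χ (flipC R C a r b) β) (hs : ∀ v ∈ C, a ≤ v → v ≤ b → χ v = s (stp C a v))
    (W : New R χ (flipC R C a r b) β a b (stp C a b) s w) {β' : V → ℝ}
    (e1 : ∀ v, v ∉ lside C a b → β' v = β v)
    (e2 : ∀ v ∈ lside C a b, β' v = w (stp C a v)) : Lay R χ C β' := by
  have hC' := flip_max F hC
  have haC' : a ∈ flipC R C a r b := Or.inl ⟨F.ha, Or.inl le_rfl⟩
  have hbC' : b ∈ flipC R C a r b := Or.inl ⟨F.hb, Or.inr le_rfl⟩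
  have hna : a ∉ lside C a b := fun h => absurd h.2.1 (lt_irrefl _)
  have hnb : b ∉ lside C a b := fun h => absurd h.2.2 (lt_irrefl _)
  have e3 : ∀ v ∈ C, a ≤ v → v ≤ b → β' v = w (stp C a v) := by
    intro v hv h1 h2
    rcases mem_lside_or hv h1 h2 with h3 | h3 | h3
    · subst h3; rw [e1 v hna, stp_self, W.w0]
    · subst h3; rw [e1 v hnb, W.wN]
    · exact e2 v h3
  have pos : ∀ v ∈ lside C a b, 0 < stp C a v ∧ stp C a v < stp C a b := by
    intro v hv
    have h1 := stp_lt F.ha le_rfl hv.2.1
    have h2 := stp_lt hv.1 hv.2.1.le hv.2.2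
    omega
  have hpart : ∀ x y, x ⋖ y → wr R C x → wr R C y → (x ∈ lside C a b ∨ y ∈ lside C a b) →
      ∃ n < stp C a b, β' x = w n ∧ β' y = w (n + 1) ∧ χ x = s n ∧ χ y = s (n + 1) := by
    intro x y hxy hx hy h
    obtain ⟨c1, c2, c3, c4⟩ := cov_lside F hC hxy hx hy h
    have h1 := stp_succ hC c1 c3 hxy
    have h2 := stp_le c2 (c3.trans hxy.le) c4
    refine ⟨stp C a x, by omega, e3 x c1 c3 (hxy.le.trans c4), ?_, hs x c1 c3 (hxy.le.trans c4), ?_⟩
    · rw [e3 y c2 (c3.trans hxy.le) c4, h1]
    · rw [hs y c2 (c3.trans hxy.le) c4, h1]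
  -- no old white-black cover passes over a new value
  have free' : ∀ n ≤ stp C a b, ∀ x y, wr R (flipC R C a r b) x → wr R (flipC R C a r b) y →
      x ⋖ y → WB χ x y → ¬ (β x < w n ∧ w n < β y) := by
    intro n hn x y hx hy hxy hw
    rcases Nat.eq_zero_or_pos n with h | h
    · subst h; rw [W.w0]; exact I.free a haC' x y hx hy hxy hw
    · rcases Nat.lt_or_ge n (stp C a b) with h1 | h1
      · exact W.free n h h1 x y hx hy hxy hw
      · rw [show n = stp C a b by omega, W.wN]
        exact I.free b hbC' x y hx hy hxy hw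
  refine ⟨?_, ?_, ?_, ?_⟩
  · intro x y hx hy he
    by_cases lx : x ∈ lside C a b <;> by_cases ly : y ∈ lside C a b
    · rw [e2 x lx, e2 y ly] at he
      apply stp_inj hC lx.1 ly.1 lx.2.1.le ly.2.1.le
      have h1 := pos x lx
      have h2 := pos y ly
      have h3 := W.lt_iff (m := stp C a x) (n := stp C a y) (by omega) (by omega)
      have h4 := W.lt_iff (m := stp C a y) (n := stp C a x) (by omega) (by omega)
      rw [he] at h3 h4
      have h5 : ¬ stp C a x < stp C a y := fun h => absurd (h3.mpr h) (lt_irrefl _)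
      have h6 : ¬ stp C a y < stp C a x := fun h => absurd (h4.mpr h) (lt_irrefl _)
      omega
    · rw [e2 x lx, e1 y ly] at he
      have h1 := pos x lx
      exact absurd he (W.new _ h1.1 h1.2 y (wr_old F hC hy ly))
    · rw [e1 x lx, e2 y ly] at he
      have h1 := pos y ly
      exact absurd he.symm (W.new _ h1.1 h1.2 x (wr_old F hC hx lx))
    · rw [e1 x lx, e1 y ly] at he
      exact I.inj x y (wr_old F hC hx lx) (wr_old F hC hy ly) he
  · intro x y hx hy hxy
    by_cases h : x ∈ lside C a b ∨ y ∈ lside C a b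
    · obtain ⟨n, hn, h1, h2, _⟩ := hpart x y hxy hx hy h
      rw [h1, h2]; exact W.step n hn
    · push Not at h
      rw [e1 x h.1, e1 y h.2]
      exact I.mono x y (wr_old F hC hx h.1) (wr_old F hC hy h.2) hxy
  · intro x y x' y' hx hy hx' hy' hxy hxy' hS
    by_cases h : x ∈ lside C a b ∨ y ∈ lside C a b <;>
    by_cases h' : x' ∈ lside C a b ∨ y' ∈ lside C a b
    · obtain ⟨n, hn, h1, h2, _⟩ := hpart x y hxy hx hy h
      obtain ⟨m, hm, h1', h2', _⟩ := hpart x' y' hxy' hx' hy' h'
      rw [h1, h2, h1', h2']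
      rintro ⟨k1, k2, _⟩
      rw [W.lt_iff (by omega) (by omega)] at k1 k2
      omega
    · obtain ⟨n, hn, h1, h2, h3, h4⟩ := hpart x y hxy hx hy h
      push Not at h'
      rw [h1, h2, e1 x' h'.1, e1 y' h'.2]
      rintro ⟨k1, k2, k3⟩
      by_cases hw : WB χ x y
      · exact free' (n + 1) (by omega) x' y' (wr_old F hC hx' h'.1) (wr_old F hC hy' h'.2) hxy'
          (hS.wb.mp hw) ⟨k2, k3⟩
      · exact W.tiny n hn (by rw [← h3, ← h4]; exact hw) x' (wr_old F hC hx' h'.1) ⟨k1, k2⟩
    · obtain ⟨n, hn, h1, h2, h3, h4⟩ := hpart x' y' hxy' hx' hy' h'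
      push Not at h
      rw [h1, h2, e1 x h.1, e1 y h.2]
      rintro ⟨k1, k2, k3⟩
      by_cases hw : WB χ x' y'
      · exact free' n hn.le x y (wr_old F hC hx h.1) (wr_old F hC hy h.2) hxy
          (hS.wb.mpr hw) ⟨k1, k2⟩
      · exact W.tiny n hn (by rw [← h3, ← h4]; exact hw) y (wr_old F hC hy h.2) ⟨k2, k3⟩
    · push Not at h h'
      rw [e1 x h.1, e1 y h.2, e1 x' h'.1, e1 y' h'.2]
      exact I.page x y x' y' (wr_old F hC hx h.1) (wr_old F hC hy h.2) (wr_old F hC hx' h'.1)
        (wr_old F hC hy' h'.2) hxy hxy' hS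
  · intro p hp x y hx hy hxy hw
    by_cases h : x ∈ lside C a b ∨ y ∈ lside C a b
    · obtain ⟨n, hn, h1, h2, _⟩ := hpart x y hxy hx hy h
      rw [h1, h2]
      rintro ⟨k1, k2⟩
      by_cases lp : p ∈ lside C a b
      · have h3 := pos p lp
        rw [e2 p lp] at k1 k2
        rw [W.lt_iff (by omega) (by omega)] at k1 k2
        omega
      · rw [e1 p lp] at k1 k2
        have hp' : p ∈ flipC R C a r b := Or.inl ⟨hp, out_of F hC hp lp⟩
        rcases out_of F hC hp lp with h3 | h3
        · have h4 := I.chain hC' hp' a haC' h3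
          have h5 := W.le (Nat.zero_le n) hn.le
          rw [W.w0] at h5
          exact absurd k1 (not_lt_of_ge (h4.trans h5))
        · have h4 := I.chain hC' hbC' p hp' h3
          have h5 := W.le (show n + 1 ≤ stp C a b by omega) le_rfl
          rw [W.wN] at h5
          exact absurd k2 (not_lt_of_ge (h5.trans h4))
    · push Not at h
      rw [e1 x h.1, e1 y h.2]
      by_cases lp : p ∈ lside C a b
      · have h3 := pos p lp
        rw [e2 p lp]
        exact W.free _ h3.1 h3.2 x y (wr_old F hC hx h.1) (wr_old F hC hy h.2) hxy hw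
      · rw [e1 p lp]
        exact I.free p (Or.inl ⟨hp, out_of F hC hp lp⟩) x y (wr_old F hC hx h.1)
          (wr_old F hC hy h.2) hxy hw

theorem sep (β : V → ℝ) : ∃ ε : ℝ, 0 < ε ∧ ∀ u v, β u < β v → β u + ε ≤ β v := by
  classical
  obtain ⟨p, _, hp⟩ := Finset.exists_min_image (Finset.univ : Finset (V × V))
    (fun p => if β p.1 < β p.2 then β p.2 - β p.1 else 1) ⟨(⊥, ⊥), Finset.mem_univ _⟩
  refine ⟨if β p.1 < β p.2 then β p.2 - β p.1 else 1, ?_, ?_⟩
  · split_ifs with h
    · linarith
    · exact one_pos
  · intro u v huv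
    have := hp (u, v) (Finset.mem_univ _)
    simp only [huv, if_true] at this
    linarith

/-- `g` is the left end of a window of width `ε` where new values may be placed. -/
def Win (R : LR V) (χ : V → Bool) (C : Set V) (β : V → ℝ) (ε g : ℝ) : Prop :=
  (∀ v, wr R C v → ¬ (g < β v ∧ β v < g + ε)) ∧
    ∀ z, g < z → z < g + ε → ∀ x y, wr R C x → wr R C y → x ⋖ y → WB χ x y →
      ¬ (β x < z ∧ z < β y)

theorem win_black (I : Lay R χ C β) (hC : IsMaxChain (· ≤ ·) C) {ε : ℝ}
    (hε : ∀ u v, β u < β v → β u + ε ≤ β v) {p : V} (hp : p ∈ C) (hχ : χ p = false) :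
    Win R χ C β ε (β p) := by
  constructor
  · rintro v _ ⟨h1, h2⟩
    have := hε p v h1
    linarith
  · rintro z h1 h2 x y hx hy hxy hw ⟨h3, h4⟩
    apply I.free p hp x y hx hy hxy hw
    refine ⟨?_, h1.trans h4⟩
    rcases lt_trichotomy (β x) (β p) with h5 | h5 | h5
    · exact h5
    · have := I.inj x p hx (wr_of_mem R hC hp) h5
      rw [this, WB, hχ] at hw
      simp at hw
    · have := hε p x h5
      linarith

theorem win_white (I : Lay R χ C β) (hC : IsMaxChain (· ≤ ·) C) {ε : ℝ}
    (hε : ∀ u v, β u < β v → β u + ε ≤ β v) {p : V} (hp : p ∈ C) (hχ : χ p = true) :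
    Win R χ C β ε (β p - ε) := by
  constructor
  · rintro v _ ⟨h1, h2⟩
    have := hε v p (by linarith)
    linarith
  · rintro z h1 h2 x y hx hy hxy hw ⟨h3, h4⟩
    apply I.free p hp x y hx hy hxy hw
    refine ⟨by linarith, ?_⟩
    rcases lt_trichotomy (β y) (β p) with h5 | h5 | h5
    · have := hε y p h5
      linarith
    · have := I.inj y p hy (wr_of_mem R hC hp) h5
      rw [this, WB, hχ] at hw
      simp at hw
    · exact h5

theorem new_of {ε : ℝ} (hε0 : 0 < ε) (hN : 2 ≤ N) (g : ℕ → ℝ)
    (hg : ∀ n, 0 < n → n < N → Win R χ C β ε (g n))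
    (hm : ∀ n, 0 < n → n + 1 < N → g n ≤ g (n + 1))
    (he : ∀ n, 0 < n → n + 1 < N → ¬ (s n = true ∧ s (n + 1) = false) → g n = g (n + 1))
    (h0 : s 0 = χ a) (hsN : s N = χ b) (h1 : s 1 ≠ s 0) (h2 : s (N - 1) ≠ s N)
    (ha : β a ≤ g 1) (hb : g (N - 1) + ε ≤ β b) (ha' : χ a = false → g 1 = β a)
    (hb' : χ b = true → g (N - 1) = β b - ε) : ∃ w, New R χ C β a b N s w := by
  have hNpos : (0 : ℝ) < (N : ℝ) + 1 := by positivity
  have u0 : ∀ n : ℕ, 0 < n → 0 < ε * ((n : ℝ) / ((N : ℝ) + 1)) := by
    intro n hn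
    have : (0 : ℝ) < n := by exact_mod_cast hn
    positivity
  have u1 : ∀ n : ℕ, n ≤ N → ε * ((n : ℝ) / ((N : ℝ) + 1)) < ε := by
    intro n hn
    have h3 : (n : ℝ) / ((N : ℝ) + 1) < 1 := by
      rw [div_lt_one hNpos]
      have : (n : ℝ) ≤ N := by exact_mod_cast hn
      linarith
    have := mul_lt_mul_of_pos_left h3 hε0
    linarith
  have us : ∀ n : ℕ, ε * ((n : ℝ) / ((N : ℝ) + 1)) < ε * (((n + 1 : ℕ) : ℝ) / ((N : ℝ) + 1)) := by
    intro n
    apply mul_lt_mul_of_pos_left _ hε0
    apply div_lt_div_of_pos_right _ hNpos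
    push_cast; linarith
  set u : ℕ → ℝ := fun n => ε * ((n : ℝ) / ((N : ℝ) + 1)) with hu
  have u0' : ∀ n : ℕ, 0 < n → 0 < u n := u0
  have u1' : ∀ n : ℕ, n ≤ N → u n < ε := u1
  have us' : ∀ n : ℕ, u n < u (n + 1) := us
  set w : ℕ → ℝ := fun n => if n = 0 then β a else if n = N then β b else g n + u n with hw
  have w0 : w 0 = β a := by simp [hw]
  have wN : w N = β b := by simp [hw, show N ≠ 0 by omega]
  have wi : ∀ n, 0 < n → n < N → w n = g n + u n := by
    intro n hn hn'
    simp only [hw, show n ≠ 0 by omega, show n ≠ N by omega, if_false]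
  refine ⟨w, w0, wN, ?_, ?_, ?_, ?_⟩
  · intro n hn
    rcases Nat.eq_zero_or_pos n with h3 | h3
    · subst h3
      rw [w0, wi 1 (by omega) (by omega)]
      have := u0' 1 one_pos
      linarith
    · rw [wi n h3 hn]
      rcases Nat.lt_or_ge (n + 1) N with h4 | h4
      · rw [wi (n + 1) (by omega) h4]
        have := hm n h3 h4
        have := us' n
        linarith
      · have h5 : n = N - 1 := by omega
        rw [show n + 1 = N by omega, wN]
        have := u1' n hn.le
        rw [h5] at this ⊢
        linarith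
  · intro n hn hn' v hv he
    rw [wi n hn hn'] at he
    have h3 := u0' n hn
    have h4 := u1' n hn'.le
    exact (hg n hn hn').1 v hv ⟨by linarith, by linarith⟩
  · intro n hn hn' x y hx hy hxy hW
    rw [wi n hn hn']
    have h3 := u0' n hn
    have h4 := u1' n hn'.le
    exact (hg n hn hn').2 _ (by linarith) (by linarith) x y hx hy hxy hW
  · intro n hn hs v hv
    rcases Nat.eq_zero_or_pos n with h3 | h3
    · subst h3
      have h5 : χ a = false := by
        rw [← h0]
        by_contra h6
        have h7 : s 0 = true := by simpa using h6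
        rw [h7] at h1
        exact hs ⟨h7, by simpa using h1⟩
      rw [w0, wi 1 (by omega) (by omega), ha' h5]
      rintro ⟨h6, h7⟩
      have h8 := (hg 1 one_pos (by omega)).1 v hv
      rw [ha' h5] at h8
      have := u1' 1 (by omega)
      exact h8 ⟨h6, by linarith⟩
    · rw [wi n h3 hn]
      have h5 := u0' n h3
      rcases Nat.lt_or_ge (n + 1) N with h4 | h4
      · rw [wi (n + 1) (by omega) h4, ← he n h3 h4 hs]
        have h6 := u1' (n + 1) h4.le
        rintro ⟨h7, h8⟩
        exact (hg n h3 hn).1 v hv ⟨by linarith, by linarith⟩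
      · have h6 : n = N - 1 := by omega
        rw [show n + 1 = N by omega, wN]
        have h7 : χ b = true := by
          rw [← hsN]
          by_contra h7
          have h8 : s N = false := by simpa using h7
          rw [h8] at h2
          apply hs
          rw [show n + 1 = N by omega, h6]
          exact ⟨by simpa using h2, h8⟩
        have h8 := hb' h7
        rw [← h6] at h8
        rintro ⟨h9, h10⟩
        exact (hg n h3 hn).1 v hv ⟨by linarith, by linarith⟩

theorem flip_at (s : ℕ → Bool) : ∀ n : ℕ, s 1 = true → s (n + 1) = false →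
    ∃ i, 0 < i ∧ i < n + 1 ∧ s i = true ∧ s (i + 1) = false := by
  intro n
  induction n with
  | zero => intro h1 h2; rw [h1] at h2; simp at h2
  | succ n ih =>
    intro h1 h2
    rcases h : s (n + 1) with _ | _
    · obtain ⟨i, h3, h4, h5⟩ := ih h1 h
      exact ⟨i, h3, by omega, h5⟩
    · exact ⟨n + 1, by omega, by omega, h, h2⟩

theorem new_ex (I : Lay R χ C β) (hC : IsMaxChain (· ≤ ·) C) (ha : a ∈ C) (hb : b ∈ C)
    (hr : r ∈ C) (har : a < r) (hrb : r < b) (hN : 2 ≤ N) (h0 : s 0 = χ a) (hsN : s N = χ b)
    (h1 : s 1 ≠ s 0) (h2 : s (N - 1) ≠ s N) : ∃ w, New R χ C β a b N s w := by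
  obtain ⟨ε, hε0, hε⟩ := sep β
  have k1 := hε a r (I.chain_lt hC ha hr har)
  have k2 := hε r b (I.chain_lt hC hr hb hrb)
  rcases hca : χ a with _ | _ <;> rcases hcb : χ b with _ | _
  · -- black, black
    exact new_of hε0 hN (fun _ => β a) (fun _ _ _ => win_black I hC hε ha hca)
      (fun _ _ _ => le_rfl) (fun _ _ _ _ => rfl) h0 hsN h1 h2 le_rfl (by linarith)
      (fun _ => rfl) (fun h => by rw [hcb] at h; simp at h)
  · -- black, white
    have h3 : s 1 = true := by
      rw [h0, hca] at h1; simpa using h1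
    have h4 : s (N - 1) = false := by
      rw [hsN, hcb] at h2; simpa using h2
    have hN3 : 3 ≤ N := by
      rcases Nat.lt_or_ge 2 N with h | h
      · exact h
      · rw [show N - 1 = 1 by omega, h3] at h4
        simp at h4
    obtain ⟨i, i0, i1, i2, i3⟩ := flip_at s (N - 2) h3 (by rw [show N - 2 + 1 = N - 1 by omega]; exact h4)
    apply new_of hε0 hN (fun n => if n ≤ i then β a else β b - ε) _ _ _ h0 hsN h1 h2
    · simp only [show 1 ≤ i from i0, if_true]; exact le_rfl
    · simp only [show ¬ (N - 1 ≤ i) by omega, if_false]; linarith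
    · intro _; simp only [show 1 ≤ i from i0, if_true]
    · intro _; simp only [show ¬ (N - 1 ≤ i) by omega, if_false]
    · intro n _ _
      by_cases h : n ≤ i
      · simp only [h, if_true]; exact win_black I hC hε ha hca
      · simp only [h, if_false]; exact win_white I hC hε hb hcb
    · intro n _ _
      by_cases h : n + 1 ≤ i
      · simp only [h, show n ≤ i by omega, if_true]; exact le_rfl
      · by_cases h' : n ≤ i
        · simp only [h, h', if_true, if_false]; linarith
        · simp only [h, h', if_false]; exact le_rfl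
    · intro n _ _ hns
      by_cases h : n + 1 ≤ i
      · simp only [h, show n ≤ i by omega, if_true]
      · by_cases h' : n ≤ i
        · exfalso
          rw [show n = i by omega] at hns
          exact hns ⟨i2, i3⟩
        · simp only [h, h', if_false]
  · -- white, black
    rcases hcr : χ r with _ | _
    · exact new_of hε0 hN (fun _ => β r) (fun _ _ _ => win_black I hC hε hr hcr)
        (fun _ _ _ => le_rfl) (fun _ _ _ _ => rfl) h0 hsN h1 h2 (by linarith) (by linarith)
        (fun h => by rw [hca] at h; simp at h) (fun h => by rw [hcb] at h; simp at h)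
    · exact new_of hε0 hN (fun _ => β r - ε) (fun _ _ _ => win_white I hC hε hr hcr)
        (fun _ _ _ => le_rfl) (fun _ _ _ _ => rfl) h0 hsN h1 h2 (by linarith) (by linarith)
        (fun h => by rw [hca] at h; simp at h) (fun h => by rw [hcb] at h; simp at h)
  · -- white, white
    exact new_of hε0 hN (fun _ => β b - ε) (fun _ _ _ => win_white I hC hε hb hcb)
      (fun _ _ _ => le_rfl) (fun _ _ _ _ => rfl) h0 hsN h1 h2 (by linarith) (by linarith)
      (fun h => by rw [hca] at h; simp at h) (fun _ => rfl)

/-- The last covers of the two sides of a face. -/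
theorem last_ex (F : Face R C a l r b) (hC : IsMaxChain (· ≤ ·) C) :
    ∃ c ∈ lside C a b, ∃ d, c ⋖ b ∧ d ⋖ b ∧ R.L c d ∧ wr R (flipC R C a r b) d ∧
      ∀ z ∈ C, z < b → z ≤ c := by
  have hC' := flip_max F hC
  have hlb : l < b := by
    rcases eq_or_lt_of_le (F.l_le hC F.hb F.ab) with h4 | h4
    · exact (R.ne2 F.Llr (h4 ▸ F.rb)).elim
    · exact h4
  obtain ⟨c, hc, hcb, hc'⟩ := pred_ex hC F.hb F.hl hlb
  have hbC' : b ∈ flipC R C a r b := Or.inl ⟨F.hb, Or.inr le_rfl⟩
  obtain ⟨d, hd, hdb, hd'⟩ := pred_ex hC' hbC' (Or.inr (r_mem_side F hC)) (F.rb' hC)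
  have hlc := hc' l F.hl hlb
  have hac : a < c := F.al.lt.trans_le hlc
  have hrd := hd' r (Or.inr (r_mem_side F hC)) (F.rb' hC)
  have h1 := F.left_r hC hc hac hcb.lt
  refine ⟨c, ⟨hc, hac, hcb.lt⟩, d, hcb, hdb, R.up c r d h1 hrd ?_, wr_of_mem R hC' hd, hc'⟩
  intro h2
  rcases eq_or_lt_of_le h2 with h3 | h3
  · exact R.ne2 h1 (h3 ▸ hrd)
  · exact hcb.2 h3 hdb.lt

theorem lay_ex (R : LR V) (χ : V → Bool)
    (h1 : ∀ u v w, u ⋖ v → u ⋖ w → R.L v w → χ u ≠ χ v)
    (h2 : ∀ u v w, u ⋖ v → w ⋖ v → R.L u w → χ u ≠ χ v) :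
    ∀ C : Set V, IsMaxChain (· ≤ ·) C → ∃ β : V → ℝ, Lay R χ C β := by
  classical
  have main : ∀ n : ℕ, ∀ C : Set V, IsMaxChain (· ≤ ·) C →
      (Finset.univ.filter (fun v => wr R C v)).card ≤ n → ∃ β : V → ℝ, Lay R χ C β := by
    intro n
    induction n with
    | zero =>
      intro C hC hn
      rw [Nat.le_zero, Finset.card_eq_zero, Finset.filter_eq_empty_iff] at hn
      exact absurd (wr_of_mem R hC hC.bot_mem) (hn (Finset.mem_univ ⊥))
    | succ n ih =>
      intro C hC hn
      by_cases h : ∀ v, wr R C v → v ∈ C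
      · -- a chain
        have e0 : ∀ x y, wr R C x → wr R C y → x ⋖ y → stp C ⊥ y = stp C ⊥ x + 1 :=
          fun x y hx _ hxy => stp_succ hC (h x hx) bot_le hxy
        refine ⟨fun v => (stp C ⊥ v : ℝ), ?_, ?_, ?_, ?_⟩
        · intro x y hx hy he
          exact stp_inj hC (h x hx) (h y hy) bot_le bot_le (by exact_mod_cast he)
        · intro x y hx hy hxy
          simp only [e0 x y hx hy hxy]
          push_cast; linarith
        · intro x y x' y' hx hy _ _ hxy _ _
          simp only [e0 x y hx hy hxy, Nat.cast_lt]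
          omega
        · intro p _ x y hx hy hxy _
          simp only [e0 x y hx hy hxy, Nat.cast_lt]
          omega
      · push Not at h
        obtain ⟨v, hv, hv'⟩ := h
        obtain ⟨a, l, r, b, F⟩ := face_ex R hC hv hv'
        have hC' := flip_max F hC
        have haC' : a ∈ flipC R C a r b := Or.inl ⟨F.ha, Or.inl le_rfl⟩
        have hbC' : b ∈ flipC R C a r b := Or.inl ⟨F.hb, Or.inr le_rfl⟩
        have hlb : l < b := by
          rcases eq_or_lt_of_le (F.l_le hC F.hb F.ab) with h4 | h4
          · exact (R.ne2 F.Llr (h4 ▸ F.rb)).elim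
          · exact h4
        have hl : l ∈ lside C a b := ⟨F.hl, F.al.lt, hlb⟩
        have hcard : (Finset.univ.filter (fun v => wr R (flipC R C a r b) v)).card <
            (Finset.univ.filter (fun v => wr R C v)).card := by
          apply Finset.card_lt_card
          constructor
          · intro z hz
            simp only [Finset.mem_filter, Finset.mem_univ, true_and] at hz ⊢
            exact wr_flip F hC hz
          · intro h3
            have h4 := h3 (by simpa using wr_of_mem R hC F.hl :
              l ∈ Finset.univ.filter (fun v => wr R C v))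
            simp only [Finset.mem_filter, Finset.mem_univ, true_and] at h4
            exact lside_not F hC hl h4
        obtain ⟨β, I⟩ := ih _ hC' (by omega)
        obtain ⟨c, hc, d, hcb, hdb, hcd, _, _⟩ := last_ex F hC
        have el : stp C a l = 1 := by rw [stp_succ hC F.ha le_rfl F.al, stp_self]
        have ec : stp C a b = stp C a c + 1 := stp_succ hC hc.1 hc.2.1.le hcb
        have hN : 2 ≤ stp C a b := by
          have := stp_lt F.hl F.al.le hlb
          omega
        obtain ⟨w, W⟩ := new_ex (N := stp C a b) (s := sq C χ a) I hC' haC' hbC'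
          (Or.inr (r_mem_side F hC)) F.ar.lt (F.rb' hC) hN
          (by have := sq_eq hC (χ := χ) F.ha le_rfl; rwa [stp_self] at this)
          (sq_eq hC F.hb F.ab.le)
          (by
            have e0 := sq_eq hC (χ := χ) F.ha le_rfl
            have e1 := sq_eq hC (χ := χ) F.hl F.al.le
            rw [stp_self] at e0; rw [el] at e1
            rw [e0, e1]
            exact (h1 a l r F.al F.ar F.Llr).symm)
          (by
            have e0 := sq_eq hC (χ := χ) F.hb F.ab.le
            have e1 := sq_eq hC (χ := χ) hc.1 hc.2.1.le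
            rw [e0, show stp C a b - 1 = stp C a c by omega, e1]
            exact h2 c b d hcb hdb hcd)
        refine ⟨fun v => if v ∈ lside C a b then w (stp C a v) else β v,
          lay_step F hC I (fun v hv h3 _ => (sq_eq hC hv h3).symm) W ?_ ?_⟩
        · intro v hv; simp only [hv, if_false]
        · intro v hv; simp only [hv, if_true]
  intro C hC
  exact main _ C hC le_rfl

theorem three (R : LR V) (χ : V → Bool)
    (h1 : ∀ u v w, u ⋖ v → u ⋖ w → R.L v w → χ u ≠ χ v)
    (h2 : ∀ u v w, u ⋖ v → w ⋖ v → R.L u w → χ u ≠ χ v) : Helper84.PL.StackLayout 3 V := by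
  classical
  obtain ⟨β, I⟩ := lay_ex R χ h1 h2 (lbd R) (lbd_max R)
  have hw := wr_lbd R
  have hrk : ∀ u v : V, (Finset.univ.filter (fun w => β w < β u)).card <
      (Finset.univ.filter (fun w => β w < β v)).card ↔ β u < β v := by
    intro u v
    constructor
    · intro h
      by_contra h3
      have h4 : (Finset.univ.filter (fun w => β w < β v)) ⊆
          (Finset.univ.filter (fun w => β w < β u)) := by
        intro w hw
        simp only [Finset.mem_filter, Finset.mem_univ, true_and] at hw ⊢
        exact hw.trans_le (not_lt.mp h3)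
      exact absurd h (not_lt_of_ge (Finset.card_le_card h4))
    · intro h
      apply Finset.card_lt_card
      constructor
      · intro w hw
        simp only [Finset.mem_filter, Finset.mem_univ, true_and] at hw ⊢
        exact hw.trans h
      · intro h3
        have h4 := h3 (by simpa using h : u ∈ Finset.univ.filter (fun w => β w < β v))
        simp at h4
  refine ⟨fun v => (Finset.univ.filter (fun w => β w < β v)).card,
    fun a b => if χ a = χ b then 2 else if χ a = true then 0 else 1, ?_, ?_, ?_⟩
  · intro x y hxy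
    apply I.inj x y (hw x) (hw y)
    rcases lt_trichotomy (β x) (β y) with h | h | h
    · have := (hrk x y).mpr h
      simp only at hxy
      omega
    · exact h
    · have := (hrk y x).mpr h
      simp only at hxy
      omega
  · intro a b hab
    let _ : LocallyFiniteOrder V := Fintype.toLocallyFiniteOrder
    have h4 := (lt_iff_transGen_covBy).mp hab
    clear hab
    induction h4 with
    | single h => exact (hrk _ _).mpr (I.mono _ _ (hw _) (hw _) h)
    | tail _ h' ih => exact lt_trans ih ((hrk _ _).mpr (I.mono _ _ (hw _) (hw _) h'))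
  · intro a b x y hab hxy hc
    rw [hrk, hrk, hrk]
    apply I.page a b x y (hw _) (hw _) (hw _) (hw _) hab hxy
    exact page_same (χ a) (χ b) (χ x) (χ y) hc

/-- Existence of a colouring: every left side has at least two inner elements. -/
theorem col3 (R : LR V) (hR : ∀ a m b x, a ⋖ m → m ⋖ b → a < x → x < b → ¬ R.L m x) :
    ∃ χ : V → Bool, (∀ u v w, u ⋖ v → u ⋖ w → R.L v w → χ u ≠ χ v) ∧
      (∀ u v w, u ⋖ v → w ⋖ v → R.L u w → χ u ≠ χ v) := by
  classical
  have main : ∀ n : ℕ, ∀ C : Set V, IsMaxChain (· ≤ ·) C →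
      (Finset.univ.filter (fun v => wr R C v)).card ≤ n → ∃ χ : V → Bool,
      (∀ u v w, wr R C u → wr R C v → wr R C w → u ⋖ v → u ⋖ w → R.L v w → χ u ≠ χ v) ∧
      (∀ u v w, wr R C u → wr R C v → wr R C w → u ⋖ v → w ⋖ v → R.L u w → χ u ≠ χ v) := by
    intro n
    induction n with
    | zero =>
      intro C hC hn
      rw [Nat.le_zero, Finset.card_eq_zero, Finset.filter_eq_empty_iff] at hn
      exact absurd (wr_of_mem R hC hC.bot_mem) (hn (Finset.mem_univ ⊥))
    | succ n ih =>
      intro C hC hn
      by_cases h : ∀ v, wr R C v → v ∈ C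
      · refine ⟨fun _ => true, ?_, ?_⟩
        · intro u v w _ hv hw _ _ hL
          exact absurd hL (hv w (h w hw))
        · intro u v w hu _ hw _ _ hL
          exact absurd hL (hu w (h w hw))
      · push Not at h
        obtain ⟨v, hv, hv'⟩ := h
        obtain ⟨a, l, r, b, F⟩ := face_ex R hC hv hv'
        have hC' := flip_max F hC
        have hlb : l < b := by
          rcases eq_or_lt_of_le (F.l_le hC F.hb F.ab) with h4 | h4
          · exact (R.ne2 F.Llr (h4 ▸ F.rb)).elim
          · exact h4
        have hl : l ∈ lside C a b := ⟨F.hl, F.al.lt, hlb⟩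
        have hcard : (Finset.univ.filter (fun v => wr R (flipC R C a r b) v)).card <
            (Finset.univ.filter (fun v => wr R C v)).card := by
          apply Finset.card_lt_card
          constructor
          · intro z hz
            simp only [Finset.mem_filter, Finset.mem_univ, true_and] at hz ⊢
            exact wr_flip F hC hz
          · intro h3
            have h4 := h3 (by simpa using wr_of_mem R hC F.hl :
              l ∈ Finset.univ.filter (fun v => wr R C v))
            simp only [Finset.mem_filter, Finset.mem_univ, true_and] at h4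
            exact lside_not F hC hl h4
        obtain ⟨χ, I1, I2⟩ := ih _ hC' (by omega)
        obtain ⟨c, hc, d, hcb, hdb, hcd, _, hcmax⟩ := last_ex F hC
        have hcl : c ≠ l := by
          intro e
          subst e
          exact hR a c b r F.al hcb F.ar.lt (F.rb' hC) F.Llr
        have hna : a ∉ lside C a b := fun h => absurd h.2.1 (lt_irrefl _)
        have hnb : b ∉ lside C a b := fun h => absurd h.2.2 (lt_irrefl _)
        refine ⟨fun v => if v ∈ lside C a b then (if v = c then !(χ b) else !(χ a)) else χ v,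
          ?_, ?_⟩
        · intro u v w hu hv hw huv huw hL
          by_cases hs : u ∈ lside C a b ∨ v ∈ lside C a b
          · obtain ⟨c1, c2, c3, c4⟩ := cov_lside F hC huv hu hv hs
            by_cases lu : u ∈ lside C a b
            · exact absurd hL (hv w (cov_up F hC lu huw hw))
            · have hua : u = a := by
                rcases mem_lside_or c1 c3 (huv.le.trans c4) with h3 | h3 | h3
                · exact h3
                · exact absurd (h3 ▸ huv.lt) (not_lt_of_ge c4)
                · exact absurd h3 lu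
              subst hua
              have hvl : v = l := by
                rcases chain_total hC c2 F.hl with h3 | h3
                · by_contra hne; exact cov_inc huv F.al hne h3
                · by_contra hne; exact cov_inc F.al huv (Ne.symm hne) h3
              subst hvl
              simp only [hna, hl, Ne.symm hcl, if_true, if_false]
              cases χ u <;> simp
          · push Not at hs
            have lw : w ∉ lside C a b := by
              intro lw
              exact hv w lw.1 hL
            simp only [hs.1, hs.2, if_false]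
            exact I1 u v w (wr_old F hC hu hs.1) (wr_old F hC hv hs.2) (wr_old F hC hw lw)
              huv huw hL
        · intro u v w hu hv hw huv hwv hL
          by_cases hs : u ∈ lside C a b ∨ v ∈ lside C a b
          · obtain ⟨c1, c2, c3, c4⟩ := cov_lside F hC huv hu hv hs
            by_cases lv : v ∈ lside C a b
            · exact absurd hL (hu w (cov_down F hC lv hwv hw))
            · have hvb : v = b := by
                rcases mem_lside_or c2 (c3.trans huv.le) c4 with h3 | h3 | h3
                · exact absurd (h3 ▸ huv.lt) (not_lt_of_ge c3)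
                · exact h3
                · exact absurd h3 lv
              subst hvb
              have huc : u = c := by
                have h3 := hcmax u c1 huv.lt
                rcases eq_or_lt_of_le h3 with h4 | h4
                · exact h4
                · exact absurd hcb.lt (huv.2 h4)
              subst huc
              simp only [hc, hnb, if_true, if_false]
              cases χ v <;> simp
          · push Not at hs
            have lw : w ∉ lside C a b := by
              intro lw
              exact hu w lw.1 hL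
            simp only [hs.1, hs.2, if_false]
            exact I2 u v w (wr_old F hC hu hs.1) (wr_old F hC hv hs.2) (wr_old F hC hw lw)
              huv hwv hL
  obtain ⟨χ, h1, h2⟩ := main _ (lbd R) (lbd_max R) le_rfl
  have hw := wr_lbd R
  exact ⟨χ, fun u v w => h1 u v w (hw u) (hw v) (hw w),
    fun u v w => h2 u v w (hw u) (hw v) (hw w)⟩

end

/-- The left-of relation of a realizer of a lattice. -/
def lrRz {V : Type} [Lattice V] (lam rho : V → ℕ) (h1 : Function.Injective lam)
    (h2 : Function.Injective rho) (h3 : ∀ x y, x < y ↔ lam x < lam y ∧ rho x < rho y) :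
    LR V where
  L := fun x y => lam x < lam y ∧ rho y < rho x
  inc := by
    rintro v w ⟨k1, k2⟩
    constructor
    · intro h
      rcases eq_or_lt_of_le h with h | h
      · rw [h] at k1; omega
      · have := (h3 v w).mp h; omega
    · intro h
      rcases eq_or_lt_of_le h with h | h
      · rw [h] at k1; omega
      · have := (h3 w v).mp h; omega
  tot := by
    intro v w k1 k2
    have hne : v ≠ w := fun h => k1 h.le
    have e1 : lam v ≠ lam w := fun h => hne (h1 h)
    have e2 : rho v ≠ rho w := fun h => hne (h2 h)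
    have k3 : ¬ (lam v < lam w ∧ rho v < rho w) := fun h => k1 ((h3 v w).mpr h).le
    have k4 : ¬ (lam w < lam v ∧ rho w < rho v) := fun h => k2 ((h3 w v).mpr h).le
    omega
  trans := by
    rintro u v w ⟨k1, k2⟩ ⟨k3, k4⟩
    exact ⟨k1.trans k3, k4.trans k2⟩
  cross := by
    rintro x y c d hxy hcd ⟨k1, k2⟩ ⟨k3, k4⟩
    have m1 : lam x ≤ lam y ∧ rho x ≤ rho y := by
      rcases eq_or_lt_of_le hxy with h | h
      · rw [h]; exact ⟨le_rfl, le_rfl⟩
      · exact ⟨((h3 x y).mp h).1.le, ((h3 x y).mp h).2.le⟩
    have m2 : lam c ≤ lam d ∧ rho c ≤ rho d := by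
      rcases eq_or_lt_of_le hcd with h | h
      · rw [h]; exact ⟨le_rfl, le_rfl⟩
      · exact ⟨((h3 c d).mp h).1.le, ((h3 c d).mp h).2.le⟩
    have hxd : x < d := (h3 x d).mpr ⟨by omega, by omega⟩
    have hcy : c < y := (h3 c y).mpr ⟨by omega, by omega⟩
    exact ⟨x ⊔ c, le_sup_left, sup_le hxy hcy.le, le_sup_right, sup_le hxd.le hcd⟩

/-- Three stacks for a lattice with a realizer and a colouring in which the first and the last
cover of every left side are bichromatic. -/
theorem three_rz (V : Type) [Fintype V] [Nonempty V] [Lattice V] (lam rho : V → ℕ)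
    (h1 : Function.Injective lam) (h2 : Function.Injective rho)
    (h3 : ∀ x y, x < y ↔ lam x < lam y ∧ rho x < rho y) (χ : V → Bool)
    (k1 : ∀ u v w, u ⋖ v → u ⋖ w → lam v < lam w → χ u ≠ χ v)
    (k2 : ∀ u v w, u ⋖ v → w ⋖ v → lam u < lam w → χ u ≠ χ v) :
    Helper84.PL.StackLayout 3 V := by
  let _ : BoundedOrder V := Fintype.toBoundedOrder V
  exact three (lrRz lam rho h1 h2 h3) χ (fun u v w a b c => k1 u v w a b c.1)
    (fun u v w a b c => k2 u v w a b c.1)

/-- Three stacks for a lattice with a realizer for which every left side has at least two inner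
elements. -/
theorem three_left (V : Type) [Fintype V] [Nonempty V] [Lattice V] (lam rho : V → ℕ)
    (h1 : Function.Injective lam) (h2 : Function.Injective rho)
    (h3 : ∀ x y, x < y ↔ lam x < lam y ∧ rho x < rho y)
    (k : ∀ a m b x, a ⋖ m → m ⋖ b → a < x → x < b → lam x ≤ lam m) :
    Helper84.PL.StackLayout 3 V := by
  let _ : BoundedOrder V := Fintype.toBoundedOrder V
  obtain ⟨χ, c1, c2⟩ := col3 (lrRz lam rho h1 h2 h3)
    (fun a m b x p1 p2 p3 p4 h => absurd (k a m b x p1 p2 p3 p4) (not_le_of_gt h.1))
  exact three _ χ c1 c2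

/-- Three stacks for a planar lattice in which a saturated chain with three elements is an
interval. -/
theorem three_planar (V : Type) [Fintype V] [Nonempty V] [Lattice V]
    (hV : Helper84.PL.UpwardPlanar V)
    (k : ∀ a m b x : V, a ⋖ m → m ⋖ b → a < x → x < b → x = m) :
    Helper84.PL.StackLayout 3 V := by
  let _ : BoundedOrder V := Fintype.toBoundedOrder V
  obtain ⟨p, γ, h1, h2, h3⟩ := hV
  obtain ⟨D⟩ := Pool.Agent.Helper45.Stk.pf_Curve V _ p γ h1 h2 h3
  obtain ⟨χ, c1, c2⟩ := col3 (lrOf D) (fun a m b x p1 p2 p3 p4 h => by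
    rw [k a m b x p1 p2 p3 p4] at h
    exact (lrOf D).ne1 h le_rfl)
  exact three _ χ c1 c2

end Pool.Agent.Helper80.Lat
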